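import Pool.Agent.Lib.MP_5c0be7_lc.C.St
import Pool.Agent.Lib.MP_5c0be7_lc.K.StHull

/-!
Project KM, blocks F4, F5: condensation of hulls, ultrapowers, realisation, direct limits.
Definitions and statements.
-/

namespace Pool.Agent.KM

open Ordinal Tr

universe u

/-- `e` is continuous at `a`. -/
def Cts (e : Ordinal.{u} → Ordinal.{u}) (a : Ordinal.{u}) : Prop := ∀ y < e a, ∃ x < a, y < e x

/-- The top extender of `(b + 1, E)`, if any, is respected by `e`. -/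
def TopCts (E : Seq.{u}) (b k t : Ordinal.{u}) (e : Ordinal.{u} → Ordinal.{u}) : Prop :=
  ∀ k0 t0 g, Act E b k0 t0 g → (t0 ≤ k → Cts e t0) ∧ (t = b → Cts e k)

/-- The formal ultrapower has no descending sequence. -/
def UWf (E : Seq.{u}) (d k t : Ordinal.{u}) (E' : Seq.{u}) (e : Ordinal.{u} → Ordinal.{u}) : Prop :=
  ¬ ∃ p : ℕ → Tr.{u} × Tr.{u}, ∀ n, ULt E d k t E' e (p (n + 1)) (p n)

/-- A directed system of strong maps between premice `(b j + 1, E j)`. -/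
structure Dir {J : Type (u + 1)} (le : J → J → Prop) (E : J → Seq.{u}) (b : J → Ordinal.{u})
    (p : J → J → Ordinal.{u} → Ordinal.{u}) : Prop where
  ne : Nonempty J
  trans : ∀ i j l, le i j → le j l → le i l
  dir : ∀ i j, ∃ l, le i l ∧ le j l
  pm : ∀ j, PM0 (E j) (b j + 1)
  str : ∀ i j, le i j → Strong (E i) (b i + 1) (E j) (b j + 1) (p i j)
  comm : ∀ i j l, le i j → le j l → ∀ x ≤ b i, p j l (p i j x) = p i l x

/-- F4: hulls are closed. -/
class HullSt : Prop where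
  sub : ∀ {E : Seq.{u}} {d a : Ordinal.{u}} {X : Set Ordinal.{u}}, a ∈ X → a < d → InHull E d X a
  lt : ∀ {E : Seq.{u}} {d a : Ordinal.{u}} {X : Set Ordinal.{u}}, InHull E d X a → a < d
  tree : ∀ {E : Seq.{u}} {d : Ordinal.{u}} {X : Set Ordinal.{u}} {w : Tr.{u}},
    w.lv ⊆ {y | InHull E d X y} ↔ ∃ c x, x.lv ⊆ X ∧ ev E d c x = some w
  closed : ∀ {E : Seq.{u}} {d y : Ordinal.{u}} {X : Set Ordinal.{u}},
    InHull E d {y | InHull E d X y} y → InHull E d X y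
  enum : ∀ {E : Seq.{u}} {b : Ordinal.{u}} {Z : Set Ordinal.{u}}, Z ⊆ Set.Iic b →
    (∀ y, InHull E (b + 1) Z y → y ∈ Z) → ∃ (p : Ordinal.{u} → Ordinal.{u}) (b0 : Ordinal.{u}),
      StrictMono p ∧ p b0 = b ∧ p '' Set.Iic b0 = Z ∧
      ∀ c x y, In (b0 + 1) x → ev E (b + 1) c (x.map p) = some y → y.lv ⊆ p '' Set.Iic b0

/-- F4: condensation of strong hulls and of weak hulls of limit length. -/
class CondSt : Prop where
  strong : ∀ {E : Seq.{u}} {b : Ordinal.{u}} {p : Ordinal.{u} → Ordinal.{u}}, StrictMono p →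
    PM0 E (p b + 1) →
    (∀ c x y, In (b + 1) x → ev E (p b + 1) c (x.map p) = some y → y.lv ⊆ p '' Set.Iic b) →
    PM0 (pull p E) (b + 1) ∧ Strong (pull p E) (b + 1) E (p b + 1) p ∧
      (PM E (p b + 1) → PM (pull p E) (b + 1))
  weak : ∀ {E : Seq.{u}} {d d' : Ordinal.{u}} {p : Ordinal.{u} → Ordinal.{u}}, StrictMono p →
    ¬ Suc d → PM0 E d' → (∀ a < d, p a < d') → (∀ a < d, p (a + 1) = p a + 1) →
    (∀ a < d, ∀ c x y, In a x → ev E (p a) c (x.map p) = some y → y.lv ⊆ Set.range p) →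
    PM0 (pull p E) d ∧ Weak (pull p E) d E d' p ∧ (PM E d' → PM (pull p E) d)

/-- F5: existence of ultrapowers and lifts. -/
class UltSt : Prop where
  ult : ∀ {E E1 : Seq.{u}} {b k t v : Ordinal.{u}} {e : Ordinal.{u} → Ordinal.{u}},
    PM0 E (b + 1) → PM0 E1 v → Ext E k t E1 v e → t ≤ b → NoProj E k t (b + 1) →
    TopCts E b k t e → UWf E (b + 1) k t E1 e →
    ∃ E' i, IsUlt E b k E' i ∧ (∀ x < t, i x = e x) ∧ i t = v ∧ Agree E' E1 v ∧
      (PM E (b + 1) → PM E' (i b + 1))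

/-- F5: an extender from a sequence can be applied to a premouse that agrees up to its domain. -/
class UltActSt : Prop where
  ext : ∀ {E E1 : Seq.{u}} {k t v : Ordinal.{u}} {e : Ordinal.{u} → Ordinal.{u}},
    Act E1 v k t e → LS E1 v → Agree E E1 t → Ext E k t E1 v e
  cts : ∀ {E E1 : Seq.{u}} {b k t v : Ordinal.{u}} {e : Ordinal.{u} → Ordinal.{u}},
    PM0 E (b + 1) → PM0 E1 v → Act E1 v k t e → Agree E E1 t → t ≤ b → (t = b → Pas E b) →
    TopCts E b k t e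

/-- F5: facts on ultrapower maps. -/
class UltFactSt : Prop where
  tree : ∀ {E E' : Seq.{u}} {b k : Ordinal.{u}} {i : Ordinal.{u} → Ordinal.{u}} {x : Tr.{u}},
    IsUlt E b k E' i → In (i b) x →
    ∃ c z a, In b z ∧ In (i k) a ∧ ev E' (i b) c (node a (z.map i)) = some x
  cof : ∀ {E E' : Seq.{u}} {b k : Ordinal.{u}} {i : Ordinal.{u} → Ordinal.{u}},
    IsUlt E b k E' i → Cof E b E' (i b) i
  cts : ∀ {E E' : Seq.{u}} {b k a : Ordinal.{u}} {i : Ordinal.{u} → Ordinal.{u}},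
    IsUlt E b k E' i → a ≤ b →
    (∀ f, In (b + 1) f → ∃ x < a, ∀ w y, In k w → fv E f w = some (leaf y) → y < a → y < x) →
    Cts i a

/-- F5: realisation of an ultrapower along a thread, and uniqueness. -/
class RealSt : Prop where
  real : ∀ {E E' E2 : Seq.{u}} {b k : Ordinal.{u}} {i j th : Ordinal.{u} → Ordinal.{u}},
    IsUlt E b k E' i → Good E b E2 j → PM0 E2 (j b + 1) → (∀ z < i k, th z < j k) →
    (∀ n a, In (b + 1) n → In (i k) a → (Nm E' (n.map i) a ↔ Nm E2 (n.map j) (a.map th))) →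
    ∃ s, Good E' (i b) E2 s ∧ (∀ x ≤ b, s (i x) = j x) ∧ ∀ z < i k, s z = th z
  thread : ∀ {E E' E2 : Seq.{u}} {b k t : Ordinal.{u}} {i j th : Ordinal.{u} → Ordinal.{u}},
    IsUlt E b k E' i → Good E b E2 j → t ≤ b → NoProj E k t (b + 1) → (∀ z < i k, th z < j k) →
    (∀ n a, In t n → In (i k) a → (Nm E' (n.map i) a ↔ Nm E2 (n.map j) (a.map th))) →
    ∀ n a, In (b + 1) n → In (i k) a → (Nm E' (n.map i) a ↔ Nm E2 (n.map j) (a.map th))
  unique : ∀ {E E' E2 : Seq.{u}} {b k : Ordinal.{u}} {i j : Ordinal.{u} → Ordinal.{u}},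
    IsUlt E b k E' i → IsUlt E b k E2 j → i k = j k →
    (∀ n a, In (b + 1) n → In (i k) a → (Nm E' (n.map i) a ↔ Nm E2 (n.map j) a)) →
    (∀ x ≤ b, i x = j x) ∧ Agree E' E2 (i b + 1)

/-- F5: a realising thread bounds the formal ultrapower. -/
class RealWfSt : Prop where
  wf : ∀ {E E1 E2 : Seq.{u}} {b k t : Ordinal.{u}} {e j : Ordinal.{u} → Ordinal.{u}},
    Good E b E2 j → LS E (b + 1) → k < rho E b → t ≤ b + 1 →
    (∀ Z : Set Ordinal.{u}, Z.Countable → ∃ th : Ordinal.{u} → Ordinal.{u},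
      (∀ z ∈ Z, z < e k → th z < j k) ∧ ∀ n a : Tr.{u}, n.lv ⊆ Z → In t n → a.lv ⊆ Z →
        In (e k) a → Nm E1 (n.map e) a → Nm E2 (n.map j) (a.map th)) →
    UWf E (b + 1) k t E1 e

/-- F5: existence of direct limits. -/
class LimSt : Prop where
  lim : ∀ {J : Type (u + 1)} [_root_.Small.{u} J] {le : J → J → Prop} {E : J → Seq.{u}}
    {b : J → Ordinal.{u}} {p : J → J → Ordinal.{u} → Ordinal.{u}}, Dir le E b p →
    (¬ ∃ (s : ℕ → J) (x : ℕ → Ordinal.{u}), ∀ n, le (s n) (s (n + 1)) ∧ x n ≤ b (s n) ∧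
      x (n + 1) < p (s n) (s (n + 1)) (x n)) →
    ∃ E' b' m, IsLim le E b E' b' p m ∧ ((∀ j, PM (E j) (b j + 1)) → PM E' (b' + 1))

/-- F5: maps out of a direct limit. -/
class LimMapSt : Prop where
  good : ∀ {J : Type (u + 1)} {le : J → J → Prop} {E : J → Seq.{u}} {b : J → Ordinal.{u}}
    {p : J → J → Ordinal.{u} → Ordinal.{u}} {E' E2 : Seq.{u}} {b' : Ordinal.{u}}
    {m s : J → Ordinal.{u} → Ordinal.{u}}, Dir le E b p → IsLim le E b E' b' p m →
    (∀ j, Good (E j) (b j) E2 (s j)) → (∀ i j, le i j → ∀ x ≤ b i, s j (p i j x) = s i x) →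
    ∃ g, Good E' b' E2 g ∧ ∀ j, ∀ x ≤ b j, g (m j x) = s j x
  strong : ∀ {J : Type (u + 1)} {le : J → J → Prop} {E : J → Seq.{u}} {b : J → Ordinal.{u}}
    {p : J → J → Ordinal.{u} → Ordinal.{u}} {E' E2 : Seq.{u}} {b' b2 : Ordinal.{u}}
    {m s : J → Ordinal.{u} → Ordinal.{u}}, Dir le E b p → IsLim le E b E' b' p m →
    (∀ j, Strong (E j) (b j + 1) E2 (b2 + 1) (s j)) →
    (∀ i j, le i j → ∀ x ≤ b i, s j (p i j x) = s i x) →
    ∃ g, Strong E' (b' + 1) E2 (b2 + 1) g ∧ ∀ j, ∀ x ≤ b j, g (m j x) = s j x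

/-- Premice with the same evaluation tables are equal. -/
class AgreeSt : Prop where
  of_ev : ∀ {E E' : Seq.{u}} {d : Ordinal.{u}}, PM0 E d → PM0 E' d →
    (∀ a < d, ev E a = ev E' a) → Agree E E' d
  of_fix : ∀ {E E' : Seq.{u}} {d d' g : Ordinal.{u}} {s : Ordinal.{u} → Ordinal.{u}}, PM0 E d →
    PM0 E' d' → Weak E d E' d' s → g ≤ d → (∀ x < g, s x = x) → Agree E E' g

end Pool.Agent.KM
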