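import Pool.Agent.Lib.MP_5c0be7_lc.L.St
import Pool.Agent.Lib.MP_5c0be7_lc.O.Api

/-!
Project KM: premice with the same evaluation tables are equal.
-/

namespace Pool.Agent.KM

open Ordinal Tr

universe u

namespace AgreeP

variable {E E' : Seq.{u}} {d v x y : Ordinal.{u}}

theorem mono {g : Ordinal.{u}} (h : PM0 E d) (hg : g ≤ d) : PM0 E g :=
  ⟨fun b hb => h.ls b (hb.trans_le hg), fun b hb => h.act b (hb.trans_le hg)⟩

theorem bdd (h : PM0 E d) (hv : v < d) (hx : E v x y) : x < v ∧ y < v ∧ ¬ Suc v := by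
  rcases h.act v hv with h1 | ⟨k, t, e, h1⟩
  · exact absurd hx (h1 x y)
  · obtain ⟨h2, rfl⟩ := (h1.graph x y).1 hx
    refine ⟨h2.trans h1.dom, h1.weak.maps x h2, not_suc_iff.2 fun a ha => ?_⟩
    obtain ⟨z, hz, h3⟩ := h1.cof a ha
    exact (Order.add_one_le_iff.2 h3).trans_lt (h1.weak.maps z hz)

theorem half (h : PM0 E d) (hv : v < d) (he : ev E v = ev E' v) (hx : E v x y) : E' v x y := by
  obtain ⟨h1, h2, h3⟩ := bdd h hv hx
  have hi : In v (node (leaf x) (leaf y)) := by simp [h1, h2]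
  have h4 := ev_extc (E := E) hi
  rw [he, ev_extc hi, tv_pos (show ora E v (node (leaf x) (leaf y)) from ⟨h3, hx⟩)] at h4
  exact ((tv_eq_nil _).1 (Option.some.inj h4)).2

theorem of_ev (h : PM0 E d) (h' : PM0 E' d) (he : ∀ a < d, ev E a = ev E' a) : Agree E E' d :=
  fun v hv => funext fun _ => funext fun _ =>
    propext ⟨half h hv (he v hv), half h' hv (he v hv).symm⟩

theorem of_fix {d' g : Ordinal.{u}} {s : Ordinal.{u} → Ordinal.{u}} (h : PM0 E d) (h' : PM0 E' d')
    (hw : Weak E d E' d' s) (hg : g ≤ d) (hs : ∀ x < g, s x = x) : Agree E E' g := by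
  have hg' : g ≤ d' := le_of_forall_lt fun a ha => hs a ha ▸ hw.maps a (ha.trans_le hg)
  refine of_ev (mono h hg) (mono h' hg') fun a ha => funext fun c => funext fun z => ?_
  by_cases hz : In a z
  · have h1 := hw.comm a (ha.trans_le hg) c z hz
    rw [hs a ha, map_eq_self fun i hi => hs i ((hz i hi).trans ha)] at h1
    rw [h1]
    cases h2 : ev E a c z with
    | none => rfl
    | some w => rw [Option.map_some, map_eq_self fun i hi => hs i ((ev_in h2 i hi).trans ha)]
  · rw [ev_guard hz, ev_guard hz]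

end AgreeP

instance : AgreeSt.{u} := ⟨AgreeP.of_ev, AgreeP.of_fix⟩

end Pool.Agent.KM
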