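import Pool.Agent.Lib.MP_5c0be7_lc.L.St
import Pool.Agent.Lib.MP_5c0be7_lc.F.StTree

/-!
Project KM: bridges from the statements of block F5 to those used by blocks K and F8.
-/

namespace Pool.Agent.KM

open Ordinal Tr

universe u

instance [UltSt.{u}] [UltActSt.{u}] [LimSt.{u}] : UltExSt.{u} where
  ult hE hE' ha hag ht hn hp hw := by
    obtain ⟨E1, i, h1, h2, h3, h4, h5⟩ := UltSt.ult hE.toPM0 hE'.toPM0
      (UltActSt.ext ha hE'.ls hag) ht hn
      (UltActSt.cts hE.toPM0 hE'.toPM0 ha hag ht fun e => e ▸ hp)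
      (fun ⟨p, hp⟩ => (wellFounded_iff_isEmpty_descending_chain.1 hw).false ⟨p, hp⟩)
    exact ⟨E1, i, h1, h5 hE, h2, h3, h4⟩
  lim E b p r hpm hs hc hr hrp := by
    obtain ⟨E', b', m, h1, h2⟩ := LimSt.lim (le := (· ≤ ·)) (E := E) (b := b) (p := p)
      ⟨inferInstance, fun _ _ _ => le_trans,
        fun i j => ⟨max i j, le_max_left _ _, le_max_right _ _⟩,
        fun j => (hpm j).toPM0, hs, hc⟩
      (fun ⟨s, x, h⟩ => (wellFounded_iff_isEmpty_descending_chain.1
        (wellFounded_lt (α := Ordinal.{u}))).false ⟨fun n => r (s n) (x n), fun n => by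
          beta_reduce
          rw [← hrp _ _ (h n).1 _ (h n).2.1]
          exact hr _ (h (n + 1)).2.1 (Order.lt_add_one_iff.1
            ((hs _ _ (h n).1).maps _ (Order.lt_add_one_iff.2 (h n).2.1))) (h n).2.2⟩)
    exact ⟨E', b', m, h1, h2 hpm⟩

end Pool.Agent.KM
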