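import Pool.Agent.Lib.MP_5c0be7_lc.L.StLos
import Pool.Agent.Lib.MP_5c0be7_lc.O.Api
import Pool.Agent.Lib.MP_5c0be7_lc.F.ActI

/-!
Project KM, block F4: condensation of hulls.
-/

namespace Pool.Agent.KM

open Ordinal Tr Filter
open scoped Classical

universe u

namespace Cond

variable {E : Seq.{u}} {a b d d' : Ordinal.{u}} {p r : Ordinal.{u} → Ordinal.{u}}

theorem unmap (hp : StrictMono r) {y : Tr.{u}} (hy : In (r a) y) (h : y.lv ⊆ Set.range r) :
    ∃ z, In a z ∧ y = z.map r := by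
  induction y with
  | nil => exact ⟨.nil, by simp, rfl⟩
  | leaf x =>
    obtain ⟨z, rfl⟩ := h (show x ∈ lv (leaf x) by simp)
    exact ⟨leaf z, by simpa [hp.lt_iff_lt] using hy, rfl⟩
  | node l m ihl ihm =>
    obtain ⟨z, h1, rfl⟩ := ihl hy.fst fun x hx => h (Or.inl hx)
    obtain ⟨w, h2, rfl⟩ := ihm hy.snd fun x hx => h (Or.inr hx)
    exact ⟨node z w, by simp [h1, h2], rfl⟩

theorem bdd (hp : StrictMono p) (h : PM0 E d') (hm : ∀ a < d, p a < d')
    (hs : ∀ a, a + 1 < d → p (a + 1) = p a + 1) : Bdd (pull p E) d := by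
  intro v hv x y hxy
  rcases h.act _ (hm v hv) with h1 | ⟨k, t, e, h1⟩
  · exact absurd hxy (h1 _ _)
  obtain ⟨h2, h3⟩ := (h1.graph _ _).1 hxy
  refine ⟨hp.lt_iff_lt.1 (h2.trans h1.dom), hp.lt_iff_lt.1 (h3 ▸ h1.weak.maps _ h2), ?_⟩
  rintro ⟨c, rfl⟩
  exact ActF.lim h1 ⟨_, hs c hv⟩

variable [LosSt.{u}] [LosPmSt.{u}]

/-- The common part: `r` is the level map, which agrees with `p` below the top. -/
theorem core (hr : StrictMono r) (he : ∀ x < d, r x = p x) (ht : ¬ Suc d → r d = p d)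
    (h : PM0 E (r d)) (hs : ∀ a, a + 1 ≤ d → r (a + 1) = r a + 1) (hb : Bdd (pull p E) d)
    (hc : ∀ a ≤ d, ∀ c x y, In a x → ev E (r a) c (x.map r) = some y → y.lv ⊆ Set.range r) :
    PM0 (pull p E) d ∧ (∀ a ≤ d, Comm (pull p E) a E (r a) r) ∧
      (PM E (r d) → PM (pull p E) d) := by
  have L : Los (⊤ : Filter PUnit.{u + 2}) (fun _ => E) (fun _ => r) d (pull p E) := by
    refine LosSt.los ⟨⟨inferInstance, fun a a' h1 _ => .of_forall fun _ => hr h1,
      fun a h1 => .of_forall fun _ => hs a h1, .of_forall fun _ => h.ls⟩, fun a ha c x hx => ?_,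
      fun v hv h1 x hx y hy => ?_⟩
    · cases h1 : ev E (r a) c (x.map r) with
      | none => exact Or.inl (.of_forall fun _ => rfl)
      | some y =>
        obtain ⟨z, h2, rfl⟩ := unmap hr (ev_in h1) (hc a ha c x y hx h1)
        exact Or.inr ⟨z, h2, .of_forall fun _ => rfl⟩
    · have h2 : r v = p v := hv.lt_or_eq.elim (he v) fun e => by subst e; exact ht h1
      simp [pull, h2, he x (hx.trans_le hv), he y (hy.trans_le hv)]
  exact ⟨LosPmSt.pm0 L hb (.of_forall fun _ => h), fun a ha c x hx =>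
    eventually_top.1 (L.los a ha c x hx) PUnit.unit,
    fun h1 => LosPmSt.pm L hb (.of_forall fun _ => h1)⟩

theorem weak (hp : StrictMono p) (hd : ¬ Suc d) (h : PM0 E d') (hm : ∀ a < d, p a < d')
    (hs : ∀ a < d, p (a + 1) = p a + 1)
    (hc : ∀ a < d, ∀ c x y, In a x → ev E (p a) c (x.map p) = some y → y.lv ⊆ Set.range p) :
    PM0 (pull p E) d ∧ Weak (pull p E) d E d' p ∧ (PM E d' → PM (pull p E) d) := by
  have hb := bdd hp h hm fun a ha => hs a ((lt_add_one a).trans ha)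
  have key := fun a (ha : a < d) => core (d := a) hp (fun _ _ => rfl) (fun _ => rfl)
    (KE.pm0_mono h (hm a ha).le)
    (fun c h1 => hs c ((Order.add_one_le_iff.1 h1).trans ha)) (fun v hv => hb v (hv.trans ha))
    fun c h1 => hc c (h1.trans_lt ha)
  have s1 := fun a (ha : a < d) => not_suc_iff.1 hd a ha
  have p0 : PM0 (pull p E) d := ⟨fun a ha => (key _ (s1 a ha)).1.ls a (lt_add_one a),
    fun a ha => (key _ (s1 a ha)).1.act a (lt_add_one a)⟩
  exact ⟨p0, ⟨hp.strictMonoOn _, hm, fun c e => absurd ⟨c, e⟩ hd,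
    fun a ha => (key a ha).2.1 a le_rfl⟩, fun h1 => ⟨p0, fun a ha =>
      ((key _ (s1 a ha)).2.2 (KE.pm_mono h1 (hm _ (s1 a ha)).le)).small a (lt_add_one a)⟩⟩

omit [LosSt.{u}] [LosPmSt.{u}] in
/-- A closed range is closed under successors. -/
theorem suc (hp : StrictMono p) (h : LS E (p b + 1))
    (hc : ∀ c x y, In (b + 1) x → ev E (p b + 1) c (x.map p) = some y → y.lv ⊆ p '' Set.Iic b)
    (ha : a + 1 ≤ b) : p (a + 1) = p a + 1 := by
  have h1 : a < b := Order.add_one_le_iff.1 ha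
  have h2 : p a + 1 < p b + 1 := KE.s1lt (hp h1)
  have i : In (b + 1) (leaf a) := by simpa using h1.le
  have key : ∀ y, In (p b + 1) y → ((ev E (p b + 1) (nilc (postc (.comp .eq (.pair .fst .ss))
      (prec (.pair .fst (.pair (.const (topc : Tr.{u})) .nil)) callc)))
      (node y (leaf (p a)))).isSome ↔
      (call (ev E) (p b + 1) (node y (node topc .nil))).unopt = some (leaf (p a))) := by
    intro y hy
    have i2 : In (p b + 1) (node y (leaf (p a))) := by simp [hy, (hp h1).le]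
    rw [ev_nilc_isSome, ev_postc, ev_prec _ _ i2, ev_callc' (i2.bop _)]
    simp
  obtain ⟨y, hy⟩ := Option.isSome_iff_exists.1 (ev_exs_complete (h _ (lt_add_one _)).1
    ((key (leaf (p a + 1)) (by simpa using h2)).2 (by
      rw [call_leaf h2]; simp [ev_topc (in_nil _)])))
  have h3 := (key y (ev_in hy)).1 (ev_exs_sound hy)
  have h4 := hc _ (leaf a) y i hy
  unfold call at h3
  simp only [fst_node, snd_node] at h3
  split_ifs at h3 with h5
  · rw [unopt_opt] at h3
    obtain ⟨z, -, h6⟩ := h4 (show y.lab ∈ y.lv by rw [h5.1]; simp)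
    rw [ev_topc_eq h3] at h6
    refine le_antisymm (h6 ▸ hp.monotone (Order.add_one_le_iff.2 (hp.lt_iff_lt.1 ?_)))
      (Order.add_one_le_iff.2 (hp (lt_add_one a)))
    rw [h6]; exact lt_add_one _
  · simp at h3

theorem strong (hp : StrictMono p) (h : PM0 E (p b + 1))
    (hc : ∀ c x y, In (b + 1) x → ev E (p b + 1) c (x.map p) = some y → y.lv ⊆ p '' Set.Iic b) :
    PM0 (pull p E) (b + 1) ∧ Strong (pull p E) (b + 1) E (p b + 1) p ∧
      (PM E (p b + 1) → PM (pull p E) (b + 1)) := by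
  obtain ⟨r, he, hr1, hr⟩ : ∃ r : Ordinal.{u} → Ordinal.{u}, (∀ x < b + 1, r x = p x) ∧
      r (b + 1) = p b + 1 ∧ StrictMono r := by
    refine ⟨fun x => if x = b + 1 then p b + 1 else p x, fun x hx => if_neg hx.ne, if_pos rfl,
      fun x y hxy => ?_⟩
    dsimp only
    split_ifs with h1 h2 h2
    · exact absurd (h1.trans h2.symm) hxy.ne
    · exact (Order.add_one_le_iff.2 (hp (lt_add_one b))).trans_lt (hp (h1 ▸ hxy))
    · exact KE.lt1 (hp.monotone (KE.le1 (h2 ▸ hxy)))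
    · exact hp hxy
  have hm : ∀ a < b + 1, p a < p b + 1 := fun a ha => KE.lt1 (hp.monotone (KE.le1 ha))
  have hx : ∀ {x : Tr.{u}}, In (b + 1) x → x.map r = x.map p := fun i =>
    map_congr fun a ha => he a (i a ha)
  have hc' : ∀ c x y, In (b + 1) x → ev E (p b + 1) c (x.map p) = some y →
      y.lv ⊆ Set.range r := fun c x y i e z hz =>
    let ⟨w, h1, h2⟩ := hc c x y i e hz; ⟨w, (he w (KE.lt1 h1)).trans h2⟩
  obtain ⟨h1, h2, h3⟩ := core (d := b + 1) hr he (fun e => absurd (suc_succ b) e) (hr1 ▸ h)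
    (fun a ha => by
      rcases (KE.s1le ha).eq_or_lt with rfl | h1
      · rw [hr1, he a (lt_add_one a)]
      · rw [he _ (KE.s1lt h1), he _ (h1.trans (lt_add_one b))]
        exact suc hp h.ls hc (Order.add_one_le_iff.2 h1))
    (bdd hp h hm fun a ha => suc hp h.ls hc (KE.le1 ha)) fun a ha c x y i e => by
      rw [hx (i.mono ha)] at e
      rcases ha.eq_or_lt with rfl | ha
      · exact hc' c x y i (hr1 ▸ e)
      · refine hc' callc (node (leaf a) (node c.erase x)) y (by simp [ha, i.mono ha.le]) ?_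
        rw [map_node, map_node, map_leaf, map_erase, ev_callc (hm a ha) _ (in_erase _ _),
          ev_erase, ← he a ha, e]
  refine ⟨h1, ⟨⟨hp.strictMonoOn _, hm, fun c e => by rw [KE.s1inj e], fun a ha => ?_⟩, ?_⟩,
    fun h4 => h3 (hr1 ▸ h4)⟩
  · exact he a ha ▸ KN.comm_congr (h2 a ha.le) fun x hx => he x (hx.trans ha)
  · exact hr1 ▸ KN.comm_congr (h2 _ le_rfl) he

end Cond

instance [LosSt.{u}] [LosPmSt.{u}] : CondSt.{u} := ⟨Cond.strong, Cond.weak⟩

end Pool.Agent.KM
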