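import Pool.Agent.Lib.MP_5c0be7_lc.L.StLos
import Pool.Agent.Lib.MP_5c0be7_lc.O.F3c
import Pool.Agent.Lib.MP_5c0be7_lc.F.ActI

/-!
Project KM, block F5: the image of the critical point is regular.
-/

namespace Pool.Agent.KM

open Ordinal Tr
open scoped Classical

universe u

namespace CritReg

open F3

variable {E : Seq.{u}} {v k t a : Ordinal.{u}} {e : Ordinal.{u} → Ordinal.{u}} {f : Tr.{u}}

/-- A function computed at an active level has a name below the level. -/
theorem low_name (l : LS E v) (h : Act E v k t e) (ha : a < v) (hf : In (v + 1) f) :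
    ∃ f', In v f' ∧ ∀ w, In a w → fv E f' w = fv E f w := by
  rcases fv_cases (E := E) hf with h0 | ⟨g, hg, c, z, hz, h0⟩
  · exact ⟨nil, in_nil _, fun w _ => by rw [h0]; simp [fv]⟩
  rcases (KE.le1 hg).lt_or_eq with hg | rfl
  · exact ⟨node (leaf g) (node c.erase z), by simp [hg, hz.mono hg.le],
      fun w _ => by rw [h0]; simp [fv]⟩
  have hb := act_lim h
  have lim := limit_of_not_suc hb ha.ne_bot
  have h3 : max a z.ht < g := max_lt ha (hz.ht_lt lim)
  obtain ⟨n, hn, h4⟩ := amen l h h3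
  have h5 : max (max a z.ht) n.ht < g := max_lt h3 (hn.ht_lt lim)
  have h6 := le_max_left (max a z.ht) n.ht
  have hn1 := (in_ht n).mono (le_max_right (max a z.ht) n.ht)
  have hz1 := (in_ht z).mono (le_max_right a z.ht)
  have hz2 := hz1.mono h6
  obtain ⟨f', h7, h8⟩ := (cf_ev (E := E) (g := fun q => node n (node q z))
    ((le_max_left a z.ht).trans h6) (by fun_prop (disch := assumption)) (trc c)).fv h5
  refine ⟨f', h7, fun w hw => ?_⟩
  rw [h8 w hw, h0, trc, tr_spec' hb h6 h3.le hn1 h4 _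
    (by simp [hz1, hw.mono (le_max_left _ _)]), ev_decC_code]

/-- The values below `K` of `f` on the stratum `a` are bounded below `K`. -/
def Bnd (E : Seq.{u}) (f : Tr.{u}) (a K : Ordinal.{u}) : Prop :=
  ∃ x < K, ∀ w, In a w → ∀ y < K, fv E f w = some (leaf y) → y < x

theorem df_bnd {f : TF.{u}} {a K : OF.{u}} (hf : Fn f) (ha : On a) (hK : On K) :
    Df fun E b z => Bnd E (f E b z) (a E b z) (K E b z) :=
  Df.oex (Q := fun E b x z => ∀ w, In (a E b z) w → ∀ y < K E b z,
      fv E (f E b z) w = some (leaf y) → y < x) hK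
    (Df.ball (P := fun E b w z => ∀ y < K E b z.snd,
      fv E (f E b z.snd) w = some (leaf y) → y < z.fst.lab) (ha.pre IsOp.id.snd)
      (Df.oall (Q := fun E b y z => fv E (f E b z.snd.snd) z.fst = some (leaf y) →
        y < z.snd.fst.lab) (hK.pre IsOp.id.snd.snd)
        ((Df.fv_leaf (hf.pre IsOp.id.snd.snd.snd) Fn.id.snd.fst (On.lab IsOp.id.fst)).imp
          (Df.olt (On.lab IsOp.id.fst) (On.lab IsOp.id.snd.snd.fst)))))

theorem df_all : Df.{u} fun E b z => ∀ f, In b f → ∀ a < z.lab, Bnd E f a z.lab :=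
  Df.all' (P := fun E _ f z => ∀ a < z.lab, Bnd E f a z.lab)
    (Df.oall (Q := fun E _ a z => Bnd E z.fst a z.snd.lab) (On.lab IsOp.id.snd)
      (df_bnd Fn.id.snd.fst (On.lab IsOp.id.fst) (On.lab IsOp.id.snd.snd)))

/-- The critical point is regular. -/
theorem crit (l : LS E v) (h : Act E v k t e) {B : Ordinal.{u}} (hB : B < t) (hk : k < B)
    (ha : a < k) (hf : In B f) : Bnd E f a k := by
  by_contra hc
  have h1 := (ActF.df l h (df_bnd Fn.id.fst (On.lab IsOp.id.snd.fst) (On.lab IsOp.id.snd.snd)) hB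
    (z := node f (node (leaf a) (leaf k))) (by simp [hf, hk, ha.trans hk])).not.2 hc
  simp only [map_node, map_leaf, fst_node, snd_node, lab_leaf, h.fix a ha] at h1
  refine h1 ⟨k, h.move, fun w hw y hy h2 => ?_⟩
  have h3 := KN.wfv h.weak (hf.mono hB.le) (hw.mono (ha.trans h.lt).le)
  rw [map_eq_self fun x hx => h.fix x ((hw x hx).trans ha), h2] at h3
  obtain ⟨y', h4, h5⟩ := Option.map_eq_some_iff.1 h3.symm
  obtain ⟨y0, rfl, rfl⟩ := map_eq_leaf.1 h5
  have h6 : y0 < t := by
    rcases fv_cases (E := E) hf with h0 | ⟨g, hg, c, z, -, h0⟩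
    · simp [h0] at h4
    · exact ((in_leaf _ _).1 (ev_in (h0 w ▸ h4))).trans (hg.trans hB)
  have h7 : y0 < k := (KE.w_lt h.weak h6 h.lt).1 hy
  rwa [h.fix y0 h7]

theorem reg (l : LS E v) (h : Act E v k t e) (ha : a < e k) (hf : In (v + 1) f) :
    ∃ x < e k, ∀ w y, In a w → fv E f w = some (leaf y) → y < e k → y < x := by
  have hk := h.weak.maps k h.lt
  obtain ⟨f', h1, h2⟩ := low_name l h (ha.trans hk) hf
  obtain ⟨B, b1, b2, b3, -⟩ := ActF.cof2 l h (h1.ht_lt (limit_of_not_suc (act_lim h) hk.ne_bot))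
  obtain ⟨x, h3, h4⟩ := (ActF.df l h df_all b1 (z := leaf k) (by simpa using b2)).2
    (fun f hf a ha => crit l h b1 b2 ha hf) f' ((in_ht f').mono b3.le) a ha
  exact ⟨x, h3, fun w y hw h5 hy => h4 w hw y hy ((h2 w hw).trans h5)⟩

end CritReg

instance : CritRegSt.{u} := ⟨CritReg.reg⟩

end Pool.Agent.KM
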