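import Pool.Agent.Lib.MP_5c0be7_lc.L.St
import Pool.Agent.Lib.MP_5c0be7_lc.O.Api

/-!
Project KM, block F4: hulls are closed.
-/

namespace Pool.Agent.KM

open Ordinal Tr

universe u

namespace HullP

variable {E : Seq.{u}} {d a : Ordinal.{u}} {X : Set Ordinal.{u}}

theorem sub (ha : a ∈ X) (hd : a < d) : InHull E d X a :=
  ⟨opc .id, leaf a, by simpa using ha, ev_opc .id (by simpa using hd)⟩

theorem lt (h : InHull E d X a) : a < d := by
  obtain ⟨c, x, -, h⟩ := h
  simpa using ev_in h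

theorem pick {w : Tr.{u}} (h : a ∈ w.lv) : ∃ o : Op, bop o w = leaf a := by
  induction w with
  | nil => simp at h
  | leaf i => exact ⟨.id, by rw [show a = i from h]; rfl⟩
  | node l r ihl ihr =>
    rcases h with h | h
    · obtain ⟨o, ho⟩ := ihl h
      exact ⟨.comp o .fst, ho⟩
    · obtain ⟨o, ho⟩ := ihr h
      exact ⟨.comp o .snd, ho⟩

theorem tree {w : Tr.{u}} :
    w.lv ⊆ {y | InHull E d X y} ↔ ∃ c x, x.lv ⊆ X ∧ ev E d c x = some w := by
  constructor
  · intro h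
    induction w with
    | nil => exact ⟨opc .id, .nil, by simp, ev_opc .id (by simp)⟩
    | leaf i => exact h (show i ∈ (leaf i).lv from rfl)
    | node l r ihl ihr =>
      obtain ⟨c1, x1, h1, e1⟩ := ihl (Set.subset_union_left.trans h)
      obtain ⟨c2, x2, h2, e2⟩ := ihr (Set.subset_union_right.trans h)
      have hi : In d (node x1 x2) := by simp [in_of_ev_eq e1, in_of_ev_eq e2]
      exact ⟨pairc (prec .fst c1) (prec .snd c2), node x1 x2, Set.union_subset h1 h2,
        ev_pairc_some ((ev_prec _ _ hi).trans e1) ((ev_prec _ _ hi).trans e2)⟩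
  · rintro ⟨c, x, hx, e⟩ a ha
    obtain ⟨o, ho⟩ := pick ha
    refine ⟨postc (.comp o .fst) c, x, hx, ?_⟩
    rw [ev_postc, e, ← ho]
    rfl

theorem closed (h : InHull E d {y | InHull E d X y} a) : InHull E d X a := by
  obtain ⟨c, x, hx, e⟩ := h
  obtain ⟨c', x', hx', e'⟩ := tree.1 hx
  refine ⟨cmp .fst c c', x', hx', ?_⟩
  rw [ev_cmp, e']
  exact e

theorem enum {b : Ordinal.{u}} {Z : Set Ordinal.{u}} (hZ : Z ⊆ Set.Iic b)
    (hc : ∀ y, InHull E (b + 1) Z y → y ∈ Z) :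
    ∃ (p : Ordinal.{u} → Ordinal.{u}) (b0 : Ordinal.{u}),
      StrictMono p ∧ p b0 = b ∧ p '' Set.Iic b0 = Z ∧
      ∀ c x y, In (b0 + 1) x → ev E (b + 1) c (x.map p) = some y → y.lv ⊆ p '' Set.Iic b0 := by
  have hu : ¬ BddAbove (Z ∪ Set.Ioi b) := fun h => not_bddAbove_Ioi b (h.mono Set.subset_union_right)
  have hm := enumOrd_strictMono hu
  have hb : b ∈ Z := hc b ⟨topc, .nil, by simp, ev_topc (by simp)⟩
  obtain ⟨b0, h0⟩ := enumOrd_surjective hu (Or.inl hb)
  have him : enumOrd (Z ∪ Set.Ioi b) '' Set.Iic b0 = Z := by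
    ext z
    constructor
    · rintro ⟨x, hx, rfl⟩
      exact (enumOrd_mem hu x).resolve_right (not_lt.2 (le_of_le_of_eq (hm.monotone hx) h0))
    · intro hz
      obtain ⟨x, rfl⟩ := enumOrd_surjective hu (Or.inl hz)
      exact ⟨x, hm.le_iff_le.1 (le_of_le_of_eq (hZ hz) h0.symm), rfl⟩
  refine ⟨_, b0, hm, h0, him, fun c x y hx e a ha => ?_⟩
  rw [him]
  refine hc a (tree.2 ⟨c, _, ?_, e⟩ ha)
  rw [lv_map]
  exact (Set.image_mono fun i hi => Order.lt_add_one_iff.1 (hx i hi)).trans him.le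

end HullP

instance : HullSt.{u} := ⟨HullP.sub, HullP.lt, HullP.tree, HullP.closed, HullP.enum⟩

end Pool.Agent.KM
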