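import Pool.Agent.Lib.MP_5c0be7_lc.L.Rank
import Pool.Agent.Lib.MP_5c0be7_lc.O.Api

/-!
Project KM, block F5: existence of direct limits.
-/

namespace Pool.Agent.KM

open Ordinal Tr Filter
open scoped Classical

universe u

namespace LimP

theorem smono {I : Type (u + 1)} {F : Filter I} {N : I → Seq.{u}}
    {r : I → Ordinal.{u} → Ordinal.{u}} {d : Ordinal.{u}} (h : Sys F N r d) {x : Tr.{u}}
    (hx : In d x) : ∀ᶠ i in F, StrictMonoOn (r i) x.lv := by
  have : ∀ᶠ i in F, ∀ a ∈ x.lv, ∀ a' ∈ x.lv, a < a' → r i a < r i a' := by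
    refine (eventually_all_finite (lv_finite x)).2 fun a _ =>
      (eventually_all_finite (lv_finite x)).2 fun a' ha' => ?_
    by_cases hl : a < a'
    · exact (h.mono a a' hl (hx a' ha').le).mono fun _ h1 _ => h1
    · exact Eventually.of_forall fun _ h1 => absurd h1 hl
  exact this.mono fun i hi a ha a' ha' => hi a ha a' ha'

theorem oinj {I : Type (u + 1)} {F : Filter I} {N : I → Seq.{u}}
    {r : I → Ordinal.{u} → Ordinal.{u}} {d : Ordinal.{u}} (h : Sys F N r d)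
    {o o' : Option Tr.{u}} (ho : ∀ v, o = some v → In d v) (ho' : ∀ v, o' = some v → In d v)
    (he : ∀ᶠ i in F, o.map (Tr.map (r i)) = o'.map (Tr.map (r i))) : o = o' := by
  have := h.ne
  cases o with
  | none =>
    obtain ⟨i, hi⟩ := he.exists
    cases o' <;> simp_all
  | some v =>
    cases o' with
    | none => obtain ⟨i, hi⟩ := he.exists; simp at hi
    | some v' =>
      obtain ⟨i, h1, h2⟩ := (he.and (smono h (x := node v v') (by simp [ho, ho']))).exists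
      exact congrArg some ((map_inj h2.injOn).1 (Option.some.inj h1))

variable {J : Type (u + 1)} {le : J → J → Prop} {E : J → Seq.{u}} {b : J → Ordinal.{u}}
  {p : J → J → Ordinal.{u} → Ordinal.{u}}

/-- The filter of tails. -/
def fil (H : Dir le E b p) : Filter J where
  sets := {S | ∃ j0, ∀ j, le j0 j → j ∈ S}
  univ_sets := let ⟨j⟩ := H.ne; ⟨j, fun _ _ => trivial⟩
  sets_of_superset := fun ⟨j, h⟩ hs => ⟨j, fun l hl => hs (h l hl)⟩
  inter_sets := fun ⟨i, hi⟩ ⟨j, hj⟩ =>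
    let ⟨l, h1, h2⟩ := H.dir i j
    ⟨l, fun l' hl => ⟨hi l' (H.trans _ _ _ h1 hl), hj l' (H.trans _ _ _ h2 hl)⟩⟩

/-- Points of the system. -/
abbrev Pt (b : J → Ordinal.{u}) : Type (u + 1) := Σ j : J, Set.Iic (b j)

variable (H : Dir le E b p)
include H

theorem tail (j : J) : ∀ᶠ l in fil H, le j l := ⟨j, fun _ h => h⟩

theorem fil_ne : (fil H).NeBot := by
  refine forall_mem_nonempty_iff_neBot.1 fun S ⟨j, hj⟩ => ?_
  obtain ⟨l, hl, -⟩ := H.dir j j
  exact ⟨l, hj l hl⟩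

theorem ple {i j : J} (h : le i j) {x : Ordinal.{u}} (hx : x ≤ b i) : p i j x ≤ b j :=
  Order.lt_add_one_iff.1 ((H.str i j h).maps x (Order.lt_add_one_iff.2 hx))

theorem ptop {i j : J} (h : le i j) : p i j (b i) = b j :=
  (Order.succ_injective ((H.str i j h).top _ rfl : Order.succ (b j) = Order.succ _)).symm

theorem plt {i j : J} (h : le i j) {x y : Ordinal.{u}} (hx : x ≤ b i) (hy : y ≤ b i) :
    p i j x < p i j y ↔ x < y :=
  (H.str i j h).mono.lt_iff_lt (Order.lt_add_one_iff.2 hx) (Order.lt_add_one_iff.2 hy)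

theorem psuc {i j : J} (h : le i j) {x : Ordinal.{u}} (hx : x + 1 ≤ b i) :
    p i j (x + 1) = p i j x + 1 := by
  have h1 := (H.str i j h).comm (x + 1) (Order.lt_add_one_iff.2 hx) topc .nil (by simp)
  rw [ev_topc (by simp)] at h1
  exact ev_topc_eq h1

/-- The order of the points. -/
def lt (s t : Pt b) : Prop := ∀ᶠ l in fil H, p s.1 l s.2 < p t.1 l t.2

theorem lt_iff {s t : Pt b} {l : J} (hs : le s.1 l) (ht : le t.1 l) :
    lt H s t ↔ p s.1 l s.2 < p t.1 l t.2 := by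
  have key : ∀ᶠ l' in fil H, (p s.1 l' s.2 < p t.1 l' t.2 ↔ p s.1 l s.2 < p t.1 l t.2) :=
    (tail H l).mono fun l' hl => by
      rw [← H.comm _ _ _ hs hl _ s.2.2, ← H.comm _ _ _ ht hl _ t.2.2,
        plt H hl (ple H hs s.2.2) (ple H ht t.2.2)]
  have := fil_ne H
  exact ⟨fun h => let ⟨_, h1, h2⟩ := (h.and key).exists; h2.1 h1,
    fun h => key.mono fun _ h1 => h1.2 h⟩

theorem cotr (s t w : Pt b) (h : lt H s t) : lt H s w ∨ lt H w t := by
  have := fil_ne H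
  obtain ⟨l, h1, h2, h3⟩ := ((tail H s.1).and ((tail H t.1).and (tail H w.1))).exists
  rw [lt_iff H h1 h2] at h
  rw [lt_iff H h1 h3, lt_iff H h3 h2]
  exact (lt_or_ge _ _).imp id fun h4 => h4.trans_lt h

theorem wf (hw : ¬ ∃ (s : ℕ → J) (x : ℕ → Ordinal.{u}), ∀ n, le (s n) (s (n + 1)) ∧
    x n ≤ b (s n) ∧ x (n + 1) < p (s n) (s (n + 1)) (x n)) : WellFounded (lt H) := by
  refine wellFounded_iff_isEmpty_descending_chain.2 ⟨fun ⟨f, hf⟩ => hw ?_⟩
  choose g hg1 hg2 using H.dir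
  let s : ℕ → J := fun n => Nat.rec (g (f 0).1 (f 0).1) (fun n j => g j (f (n + 1)).1) n
  have h1 : ∀ n, le (f n).1 (s n) := fun n => by
    cases n with
    | zero => exact hg1 _ _
    | succ n => exact hg2 _ _
  have h2 : ∀ n, le (s n) (s (n + 1)) := fun n => hg1 _ _
  refine ⟨s, fun n => p (f n).1 (s n) (f n).2, fun n => ⟨h2 n, ple H (h1 n) (f n).2.2, ?_⟩⟩
  rw [H.comm _ _ _ (h1 n) (h2 n) _ (f n).2.2]
  exact (lt_iff H (h1 (n + 1)) (H.trans _ _ _ (h1 n) (h2 n))).1 (hf n)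

/-- The ordinals of the limit. -/
structure Pre (b1 : Ordinal.{u}) (m r : J → Ordinal.{u} → Ordinal.{u}) : Prop where
  lt : ∀ i j l x y, le i l → le j l → x ≤ b i → y ≤ b j → (m i x < m j y ↔ p i l x < p j l y)
  top : ∀ j, m j (b j) = b1
  onto : ∀ y ≤ b1, ∃ j, ∃ x ≤ b j, m j x = y
  val : ∀ j, ∀ x ≤ b j, ∀ᶠ l in fil H, r l (m j x) = p j l x
  rtop : ∀ l, r l (b1 + 1) = b l + 1

theorem pre [_root_.Small.{u} J]
    (hw : ¬ ∃ (s : ℕ → J) (x : ℕ → Ordinal.{u}), ∀ n, le (s n) (s (n + 1)) ∧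
      x n ≤ b (s n) ∧ x (n + 1) < p (s n) (s (n + 1)) (x n)) : ∃ b1 m r, Pre H b1 m r := by
  obtain ⟨d, rk, h1, h2, h3⟩ := RankSt.rank (lt H) (wf H hw) (cotr H)
  obtain ⟨j0⟩ := H.ne
  let s0 : Pt b := ⟨j0, b j0, Set.mem_Iic.2 le_rfl⟩
  have := fil_ne H
  have heq : ∀ (s t : Pt b) l, le s.1 l → le t.1 l → (rk s = rk t ↔ p s.1 l s.2 = p t.1 l t.2) :=
    fun s t l hs ht => by
      rw [le_antisymm_iff, le_antisymm_iff, ← not_lt, ← not_lt, ← not_lt, ← not_lt, h3, h3,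
        lt_iff H hs ht, lt_iff H ht hs]
  have h4 : ∀ y, ∃ s : Pt b, y ≤ rk s0 → rk s = y := fun y => by
    by_cases hy : y ≤ rk s0
    · obtain ⟨s, hs⟩ := h2 y (hy.trans_lt (h1 _))
      exact ⟨s, fun _ => hs⟩
    · exact ⟨s0, fun h => absurd h hy⟩
  choose sel hsel using h4
  have h5 : ∀ s, rk s ≤ rk s0 := fun s => by
    obtain ⟨l, hs, hl⟩ := H.dir s.1 j0
    rw [← not_lt, h3, lt_iff H hl hs, not_lt]
    exact (ple H hs s.2.2).trans (ptop H hl).ge
  refine ⟨rk s0, fun j x => if h : x ≤ b j then rk ⟨j, x, h⟩ else 0,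
    fun l y => if y ≤ rk s0 then p (sel y).1 l (sel y).2 else b l + 1,
    fun i j l x y hi hj hx hy => ?_, fun j => ?_, fun y hy => ?_, fun j x hx => ?_, fun l => ?_⟩
  · rw [dif_pos hx, dif_pos hy, h3, lt_iff H hi hj]
  · obtain ⟨l, hj, hl⟩ := H.dir j j0
    rw [dif_pos le_rfl, heq _ _ l hj hl]
    exact (ptop H hj).trans (ptop H hl).symm
  · exact ⟨(sel y).1, (sel y).2, (sel y).2.2, (dif_pos (sel y).2.2).trans (hsel y hy)⟩
  · rw [dif_pos hx]
    refine ((tail H j).and (tail H (sel (rk ⟨j, x, hx⟩)).1)).mono fun l hl => ?_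
    rw [if_pos (h5 _)]
    exact (heq _ ⟨j, x, hx⟩ l hl.2 hl.1).1 (hsel _ (h5 _))
  · exact if_neg (not_le.2 (lt_add_one _))

variable {H} {b1 : Ordinal.{u}} {m r : J → Ordinal.{u} → Ordinal.{u}} (K : Pre H b1 m r)
include K

theorem Pre.mlt {j : J} {x y : Ordinal.{u}} (hx : x ≤ b j) (hy : y ≤ b j) :
    m j x < m j y ↔ x < y := by
  obtain ⟨l, hl, -⟩ := H.dir j j
  rw [K.lt j j l x y hl hl hx hy, plt H hl hx hy]

theorem Pre.mle {j : J} {x : Ordinal.{u}} (hx : x ≤ b j) : m j x ≤ b1 := by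
  rw [← K.top j, ← not_lt, K.mlt le_rfl hx, not_lt]
  exact hx

theorem Pre.comm {i j : J} (h : le i j) {x : Ordinal.{u}} (hx : x ≤ b i) :
    m j (p i j x) = m i x := by
  obtain ⟨l, hl, -⟩ := H.dir j j
  have h1 := H.trans _ _ _ h hl
  rw [le_antisymm_iff, ← not_lt, ← not_lt, K.lt i j l _ _ h1 hl hx (ple H h hx),
    K.lt j i l _ _ hl h1 (ple H h hx) hx, H.comm _ _ _ h hl _ hx]
  exact ⟨lt_irrefl _, lt_irrefl _⟩

theorem Pre.tree {x : Tr.{u}} (hx : In (b1 + 1) x) :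
    ∀ᶠ j in fil H, ∃ x0, In (b j + 1) x0 ∧ x0.map (m j) = x := by
  induction x with
  | nil => exact Eventually.of_forall fun _ => ⟨.nil, by simp, rfl⟩
  | leaf y =>
    obtain ⟨i, a, ha, rfl⟩ := K.onto y (Order.lt_add_one_iff.1 (by simpa using hx))
    exact (tail H i).mono fun j hj => ⟨leaf (p i j a),
      by simpa using Order.lt_add_one_iff.2 (ple H hj ha), by rw [map_leaf, K.comm hj ha]⟩
  | node l r ihl ihr =>
    exact ((ihl hx.fst).and (ihr hx.snd)).mono fun j ⟨⟨l0, h1, h2⟩, r0, h3, h4⟩ =>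
      ⟨node l0 r0, by simp [h1, h3], by simp [h2, h4]⟩

theorem Pre.vals {j : J} {x : Tr.{u}} (hx : In (b j + 1) x) :
    ∀ᶠ l in fil H, (x.map (m j)).map (r l) = x.map (p j l) := by
  refine ((eventually_all_finite (lv_finite x)).2 fun a ha =>
    K.val j a (Order.lt_add_one_iff.1 (hx a ha))).mono fun l hl => ?_
  rw [Tr.map_map]
  exact map_congr hl

theorem Pre.sys : Sys (fil H) E r (b1 + 1) := by
  have := fil_ne H
  refine ⟨this, fun a a' h ha' => ?_, fun a ha => ?_,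
    Eventually.of_forall fun l => K.rtop l ▸ (H.pm l).ls⟩
  · obtain ⟨i, x, hx, rfl⟩ := K.onto a (Order.lt_add_one_iff.1 (h.trans_le ha'))
    rcases ha'.lt_or_eq with h1 | rfl
    · obtain ⟨j, y, hy, rfl⟩ := K.onto a' (Order.lt_add_one_iff.1 h1)
      filter_upwards [tail H i, tail H j, K.val i x hx, K.val j y hy] with l h2 h3 h4 h5
      rw [h4, h5]
      exact (K.lt i j l x y h2 h3 hx hy).1 h
    · filter_upwards [tail H i, K.val i x hx] with l h2 h4
      rw [h4, K.rtop]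
      exact Order.lt_add_one_iff.2 (ple H h2 hx)
  · rcases ha.lt_or_eq with h1 | h1
    · have h2 : a + 1 ≤ b1 := Order.lt_add_one_iff.1 h1
      obtain ⟨j, x0, h3, h4⟩ := (K.tree (x := node (leaf a) (leaf (a + 1)))
        (by simp [h2, (lt_add_one a).le.trans h2])).exists
      obtain ⟨x, e1, rfl⟩ := map_eq_leaf.1 ((map_fst _ _).symm.trans (congrArg Tr.fst h4))
      obtain ⟨y, e2, h5⟩ := map_eq_leaf.1 ((map_snd _ _).symm.trans (congrArg Tr.snd h4))
      have hx : x ≤ b j := Order.lt_add_one_iff.1 (by simpa [e1] using h3.fst)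
      have hy : y ≤ b j := Order.lt_add_one_iff.1 (by simpa [e2] using h3.snd)
      have h6 : x + 1 ≤ y := Order.add_one_le_iff.2 ((K.mlt hx hy).1 (h5 ▸ lt_add_one _))
      have h7 : m j (x + 1) = m j x + 1 := le_antisymm
        (h5 ▸ not_lt.1 fun h => absurd ((K.mlt hy (h6.trans hy)).1 h) (not_lt.2 h6))
        (Order.add_one_le_iff.2 ((K.mlt hx (h6.trans hy)).2 (lt_add_one x)))
      filter_upwards [tail H j, K.val j x hx, K.val j (x + 1) (h6.trans hy)] with l h8 h9 h10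
      rw [← h7, h9, h10, psuc H h8 (h6.trans hy)]
    · obtain rfl : a = b1 := Order.succ_injective (h1 : Order.succ a = Order.succ b1)
      obtain ⟨j⟩ := H.ne
      filter_upwards [tail H j, K.val j (b j) le_rfl] with l h2 h3
      rw [K.top] at h3
      rw [K.rtop, h3, ptop H h2]

/-- Level `a0` of the `j`-th model corresponds to level `a` of the limit. -/
def Cor (b : J → Ordinal.{u}) (b1 : Ordinal.{u}) (m : J → Ordinal.{u} → Ordinal.{u}) (j : J)
    (a0 a : Ordinal.{u}) : Prop := (a0 ≤ b j ∧ a = m j a0) ∨ (a0 = b j + 1 ∧ a = b1 + 1)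

theorem Pre.inm {j : J} {a0 a : Ordinal.{u}} (h : Cor b b1 m j a0 a) {x : Tr.{u}}
    (hx : In (b j + 1) x) : In a (x.map (m j)) ↔ In a0 x := by
  simp only [In, lv_map, Set.forall_mem_image]
  refine forall₂_congr fun y hy => ?_
  have h1 := Order.lt_add_one_iff.1 (hx y hy)
  rcases h with ⟨h2, rfl⟩ | ⟨rfl, rfl⟩
  · exact K.mlt h1 h2
  · exact iff_of_true (Order.lt_add_one_iff.2 (K.mle h1)) (hx y hy)

theorem Pre.core {j : J} {a0 a : Ordinal.{u}} (h : Cor b b1 m j a0 a) (c : Tr.{u}) {x : Tr.{u}}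
    (hx : In a0 x) : ∀ᶠ l in fil H, ev (E l) (r l a) c ((x.map (m j)).map (r l)) =
      ((ev (E j) a0 c x).map (Tr.map (m j))).map (Tr.map (r l)) := by
  have ha : a0 ≤ b j + 1 := h.elim (fun h => h.1.trans le_self_add) fun h => h.1.le
  have h1 : ∀ᶠ l in fil H, Comm (E j) a0 (E l) (r l a) (p j l) := by
    rcases h with ⟨h2, rfl⟩ | ⟨rfl, rfl⟩
    · filter_upwards [tail H j, K.val j a0 h2] with l h3 h4
      rw [h4]
      exact (H.str j l h3).comm a0 (Order.lt_add_one_iff.2 h2)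
    · filter_upwards [tail H j] with l h3
      rw [K.rtop]
      exact (H.str j l h3).commTop
  cases h2 : ev (E j) a0 c x with
  | none =>
    filter_upwards [h1, K.vals (hx.mono ha)] with l h3 h4
    rw [h4, h3 c x hx, h2]
    rfl
  | some y =>
    filter_upwards [h1, K.vals (hx.mono ha), K.vals ((ev_in h2).mono ha)] with l h3 h4 h5
    rw [h4, h3 c x hx, h2, Option.map_some, Option.map_some, Option.map_some, h5]

theorem Pre.prelos : PreLos (fil H) E r (b1 + 1) (lseq (fil H) E r (b1 + 1)) := by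
  have := fil_ne H
  refine ⟨K.sys, fun a ha c x hx => ?_,
    fun v hv hs x hx y hy => ⟨fun h => h.2.2.2.2, fun h => ⟨hv, hs, hx, hy, h⟩⟩⟩
  have h1 : ∃ j a0 x0, Cor b b1 m j a0 a ∧ In (b j + 1) x0 ∧ x0.map (m j) = x := by
    rcases ha.lt_or_eq with h1 | rfl
    · obtain ⟨j, x0, h3, h4⟩ := (K.tree (x := node (leaf a) x) (by simp [h1, hx.mono ha])).exists
      obtain ⟨a0, e1, rfl⟩ := map_eq_leaf.1 ((map_fst _ _).symm.trans (congrArg Tr.fst h4))
      exact ⟨j, a0, x0.snd, Or.inl ⟨Order.lt_add_one_iff.1 (by simpa [e1] using h3.fst), rfl⟩,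
        h3.snd, (map_snd _ _).symm.trans (congrArg Tr.snd h4)⟩
    · obtain ⟨j, x0, h3, h4⟩ := (K.tree hx).exists
      exact ⟨j, _, x0, Or.inr ⟨rfl, rfl⟩, h3, h4⟩
  obtain ⟨j, a0, x0, h2, h3, rfl⟩ := h1
  have ha0 : a0 ≤ b j + 1 := h2.elim (fun h => h.1.trans le_self_add) fun h => h.1.le
  have h4 := K.core h2 c ((K.inm h2 h3).1 hx)
  cases h5 : ev (E j) a0 c x0 with
  | none => rw [h5] at h4; exact Or.inl h4
  | some y =>
    rw [h5] at h4
    exact Or.inr ⟨y.map (m j), (K.inm h2 ((ev_in h5).mono ha0)).2 (ev_in h5), h4⟩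

theorem Pre.cm {E1 : Seq.{u}} (L : Los (fil H) E r (b1 + 1) E1) {j : J} {a0 a : Ordinal.{u}}
    (h : Cor b b1 m j a0 a) : Comm (E j) a0 E1 a (m j) := fun c x hx => by
  have ha0 : a0 ≤ b j + 1 := h.elim (fun h => h.1.trans le_self_add) fun h => h.1.le
  have ha : a ≤ b1 + 1 := h.elim (fun h => h.2 ▸ (K.mle h.1).trans le_self_add) fun h => h.2.le
  refine oinj K.sys (fun v hv => (ev_in hv).mono ha) (fun v hv => ?_) ?_
  · obtain ⟨w, hw, rfl⟩ := Option.map_eq_some_iff.1 hv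
    exact (K.inm (Or.inr ⟨rfl, rfl⟩) ((ev_in hw).mono ha0)).2 ((ev_in hw).mono ha0)
  · filter_upwards [L.los a ha c _ ((K.inm h (hx.mono ha0)).2 hx), K.core h c hx] with l h1 h2
    rw [← h1, h2]

end LimP

instance [LosSt.{u}] [LosPmSt.{u}] : LimSt.{u} := ⟨fun {J} _ {le E b p} H hw => by
  obtain ⟨b1, m, r, K⟩ := LimP.pre H hw
  have L := LosSt.los K.prelos
  have hb : Bdd (lseq (LimP.fil H) E r (b1 + 1)) (b1 + 1) :=
    fun _ _ _ _ h => ⟨h.2.2.1, h.2.2.2.1, h.2.1⟩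
  refine ⟨_, b1, m, ⟨LosPmSt.pm0 L hb (Eventually.of_forall fun l => K.rtop l ▸ H.pm l),
    fun j => ⟨⟨fun x hx y hy h => ?_, fun a ha => ?_, fun a ha => ?_, fun a ha => ?_⟩,
      K.cm L (Or.inr ⟨rfl, rfl⟩)⟩, fun i j h x hx => K.comm h hx, K.onto⟩,
    fun h => LosPmSt.pm L hb (Eventually.of_forall fun l => K.rtop l ▸ h l)⟩
  · exact (K.mlt (Order.lt_add_one_iff.1 hx) (Order.lt_add_one_iff.1 hy)).2 h
  · exact Order.lt_add_one_iff.2 (K.mle (Order.lt_add_one_iff.1 ha))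
  · rw [← Order.succ_injective (ha : Order.succ (b j) = Order.succ a), K.top]
  · exact K.cm L (Or.inl ⟨Order.lt_add_one_iff.1 ha, rfl⟩)⟩

end Pool.Agent.KM
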