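import Pool.Agent.Lib.MP_5c0be7_lc.L.St
import Pool.Agent.Lib.MP_5c0be7_lc.K.Nm
import Pool.Agent.Lib.MP_5c0be7_lc.K.EvI

/-!
Project KM, block F5: maps out of a direct limit.
-/

namespace Pool.Agent.KM

open Ordinal Tr

universe u

namespace LimMap

variable {J : Type (u + 1)} {le : J → J → Prop} {E : J → Seq.{u}} {b : J → Ordinal.{u}}
  {p : J → J → Ordinal.{u} → Ordinal.{u}} {E' E2 : Seq.{u}} {b' d2 : Ordinal.{u}}
  {m s : J → Ordinal.{u} → Ordinal.{u}} {g : Ordinal.{u} → Ordinal.{u}}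

theorem top_eq (hL : IsLim le E b E' b' p m) (j : J) : b' = m j (b j) :=
  KE.s1inj ((hL.strong j).top _ rfl)

/-- Every tree of the limit comes from one model of the system. -/
theorem back (hD : Dir le E b p) (hL : IsLim le E b E' b' p m) {y : Tr.{u}}
    (hy : In (b' + 1) y) : ∃ j, ∃ z : Tr.{u}, In (b j + 1) z ∧ z.map (m j) = y := by
  induction y with
  | nil => exact hD.ne.elim fun j => ⟨j, .nil, in_nil _, rfl⟩
  | leaf a =>
    obtain ⟨j, x, h1, h2⟩ := hL.onto a (KE.le1 ((in_leaf _ _).1 hy))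
    exact ⟨j, leaf x, (in_leaf _ _).2 (KE.lt1 h1), by rw [map_leaf, h2]⟩
  | node l r ihl ihr =>
    obtain ⟨i, z, h1, h2⟩ := ihl hy.fst
    obtain ⟨j, w, h3, h4⟩ := ihr hy.snd
    obtain ⟨n, h5, h6⟩ := hD.dir i j
    refine ⟨n, node (z.map (p i n)) (w.map (p j n)), (in_node _ _ _).2
      ⟨KE.w_in (hD.str i n h5).toWeak h1, KE.w_in (hD.str j n h6).toWeak h3⟩, ?_⟩
    rw [map_node, ← h2, ← h4, KN.mm, KN.mm]
    congr 1
    · exact map_congr fun a ha => hL.comm i n h5 a (KE.le1 (h1 a ha))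
    · exact map_congr fun a ha => hL.comm j n h6 a (KE.le1 (h3 a ha))

theorem back_node (hD : Dir le E b p) (hL : IsLim le E b E' b' p m) {a : Ordinal.{u}}
    {y : Tr.{u}} (ha : a < b' + 1) (hy : In (b' + 1) y) :
    ∃ j, ∃ x < b j + 1, ∃ z : Tr.{u}, In (b j + 1) z ∧ m j x = a ∧ z.map (m j) = y := by
  obtain ⟨j, z, h1, h2⟩ := back hD hL (y := node (leaf a) y) (by simp [ha, hy])
  have h3 := congrArg Tr.fst h2
  have h4 := congrArg Tr.snd h2
  rw [map_fst, fst_node, map_eq_leaf] at h3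
  rw [map_snd, snd_node] at h4
  obtain ⟨x, h5, h6⟩ := h3
  exact ⟨j, x, (in_leaf _ _).1 (h5 ▸ h1.fst), z.snd, h1.snd, h6, h4⟩

theorem back_two (hD : Dir le E b p) (hL : IsLim le E b E' b' p m) {a c : Ordinal.{u}}
    (ha : a < b' + 1) (hc : c < b' + 1) :
    ∃ j, ∃ x < b j + 1, ∃ y < b j + 1, m j x = a ∧ m j y = c := by
  obtain ⟨j, x, h1, z, h2, h3, h4⟩ := back_node hD hL (y := leaf c) ha (by simpa using hc)
  obtain ⟨y, h5, h6⟩ := map_eq_leaf.1 h4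
  exact ⟨j, x, h1, y, (in_leaf _ _).1 (h5 ▸ h2), h3, h6⟩

/-- The map induced by a commuting family. -/
theorem exists_map (hD : Dir le E b p) (hL : IsLim le E b E' b' p m)
    (hs : ∀ i j, le i j → ∀ x ≤ b i, s j (p i j x) = s i x) :
    ∃ g : Ordinal.{u} → Ordinal.{u}, ∀ j, ∀ x ≤ b j, g (m j x) = s j x := by
  classical
  choose c x h1 h2 using fun y : {y // y ≤ b'} => hL.onto y.1 y.2
  refine ⟨fun y => if h : y ≤ b' then s (c ⟨y, h⟩) (x ⟨y, h⟩) else 0, fun j z hz => ?_⟩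
  have h : m j z ≤ b' := KE.le1 ((hL.strong j).maps z (KE.lt1 hz))
  beta_reduce
  rw [dif_pos h]
  obtain ⟨l, h3, h4⟩ := hD.dir (c ⟨_, h⟩) j
  have h5 := h1 ⟨_, h⟩
  have h6 : p (c ⟨_, h⟩) l (x ⟨_, h⟩) = p j l z := by
    refine (hL.strong l).mono.injOn ((hD.str _ l h3).maps _ (KE.lt1 h5))
      ((hD.str j l h4).maps _ (KE.lt1 hz)) ?_
    rw [hL.comm _ l h3 _ h5, hL.comm j l h4 z hz, h2]
  rw [← hs _ l h3 _ h5, h6, hs j l h4 z hz]

theorem map_g (hg : ∀ j, ∀ x ≤ b j, g (m j x) = s j x) {j : J} {z : Tr.{u}}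
    (hz : In (b j + 1) z) : (z.map (m j)).map g = z.map (s j) := by
  rw [KN.mm]
  exact map_congr fun a ha => hg j a (KE.le1 (hz a ha))

theorem comm_at (hg : ∀ j, ∀ x ≤ b j, g (m j x) = s j x) {j : J} {a a' a2 : Ordinal.{u}}
    (ha : a ≤ b j + 1) (h : Comm (E j) a E' a' (m j)) (h2 : Comm (E j) a E2 a2 (s j))
    (c : Tr.{u}) {z : Tr.{u}} (hz : In a z) :
    ev E2 a2 c ((z.map (m j)).map g) = (ev E' a' c (z.map (m j))).map (Tr.map g) := by
  rw [map_g hg (hz.mono ha), h c z hz, h2 c z hz]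
  cases hw : ev (E j) a c z with
  | none => rfl
  | some w => exact congrArg some (map_g hg ((ev_in hw).mono ha)).symm

theorem weak (hD : Dir le E b p) (hL : IsLim le E b E' b' p m)
    (hg : ∀ j, ∀ x ≤ b j, g (m j x) = s j x) (hs : ∀ j, Weak (E j) (b j + 1) E2 d2 (s j)) :
    Weak E' (b' + 1) E2 d2 g := by
  refine ⟨fun a ha c hc hac => ?_, fun a ha => ?_, fun a ha => ?_, fun a ha c y hy => ?_⟩
  · obtain ⟨j, x, h1, y, h2, rfl, rfl⟩ := back_two hD hL ha hc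
    rw [hg j x (KE.le1 h1), hg j y (KE.le1 h2)]
    exact (hs j).mono h1 h2 ((KE.w_lt (hL.strong j).toWeak h1 h2).1 hac)
  · obtain ⟨j, x, h1, rfl⟩ := hL.onto a (KE.le1 ha)
    rw [hg j x h1]
    exact (hs j).maps x (KE.lt1 h1)
  · obtain ⟨j⟩ := hD.ne
    rw [← KE.s1inj ha, top_eq hL j, hg j _ le_rfl]
    exact (hs j).top _ rfl
  · obtain ⟨j, x, h1, z, h2, rfl, rfl⟩ := back_node hD hL ha (hy.mono ha.le)
    rw [hg j x (KE.le1 h1)]
    exact comm_at hg h1.le ((hL.strong j).comm x h1) ((hs j).comm x h1) c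
      ((KE.w_in_iff (hL.strong j).toWeak h2 h1).1 hy)

theorem rho_iff (hL : IsLim le E b E' b' p m) {j : J} {a x : Ordinal.{u}} (ha : a ≤ b j)
    (hx : x ≤ b j) : m j x < rho E' (m j a) ↔ x < rho (E j) a :=
  KE.strong_rho (top_eq hL j ▸ hL.strong j) ha hx

theorem good (hD : Dir le E b p) (hL : IsLim le E b E' b' p m)
    (hs : ∀ j, Good (E j) (b j) E2 (s j))
    (hc : ∀ i j, le i j → ∀ x ≤ b i, s j (p i j x) = s i x) :
    ∃ g, Good E' b' E2 g ∧ ∀ j, ∀ x ≤ b j, g (m j x) = s j x := by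
  obtain ⟨g, hg⟩ := exists_map hD hL hc
  have ht : ∀ j, g b' = s j (b j) := fun j => by rw [top_eq hL j, hg j _ le_rfl]
  have hr : ∀ j, ∀ x < b j + 1, m j x < rho E' b' → x < rho (E j) (b j) := fun j x hx h =>
    (rho_iff hL le_rfl (KE.le1 hx)).1 (top_eq hL j ▸ h)
  refine ⟨g, ⟨weak hD hL hg fun j => ht j ▸ (hs j).toWeak, fun k hk => ?_,
    fun k t hk ht' H => ?_, fun k hk t n h1 h2 H => ?_⟩, hg⟩
  · obtain ⟨j, x, h1, rfl⟩ := hL.onto k (hk.le.trans KE.rho_le)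
    rw [hg j x h1, ht j]
    exact (hs j).proj x (hr j x (KE.lt1 h1) hk)
  · obtain ⟨j, x, h1, y, h2, rfl, rfl⟩ := back_two hD hL (KE.lt1 hk.le) (KE.lt1 ht'.le)
    have hw := (hL.strong j).toWeak
    have hb := top_eq hL j
    rw [hg j x (KE.le1 h1), hg j y (KE.le1 h2), ht j]
    refine (hs j).card x y ((KE.w_lt hw h1 (lt_add_one _)).1 (hb ▸ hk))
      ((KE.w_lt hw h2 (lt_add_one _)).1 (hb ▸ ht')) fun a h3 h4 => not_lt.1 fun h5 => ?_
    have h6 : rho (E j) a ≤ b j := KE.rho_le.trans h4.le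
    refine lt_irrefl _ ((rho_iff hL h4.le h6).1 (((KE.w_lt hw (KE.lt1 h6) h1).2 h5).trans_le
      (H _ ((KE.w_le hw h2 (KE.lt1 h4.le)).2 h3) ?_)))
    rw [hb]
    exact (KE.w_lt hw (KE.lt1 h4.le) (lt_add_one _)).2 h4
  · obtain ⟨j, x, h3, z, h4, rfl, h5⟩ := back_node hD hL (y := node t n)
      (KE.lt1 (hk.le.trans KE.rho_le)) (by simp [h1, h2])
    have hw := (hL.strong j).toWeak
    obtain rfl : z.fst.map (m j) = t := by rw [← map_fst, h5, fst_node]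
    obtain rfl : z.snd.map (m j) = n := by rw [← map_snd, h5, snd_node]
    rw [hg j x (KE.le1 h3), map_g hg h4.fst, map_g hg h4.snd]
    refine (hs j).inc x (hr j x h3 hk) _ _ h4.fst h4.snd fun v hv h6 => ?_
    have hv' := hv.mono h3.le
    exact (KN.wnm hw h4.snd hv').1
      (H _ ((KE.w_in_iff hw hv' h3).2 hv) ((KN.wnm hw h4.fst hv').2 h6))

theorem strong {b2 : Ordinal.{u}} (hD : Dir le E b p) (hL : IsLim le E b E' b' p m)
    (hs : ∀ j, Strong (E j) (b j + 1) E2 (b2 + 1) (s j))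
    (hc : ∀ i j, le i j → ∀ x ≤ b i, s j (p i j x) = s i x) :
    ∃ g, Strong E' (b' + 1) E2 (b2 + 1) g ∧ ∀ j, ∀ x ≤ b j, g (m j x) = s j x := by
  obtain ⟨g, hg⟩ := exists_map hD hL hc
  refine ⟨g, ⟨weak hD hL hg fun j => (hs j).toWeak, fun c y hy => ?_⟩, hg⟩
  obtain ⟨j, z, h1, rfl⟩ := back hD hL hy
  exact comm_at hg le_rfl (hL.strong j).commTop (hs j).commTop c h1

end LimMap

instance : LimMapSt.{u} := ⟨LimMap.good, LimMap.strong⟩

end Pool.Agent.KM
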