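import Pool.Agent.Lib.MP_5c0be7_lc.L.RedClo

/-!
Project KM, blocks F4, F5: the theorem of Los.
-/

namespace Pool.Agent.KM

open Ordinal Tr Filter
open scoped Classical

universe u

namespace LosI

variable {I : Type (u + 1)} {F : Filter I} {N : I → Seq.{u}} {r : I → Ordinal.{u} → Ordinal.{u}}
  {a b : Ordinal.{u}} {E : Seq.{u}} {x y : Tr.{u}}

theorem rel (h : PreLos F N r b E) (ha : a ≤ b) (hs : ¬ Suc a) (hx : In a x) (hy : In a y) :
    Rel (E a) x y ↔ ∀ᶠ i in F, Rel (N i (r i a)) (x.map (r i)) (y.map (r i)) := by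
  have n := h.ne.ne
  induction x generalizing y with
  | nil => cases y <;> simp [Tr.Rel, n]
  | leaf p =>
    cases y with
    | leaf q => exact h.ext a ha hs p (by simpa using hx) q (by simpa using hy)
    | _ => simp [Tr.Rel, n]
  | node l m ihl ihm =>
    cases y with
    | node l' m' =>
      simp only [Tr.Rel, map_node, eventually_and]
      exact and_congr (ihl hx.fst hy.fst) (ihm hx.snd hy.snd)
    | _ => simp [Tr.Rel, n]

theorem ora_iff (h : PreLos F N r b E) (ha : a ≤ b) (hs : ¬ Suc a) (hx : In a x) :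
    ∀ᶠ i in F, (ora (N i) (r i a) (x.map (r i)) ↔ ora E a x) := by
  have l := h.toSys.lim ha (h.clo a ha) hs
  have k := rel h ha hs hx.fst hx.snd
  by_cases o : ora E a x
  · filter_upwards [l, k.1 o.2] with i j1 j2
    exact iff_of_true ⟨j1, by simpa using j2⟩ o
  · have m := h.toSys.in_map ha hx
    rcases h.clo a ha extc x hx with j | ⟨w, -, j⟩
    · obtain ⟨i, j1, j2⟩ := h.toSys.ex (j.and m)
      rw [ev_extc j2] at j1; cases j1
    · have j2 : ∀ᶠ i in F, (ora (N i) (r i a) (x.map (r i)) ↔ w = .nil) := by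
        filter_upwards [j, m] with i j1 j2
        rw [ev_extc j2, Option.some_inj] at j1
        rw [← tv_eq_nil.{u} (ora _ _ _), j1, map_eq_nil]
      refine j2.mono fun i j3 => iff_of_false (fun j4 => o ⟨hs, k.2 ?_⟩) o
      exact j2.mono fun i j5 => by simpa using (j5.2 (j3.1 j4)).2

theorem call_ae (S : Sys F N r b) (ha : a ≤ b) (ih : ∀ g < a, Los F N r g E) (hx : In a x) :
    ∀ᶠ i in F, call (ev (N i)) (r i a) (x.map (r i)) = (call (ev E) a x).map (r i) := by
  cases e : x.fst with
  | leaf g =>
    have hg : g < a := by simpa [e] using hx.fst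
    by_cases k : In g x.snd.snd
    · filter_upwards [(ih g hg).los g le_rfl x.snd.fst _ k, S.mono g a hg ha] with i j1 j2
      simp [call, e, hg, j2, j1, map_opt]
    · filter_upwards [S.in_iff (hg.le.trans ha) (hx.snd.snd.succ ha), S.mono g a hg ha] with i j1 j2
      simp [call, e, hg, j2, ev_guard k, ev_guard (mt j1.1 k)]
  | nil => exact .of_forall fun i => by simp [call, e]
  | node l m => exact .of_forall fun i => by simp [call, e]

theorem lim (h : PreLos F N r b E) (ha : a ≤ b) (hs : ¬ Suc a) (ih : ∀ g < a, Los F N r g E) :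
    LosAt F N r E a := by
  have key : ∀ (c : Cd) x, In a x → ∀ᶠ i in F,
      lev (ev (N i)) (r i a) (ora (N i) (r i a)) c (x.map (r i)) =
        (lev (ev E) a (ora E a) c x).map (Tr.map (r i)) := by
    intro c
    induction c with
    | op s => exact fun x hx => (h.toSys.bop s (hx.succ ha)).mono fun i j => congrArg some j
    | cmp s c1 c2 ih1 ih2 =>
      intro x hx
      cases e : lev (ev E) a (ora E a) c2 x with
      | none => exact (ih2 x hx).mono fun i j => by simp [lev, j, e]
      | some w =>
        have hw : In a (node w x) := by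
          simp [hx, in_lev (fun _ _ _ _ _ => ev_in) _ hx e]
        filter_upwards [ih2 x hx, ih1 _ (hw.bop s), h.toSys.bop s (hw.succ ha)] with i j1 j2 j3
        simp only [lev, j1, e, Option.map_some, Option.bind_some]
        rw [← j2, ← j3, map_node]
    | unopt => exact fun x _ => .of_forall fun i => unopt_map _ _
    | ev => exact fun x hx => (call_ae h.toSys ha ih hx).mono fun i j => congrArg some j
    | ext => exact fun x hx => (ora_iff h ha hs hx).mono fun i j => by simp [lev, j]
    | atom Q => exact fun x _ => .of_forall fun i => rfl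
  intro c x hx
  filter_upwards [key (decC c) x hx, h.toSys.lim ha (h.clo a ha) hs, h.toSys.in_map ha hx]
    with i j1 j2 j3
  rw [ev_lim j2 j3, ev_lim hs hx, j1]

theorem ev_srch (P : Bd) (hx : In (b + 1) x) :
    ev E (b + 1) (ex0 (.post (.ite .fst .tone .nil) P)) x = srch E b P x := by
  rw [ev_ex0 _ hx]
  refine congrArg least (funext fun y => propext (and_congr_right fun _ => ?_))
  change _ ↔ bod E b P x y ≠ .nil
  simp only [bod_eq, drun_post, bop_ite, bop_fst, fst_node, bop_tone, bop_nil]
  split_ifs with k <;> simp [k]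

variable [RedSt.{u}]

theorem step (h : Los F N r b E) (S : Sys F N r (b + 1)) (C : CloAt F N r (b + 1)) :
    Lev E b ∧ LosAt F N r E (b + 1) := by
  obtain ⟨k, p, R, hk⟩ := RedClo.red h S C
  obtain ⟨h1, h2, -⟩ := RedSt.fine h R
  refine ⟨⟨⟨_, h2⟩, fun hs => le_antisymm (rho_le _ _) (le_of_forall_lt fun a ha => ?_)⟩,
    fun c x hx => ?_⟩
  · refine h1 ▸ hk a ha.le (S.fr ?_)
    filter_upwards [S.lev (lt_add_one b), h.lim le_rfl hs, h.mono a b ha le_rfl] with i j1 j2 j3
    rwa [j1.2 j2]
  · have m := S.in_succ le_self_add hx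
    refine ((RedSt.step h R c x hx ?_).and (S.suc b le_rfl)).mono fun i j => j.2 ▸ j.1
    refine (RedClo.clo S C (ex0 (.post (.ite .fst .tone .nil) (body c))) hx).imp
      (fun j => (j.and m).mono fun i l => ev_srch _ l.2 ▸ l.1) fun ⟨y, y1, j⟩ => ?_
    have j2 := (j.and m).mono fun i l => (ev_srch _ l.2).symm.trans l.1
    exact ⟨y, RedClo.in_k S hk y1 (j2.mono fun i l => (least_eq_some.1 l).1.1), j2⟩

theorem los (h : PreLos F N r b E) : Los F N r b E := by
  suffices H : ∀ a ≤ b, Los F N r a E from H b le_rfl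
  intro a
  induction a using WellFoundedLT.induction with
  | ind a ih =>
    intro ha
    have ih' := fun g (hg : g < a) => ih g hg (hg.le.trans ha)
    have st := fun g (hg : g < a) => step (ih' g hg)
      (h.toSys.restrict ((Order.add_one_le_iff.2 hg).trans ha))
      (h.clo _ ((Order.add_one_le_iff.2 hg).trans ha))
    refine ⟨h.toSys.restrict ha, fun g hg => ?_, fun g hg => (st g hg).1⟩
    rcases hg.eq_or_lt with rfl | hg
    · by_cases hs : Suc g
      · obtain ⟨j, rfl⟩ := hs
        exact (st j (lt_add_one j)).2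
      · exact lim h ha hs ih'
    · exact (ih' g hg).los g le_rfl

end LosI

instance [RedSt.{u}] : LosSt.{u} := ⟨LosI.los⟩

end Pool.Agent.KM
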