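import Pool.Agent.Lib.MP_5c0be7_lc.L.StLos
import Pool.Agent.Lib.MP_5c0be7_lc.O.Once
import Pool.Agent.Lib.MP_5c0be7_lc.O.Api
import Pool.Agent.Lib.MP_5c0be7_lc.O.FO2
import Pool.Agent.Lib.MP_5c0be7_lc.K.GoodI

/-!
Project KM, blocks F4, F5: elementary facts on reduced products.
-/

namespace Pool.Agent.KM

open Ordinal Tr Filter
open scoped Classical

universe u

variable {I : Type (u + 1)} {F : Filter I} {N : I → Seq.{u}} {r : I → Ordinal.{u} → Ordinal.{u}}
  {b a a' g : Ordinal.{u}} {E : Seq.{u}} {x y c : Tr.{u}}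

theorem Tr.In.succ {k : Ordinal.{u}} (h : In k x) (hk : k ≤ b) : In (b + 1) x :=
  h.mono (hk.trans le_self_add)

theorem iff_of_tv {p q : Prop} (h : (tv p : Tr.{u}) = tv q) : p ↔ q := by
  rw [← tv_eq_nil.{u} p, h, tv_eq_nil]

namespace Sys

variable (h : Sys F N r b)
include h

theorem ex {p : I → Prop} (h1 : ∀ᶠ i in F, p i) : ∃ i, p i := haveI := h.ne; h1.exists

theorem fr {p : I → Prop} (h1 : ∀ᶠ i in F, p i) : ∃ᶠ i in F, p i := haveI := h.ne; h1.frequently

theorem cst {p : Prop} (h1 : ∀ᶠ _i in F, p) : p := let ⟨_, k⟩ := h.ex h1; k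

theorem smono {S : Set Ordinal.{u}} (hS : S.Finite) (hb : ∀ a ∈ S, a ≤ b) :
    ∀ᶠ i in F, StrictMonoOn (r i) S := by
  have : ∀ᶠ i in F, ∀ a ∈ S, ∀ a' ∈ S, a < a' → r i a < r i a' :=
    (eventually_all_finite hS).2 fun a _ => (eventually_all_finite hS).2 fun a' ha' => by
      by_cases k : a < a'
      · exact (h.mono a a' k (hb _ ha')).mono fun _ k _ => k
      · exact Eventually.of_forall fun _ k' => absurd k' k
  exact this.mono fun _ k _ h1 _ h2 h3 => k _ h1 _ h2 h3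

theorem smono_in (hx : In (b + 1) x) : ∀ᶠ i in F, StrictMonoOn (r i) x.lv :=
  h.smono (lv_finite x) fun a ha => KE.le1 (hx a ha)

theorem mono_le (h1 : a ≤ a') (h2 : a' ≤ b) : ∀ᶠ i in F, r i a ≤ r i a' := by
  rcases h1.eq_or_lt with rfl | h1
  · exact Eventually.of_forall fun _ => le_rfl
  · exact (h.mono _ _ h1 h2).mono fun _ => le_of_lt

theorem lt_of (ha : a ≤ b) (k : ∃ᶠ i in F, r i a < r i a') : a < a' := by
  by_contra h1
  exact k ((h.mono_le (not_lt.1 h1) ha).mono fun _ => not_lt.2)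

theorem le_of (ha : a ≤ b) (k : ∃ᶠ i in F, r i a ≤ r i a') : a ≤ a' := by
  by_contra h1
  exact k ((h.mono _ _ (not_le.1 h1) ha).mono fun _ => not_le.2)

theorem eq_of (ha : a ≤ b) (ha' : a' ≤ b) (k : ∃ᶠ i in F, r i a = r i a') : a = a' :=
  le_antisymm (h.le_of ha (k.mono fun _ => le_of_eq)) (h.le_of ha' (k.mono fun _ e => e.ge))

theorem inj (hx : In (b + 1) x) (hy : In (b + 1) y) (k : ∃ᶠ i in F, x.map (r i) = y.map (r i)) :
    x = y := by
  obtain ⟨i, h1, h2⟩ := (k.and_eventually (h.smono_in ((in_node _ _ _).2 ⟨hx, hy⟩))).exists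
  exact (map_inj h2.injOn).1 h1

theorem in_iff (ha : a ≤ b) (hx : In (b + 1) x) :
    ∀ᶠ i in F, (In (r i a) (x.map (r i)) ↔ In a x) :=
  (h.smono ((lv_finite x).insert a) fun z hz => hz.elim (fun e => e ▸ ha)
    fun hz => KE.le1 (hx z hz)).mono fun _ k => in_map_iff k

theorem in_map (ha : a ≤ b) (hx : In a x) : ∀ᶠ i in F, In (r i a) (x.map (r i)) :=
  (h.in_iff ha (hx.succ ha)).mono fun _ k => k.2 hx

theorem in_of (ha : a ≤ b) (hx : In (b + 1) x) (k : ∃ᶠ i in F, In (r i a) (x.map (r i))) :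
    In a x := let ⟨_, h1, h2⟩ := (k.and_eventually (h.in_iff ha hx)).exists; h2.1 h1

theorem in_succ (ha : a ≤ b) (hx : In (a + 1) x) : ∀ᶠ i in F, In (r i a + 1) (x.map (r i)) := by
  have : ∀ᶠ i in F, ∀ z ∈ x.lv, r i z ≤ r i a :=
    (eventually_all_finite (lv_finite x)).2 fun z hz => h.mono_le (KE.le1 (hx z hz)) ha
  exact this.mono fun i k => KE.in_map fun z hz => KE.lt1 (k z hz)

theorem ls_le (ha : a ≤ b) : ∀ᶠ i in F, LS (N i) (r i a) :=
  (h.ls.and (h.mono_le ha le_rfl)).mono fun _ k => k.1.mono k.2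

theorem lev (ha : a < b) : ∀ᶠ i in F, Lev (N i) (r i a) :=
  (h.ls.and (h.mono _ _ ha le_rfl)).mono fun _ k => k.1 _ k.2

theorem restrict (ha : a ≤ b) : Sys F N r a :=
  ⟨h.ne, fun _ _ h1 h2 => h.mono _ _ h1 (h2.trans ha), fun _ h1 => h.suc _ (h1.trans ha), h.ls_le ha⟩

theorem add_nat (n : ℕ) (ha : a + n ≤ b) : ∀ᶠ i in F, r i (a + n) = r i a + n := by
  induction n with
  | zero => exact Eventually.of_forall fun _ => by simp
  | succ n ih =>
    rw [add_succ_cast] at ha ⊢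
    filter_upwards [ih (le_self_add.trans ha), h.suc _ ha] with i h1 h2
    rw [h2, h1, add_succ_cast]

theorem bop (s : Op) (hx : In (b + 1) x) :
    ∀ᶠ i in F, bop s (x.map (r i)) = (bop s x).map (r i) :=
  (h.smono_in hx).mono fun i k => bop_map s (r i) x k

theorem op {s : Tr.{u} → Tr.{u}} (hs : IsOp s) (hx : In (b + 1) x) :
    ∀ᶠ i in F, s (x.map (r i)) = (s x).map (r i) :=
  (h.smono_in hx).mono fun _ k => hs.map k

theorem lt_iff (hx : In (b + 1) x) (hy : In (b + 1) y) :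
    ∀ᶠ i in F, (Lt (x.map (r i)) (y.map (r i)) ↔ Lt x y) :=
  (h.smono_in ((in_node _ _ _).2 ⟨hx, hy⟩)).mono fun _ k => lt_map_iff k

theorem suc_of (ha : a ≤ b) (hs : Suc a) : ∀ᶠ i in F, Suc (r i a) := by
  obtain ⟨g, rfl⟩ := hs
  exact (h.suc g ha).mono fun i k => ⟨_, k⟩

theorem lim (ha : a ≤ b) (hc : CloAt F N r a) (hs : ¬ Suc a) : ∀ᶠ i in F, ¬ Suc (r i a) := by
  rcases hc topc .nil (in_nil _) with k | ⟨y, hy, k⟩
  · refine k.mono fun i k ⟨g, e⟩ => ?_
    rw [e, ev_topc (by simp)] at k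
    simp at k
  · have k2 : ∀ᶠ i in F, ∃ z, y = leaf z ∧ r i a = r i z + 1 := k.mono fun i k => by
      by_cases s : Suc (r i a)
      · obtain ⟨g, e⟩ := s
        rw [e, ev_topc (by simp)] at k
        obtain ⟨z, h1, h2⟩ := map_eq_leaf.1 (Option.some.inj k).symm
        exact ⟨z, h1, by rw [h2, e]⟩
      · rw [ev_topc_lim s] at k; simp at k
    obtain ⟨_, z, rfl, -⟩ := h.ex k2
    have hz : z + 1 < a := not_suc_iff.1 hs z (by simpa using hy)
    filter_upwards [k2, h.suc z (hz.le.trans ha), h.mono _ _ hz ha] with i ⟨z', h1, h2⟩ h3 h4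
    cases h1
    exact absurd (h3.trans h2.symm) h4.ne

end Sys

theorem LosAt.some (h : LosAt F N r E a) (e : ev E a c x = some y) :
    ∀ᶠ i in F, ev (N i) (r i a) c (x.map (r i)) = some (y.map (r i)) :=
  (h c x (in_of_ev_eq e)).mono fun i k => by rw [k, e]; rfl

theorem LosAt.none (h : LosAt F N r E a) (hx : In a x) (e : ev E a c x = none) :
    ∀ᶠ i in F, ev (N i) (r i a) c (x.map (r i)) = none :=
  (h c x hx).mono fun i k => by rw [k, e]; rfl

theorem LosAt.clo (h : LosAt F N r E a) : CloAt F N r a := fun c x hx => by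
  cases e : ev E a c x with
  | none => exact Or.inl (h.none hx e)
  | some y => exact Or.inr ⟨y, ev_in e, h.some e⟩

namespace Los

variable (h : Los F N r b E)
include h

theorem restrict (ha : a ≤ b) : Los F N r a E :=
  ⟨h.toSys.restrict ha, fun _ k => h.los _ (k.trans ha), h.ls'.mono ha⟩

theorem lim (ha : a ≤ b) (hs : ¬ Suc a) : ∀ᶠ i in F, ¬ Suc (r i a) :=
  h.toSys.lim ha (h.los a ha).clo hs

theorem ev (ha : a ≤ b) (c : Tr.{u}) (hx : In (b + 1) x) :
    ∀ᶠ i in F, ev (N i) (r i a) c (x.map (r i)) = (ev E a c x).map (Tr.map (r i)) := by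
  by_cases k : In a x
  · exact h.los a ha c x k
  · exact (h.in_iff ha hx).mono fun i j => by
      rw [ev_guard k, ev_guard fun l => k (j.1 l)]; rfl

theorem isSome (ha : a ≤ b) (c : Tr.{u}) (hx : In (b + 1) x) : ∀ᶠ i in F,
    ((KM.ev (N i) (r i a) c (x.map (r i))).isSome ↔ (KM.ev E a c x).isSome) :=
  (h.ev ha c hx).mono fun i k => by rw [k, Option.isSome_map]

theorem val (ha : a ≤ b) (hx : In (b + 1) x) (hy : In (b + 1) y)
    (k : ∃ᶠ i in F, KM.ev (N i) (r i a) c (x.map (r i)) = some (y.map (r i))) :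
    KM.ev E a c x = some y := by
  have k2 := k.and_eventually (h.ev ha c hx)
  cases e : KM.ev E a c x with
  | none =>
    obtain ⟨i, h1, h2⟩ := k2.exists
    rw [h1, e] at h2; simp at h2
  | some w =>
    rw [h.inj ((ev_in e).succ ha) hy (k2.mono fun i ⟨h1, h2⟩ => by
      rw [h1, e] at h2; exact (Option.some.inj h2).symm)]

theorem th (ha : a ≤ b) {q : Tr.{u}} (hx : In (b + 1) x) (hq : In (b + 1) q) :
    ∀ᶠ i in F, (Th (N i) (r i a) (x.map (r i)) (q.map (r i)) ↔ Th E a x q) :=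
  (h.isSome ha q.fst ((in_node _ _ _).2 ⟨hq.snd, hx⟩)).mono fun i k => by
    simpa only [ThL, map_fst, map_snd, ev_map_code, map_node] using k

theorem fv {f : Tr.{u}} (hf : In (b + 1) f) (hx : In (b + 1) x) :
    ∀ᶠ i in F, fv (N i) (f.map (r i)) (x.map (r i)) = (fv E f x).map (Tr.map (r i)) := by
  cases e : f.fst with
  | leaf a =>
    have ha : a ≤ b := KE.le1 (by simpa [e] using hf.fst)
    refine (h.ev ha f.snd.fst ((in_node _ _ _).2 ⟨hx, hf.snd.snd⟩)).mono fun i k => ?_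
    simpa [KM.fv, e] using k
  | nil => exact Eventually.of_forall fun i => by simp [KM.fv, e]
  | node l m => exact Eventually.of_forall fun i => by simp [KM.fv, e]

end Los

theorem nm_iff_fv {n q : Tr.{u}} : Nm E n q ↔ (fv E n q).isSome := by
  unfold Nm NmL fv
  cases n.fst <;> simp

namespace Los

variable (h : Los F N r b E)
include h

theorem nm {n q : Tr.{u}} (hn : In (b + 1) n) (hq : In (b + 1) q) :
    ∀ᶠ i in F, (Nm (N i) (n.map (r i)) (q.map (r i)) ↔ Nm E n q) :=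
  (h.fv hn hq).mono fun i k => by rw [nm_iff_fv, nm_iff_fv, k, Option.isSome_map]

theorem ora (ha : a ≤ b) (hx : In a x) :
    ∀ᶠ i in F, (ora (N i) (r i a) (x.map (r i)) ↔ ora E a x) := by
  filter_upwards [h.los a ha extc x hx, h.in_map ha hx] with i h1 h2
  rw [ev_extc h2, ev_extc hx, Option.map_some, map_tv, Option.some_inj] at h1
  exact iff_of_tv h1

theorem ext {v p q : Ordinal.{u}} (hv : v ≤ b) (hs : ¬ Suc v) (hp : p < v) (hq : q < v) :
    ∀ᶠ i in F, (N i (r i v) (r i p) (r i q) ↔ E v p q) := by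
  filter_upwards [h.ora hv (x := node (leaf p) (leaf q)) (by simp [hp, hq]), h.lim hv hs]
    with i h1 h2
  simpa [KM.ora, Tr.Rel, h2, hs] using h1

theorem ext_pos {v p q : Ordinal.{u}} (hv : v ≤ b) (hs : ¬ Suc v) (hp : p < v) (hq : q < v)
    (k : E v p q) : ∀ᶠ i in F, N i (r i v) (r i p) (r i q) :=
  (h.ext hv hs hp hq).mono fun _ j => j.2 k

theorem ext_neg {v p q : Ordinal.{u}} (hv : v ≤ b) (hs : ¬ Suc v) (hp : p < v) (hq : q < v)
    (k : ¬ E v p q) : ∀ᶠ i in F, ¬ N i (r i v) (r i p) (r i q) :=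
  (h.ext hv hs hp hq).mono fun _ j l => k (j.1 l)

theorem ev_succ (ha : a + 1 ≤ b) (c : Tr.{u}) (hx : In (b + 1) x) : ∀ᶠ i in F,
    KM.ev (N i) (r i a + 1) c (x.map (r i)) = (KM.ev E (a + 1) c x).map (Tr.map (r i)) := by
  filter_upwards [h.ev ha c hx, h.suc a ha] with i h1 h2
  rw [← h2, h1]

theorem rho {k : Ordinal.{u}} (ha : a + 1 ≤ b) (hk : k ≤ b) :
    ∀ᶠ i in F, (r i k < rho (N i) (r i a) ↔ k < rho E a) :=
  (h.ev_succ ha ltr (x := leaf k) (by simpa using KE.lt1 hk)).mono fun i j => by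
    rw [← ev_ltr_leaf, ← ev_ltr_leaf, ← map_leaf, j, Option.isSome_map]

theorem par (ha : a + 1 ≤ b) : ∀ᶠ i in F, par (N i) (r i a) = (par E a).map (r i) :=
  (h.ev_succ ha parc (in_nil _)).mono fun i j => by
    rw [ev_parc (by simp), ev_parc (by simp)] at j
    exact Option.some.inj j

/-- A search over a whole level succeeds in the product if it succeeds often. -/
theorem pull (ha : a + 1 ≤ b) (hx : In (a + 1) x)
    (k : ∃ᶠ i in F, ∃ y, (KM.ev (N i) (r i a + 1) c (node y (x.map (r i)))).isSome) :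
    ∃ y, (KM.ev E (a + 1) c (node y x)).isSome := by
  have h1 : a < b := Order.add_one_le_iff.1 ha
  obtain ⟨i, k1, k2, k3⟩ :=
    (k.and_eventually ((h.ev_succ ha (exs c) (hx.succ ha)).and (h.lev h1))).exists
  rw [← ev_exs_isSome k3.1, k2, Option.isSome_map] at k1
  exact (ev_exs_isSome (h.ls' a h1).1 c x).1 k1

theorem code {f : PF.{u}} (hf : Code f) (ha : a ≤ b) (hx : In a x) :
    ∀ᶠ i in F, f (N i) (r i a) (x.map (r i)) = (f E a x).map (Tr.map (r i)) := by
  obtain ⟨c, -, hc⟩ := hf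
  filter_upwards [h.los a ha c x hx, h.in_map ha hx] with i h1 h2
  rw [← hc _ _ _ h2, h1, hc _ _ _ hx]

theorem cf {f : TF.{u}} (hf : CF f) (ha : a ≤ b) (hx : In a x) :
    ∀ᶠ i in F, f (N i) (r i a) (x.map (r i)) = (f E a x).map (r i) :=
  (h.code hf ha hx).mono fun _ k => Option.some.inj k

theorem cf_iff {A : PR.{u}} (hA : CF fun E b z => tv (A E b z)) (ha : a ≤ b) (hx : In a x) :
    ∀ᶠ i in F, (A (N i) (r i a) (x.map (r i)) ↔ A E a x) :=
  (h.cf hA ha hx).mono fun _ k => iff_of_tv (k.trans (map_tv _ _))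

/-- Witnesses at a successor level, for a test decided at that level. -/
theorem pull1 {A : PR.{u}} (hA : CF fun E b z => tv (A E b z)) (ha : a + 1 ≤ b) (hx : In (a + 1) x)
    (k : ∃ᶠ i in F, ∃ y, In (r i a + 1) y ∧ A (N i) (r i a + 1) (node y (x.map (r i)))) :
    ∃ y, In (a + 1) y ∧ A E (a + 1) (node y x) := by
  obtain ⟨c, -, hc⟩ := Code.post (IsOp.id.fst.ite_nil (IsOp.nil.pair IsOp.nil) IsOp.nil) hA
  obtain ⟨y, hy⟩ := h.pull (c := c) ha hx ((k.and_eventually
    (h.in_succ (le_self_add.trans ha) hx)).mono fun i ⟨⟨y, h1, h2⟩, h3⟩ => ⟨y, by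
      rw [hc _ _ _ ((in_node _ _ _).2 ⟨h1, h3⟩)]; simp [h2]⟩)
  have hi := in_of_ev hy
  refine ⟨y, hi.fst, by_contra fun h4 => ?_⟩
  rw [hc _ _ _ hi] at hy
  simp [h4] at hy

/-- Witnesses below a level, for a test decided at that level. -/
theorem pull0 {A : PR.{u}} (hA : CF fun E b z => tv (A E b z)) (ha : a + 1 ≤ b) (hx : In a x)
    (k : ∃ᶠ i in F, ∃ y, In (r i a) y ∧ A (N i) (r i a) (node y (x.map (r i)))) :
    ∃ y, In a y ∧ A E a (node y x) := by
  obtain ⟨c, c0, hc⟩ := hA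
  obtain ⟨d, d0, hd⟩ := Code.down c0
  obtain ⟨e, -, he⟩ := (Code.self d0).post
    ((IsOp.id.fst.eq (IsOp.nil.pair IsOp.nil)).ite_nil (IsOp.nil.pair IsOp.nil) IsOp.nil)
  have key : ∀ (E : Seq.{u}) a z, (KM.ev E (a + 1) e z).isSome ↔ In a z ∧ A E a z := by
    intro E a z
    by_cases i : In (a + 1) z
    · rw [he _ _ _ i]; dsimp only; rw [hd _ _ _ i]
      by_cases j : In a z
      · rw [hc _ _ _ j]; by_cases l : A E a z <;> simp [j, l]
      · rw [ev_guard j]; simp [j]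
    · rw [ev_guard i]; simpa using fun j => absurd (j.mono le_self_add) i
  obtain ⟨y, hy⟩ := h.pull (c := e) ha (hx.mono le_self_add) ((k.and_eventually
    (h.in_map (le_self_add.trans ha) hx)).mono fun i ⟨⟨y, h1, h2⟩, h3⟩ =>
      ⟨y, (key _ _ _).2 ⟨(in_node _ _ _).2 ⟨h1, h3⟩, h2⟩⟩)
  exact ⟨y, ((key _ _ _).1 hy).1.fst, ((key _ _ _).1 hy).2⟩

theorem cp {n : ℕ} {p : PF.{u}} (hp : Cp n p) (ha : a + n ≤ b) (hx : In a x) :
    ∀ᶠ i in F, p (N i) (r i a) (x.map (r i)) = (p E a x).map (Tr.map (r i)) := by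
  obtain ⟨c, -, hc⟩ := hp
  filter_upwards [h.los _ ha c x (hx.mono le_self_add), h.in_map (le_self_add.trans ha) hx,
    h.add_nat n ha, h.ls_le ha] with i h1 h2 h3 h4
  rw [h3] at h1 h4
  rwa [hc _ _ _ h4, hc _ _ _ (h.ls'.mono ha), if_pos h2, if_pos hx] at h1

theorem fn {f : TF.{u}} (hf : Fn f) {m : Ordinal.{u}} (hm : ¬ Suc m) (ha : a < m) (hb : m ≤ b)
    (hx : In a x) : ∀ᶠ i in F, f (N i) (r i a) (x.map (r i)) = (f E a x).map (r i) :=
  let ⟨n, h1, _⟩ := hf
  (h.cp h1 ((add_nat_lt hm ha n).le.trans hb) hx).mono fun _ k => Option.some.inj k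

theorem df {A : PR.{u}} (hA : Df A) {m : Ordinal.{u}} (hm : ¬ Suc m) (ha : a < m) (hb : m ≤ b)
    (hx : In a x) : ∀ᶠ i in F, (A (N i) (r i a) (x.map (r i)) ↔ A E a x) :=
  (h.fn hA.fn hm ha hb hx).mono fun _ k => iff_of_tv (k.trans (map_tv _ _))

/-- Inclusion of named sets goes up. -/
theorem inc {n m : Tr.{u}} (hg : g < b) (hn : In b n) (hm : In b m)
    (k : ∀ q, In g q → Nm E n q → Nm E m q) :
    ∀ᶠ i in F, ∀ q, In (r i g) q → Nm (N i) (n.map (r i)) q → Nm (N i) (m.map (r i)) q := by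
  have I := IsOp.id.{u}
  have hA := (CF.op (I.snd.fst.bd I.fst)).and (((CF.op I.snd.snd.fst).nm (CF.op I.fst)).and
    ((CF.op I.snd.snd.snd).nm (CF.op I.fst)).not)
  have hx : In b (node (leaf g) (node n m)) := by simp [hg, hn, hm]
  obtain ⟨a, -, ha⟩ := (ht_cases (node (leaf g) (node n m))).resolve_left fun j => by
    have : g ∈ (node (leaf g) (node n m)).lv := by simp
    rw [j.1] at this; exact this
  have hab : a + 1 ≤ b := ha ▸ hx.ht_le
  have hx' : In (a + 1) (node (leaf g) (node n m)) := ha ▸ in_ht _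
  by_contra k'
  obtain ⟨w, -, g1, g2, g3⟩ := h.pull1 hA hab hx' (((not_eventually.1 k').and_eventually
    (h.in_succ (le_self_add.trans hab) hx')).mono fun i ⟨k1, k2⟩ => by
      simp only [not_forall] at k1
      obtain ⟨q, q1, q2, q3⟩ := k1
      simp only [map_node, map_leaf, in_node, in_leaf] at k2
      refine ⟨q, q1.mono k2.1.le, ?_⟩
      simp only [map_node, map_leaf, fst_node, snd_node]
      rw [← nm_iff_call k2.2.1.fst, ← nm_iff_call k2.2.2.fst]
      exact ⟨⟨_, rfl, q1⟩, q2, q3⟩)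
  simp only [fst_node, snd_node] at g1 g2 g3
  simp only [in_node] at hx'
  rw [← nm_iff_call hx'.2.1.fst] at g2
  rw [← nm_iff_call hx'.2.2.fst] at g3
  obtain ⟨_, ⟨⟩, g1⟩ := g1
  exact g3 (k w g1 g2)

end Los

/-- The successor of an ordinal below the predecessor of the level. -/
def sucC : Tr.{u} :=
  exs (nilc (postc (.comp .eq (.pair .fst .ss))
    (prec (.pair .fst (.pair (.const (topc : Tr.{u})) .nil)) callc)))

@[simp] theorem lv_sucC : (sucC : Tr.{u}).lv = ∅ := by simp [sucC]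

theorem ev_sucC (hs : ∃ p, SS E g p) (ha : a < g) :
    ev E (g + 1) sucC (leaf a) = some (leaf (a + 1)) := by
  have key : ∀ y, (ev E (g + 1) (nilc (postc (.comp .eq (.pair .fst .ss))
      (prec (.pair .fst (.pair (.const (topc : Tr.{u})) .nil)) callc))) (node y (leaf a))).isSome ↔
      y = leaf (a + 1) := by
    intro y
    rw [ev_nilc_isSome, ev_postc]
    constructor
    · intro k
      obtain ⟨w, k1, k2⟩ := Option.map_eq_some_iff.1 k
      have hi := in_of_ev_eq k1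
      rw [ev_prec _ _ hi, ev_callc' (hi.bop _)] at k1
      simp only [bop_comp, bop_pair, bop_fst, bop_ss, bop_eq, fst_node, snd_node, tv_eq_nil,
        bop_const lv_topc, bop_nil] at k1 k2
      subst k2
      unfold call at k1
      split_ifs at k1 with j
      · simp only [fst_node, snd_node, unopt_opt] at k1 j
        rw [j.1, ev_topc_eq k1]
      · simp at k1
    · rintro rfl
      have h1 : a + 1 < g + 1 := KE.s1lt ha
      rw [ev_prec _ _ (by simp [h1, (lt_add_one a).trans h1])]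
      simp only [bop_pair, bop_fst, fst_node, bop_const lv_topc, bop_nil]
      rw [ev_callc h1 _ (in_of_lv lv_topc _), ev_topc (by simp)]
      simp
  obtain ⟨y, hy⟩ := Option.isSome_iff_exists.1 (ev_exs_complete hs ((key _).2 rfl))
  rw [sucC, hy, (key y).1 (ev_exs_sound hy)]

/-- Normal form at level `b` of a function named below `b + 1`, uniformly under weak maps. -/
theorem exists_nf (b : Ordinal.{u}) {f : Tr.{u}} (hf : In (b + 1) f) :
    ∃ c z : Tr.{u}, c.lv = ∅ ∧ In b z ∧ z.lv ⊆ f.lv ∧ ∀ (E : Seq.{u}) (s : Ordinal.{u} → Ordinal.{u}),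
      StrictMonoOn s (insert b f.lv) → ∀ w, In (s b) w →
        ev E (s b) c (node w (z.map s)) = fv E (f.map s) w := by
  have none : ∀ (E : Seq.{u}) (d : Ordinal.{u}) (w : Tr.{u}), ev E d (tst .tone) w = none := by
    intro E d w
    by_cases i : In d w
    · rw [ev_tst _ i]; simp
    · exact ev_guard i _
  cases e : f.fst with
  | nil => exact ⟨tst .tone, .nil, by simp, by simp, by simp, fun E s _ w _ => by
      simp [none, fv, e]⟩
  | node l m => exact ⟨tst .tone, .nil, by simp, by simp, by simp, fun E s _ w _ => by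
      simp [none, fv, e]⟩
  | leaf a =>
    have ha : a ∈ f.lv := lv_fst f (by simp [e])
    have sub : f.snd.snd.lv ⊆ f.lv := (lv_snd _).trans (lv_snd f)
    by_cases hz : In a f.snd.snd
    · rcases (KE.le1 (hf a ha)).eq_or_lt with rfl | hab
      · exact ⟨f.snd.fst.erase, f.snd.snd, by simp, hz, sub, fun E s _ w _ => by simp [fv, e]⟩
      · refine ⟨prec (.pair .fs (.pair (.const f.snd.fst.erase) (.pair .fst .ss))) callc,
          node (leaf a) f.snd.snd, by simp, by simp [hab, hz.mono hab.le],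
          by simp [Set.insert_subset_iff, ha, sub], fun E s hs w hw => ?_⟩
        have h1 : s a < s b := hs (Or.inr ha) (Or.inl rfl) hab
        have h2 : In (s b) (f.snd.snd.map s) := KE.in_map fun z k =>
          hs (Or.inr (sub k)) (Or.inl rfl) ((hz z k).trans hab)
        rw [ev_prec _ _ (by simp only [map_node, map_leaf, in_node, in_leaf]; exact ⟨hw, h1, h2⟩)]
        simp only [bop_pair, bop_fs, bop_fst, bop_ss, map_node, map_leaf, fst_node, snd_node,
          bop_const (lv_erase _)]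
        rw [ev_callc h1 _ (in_erase _ _)]
        simp [fv, e]
    · refine ⟨tst .tone, .nil, by simp, by simp, by simp, fun E s hs w _ => ?_⟩
      have : ¬ In (s a) (node w (f.snd.snd.map s)) := fun k => hz
        ((in_map_iff (hs.mono fun z j => Or.inr (j.elim (fun j => j ▸ ha) fun j => sub j))).1 k.snd)
      simp [none, fv, e, ev_guard this]

end Pool.Agent.KM
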