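import Pool.Agent.Lib.MP_5c0be7_lc.L.StLos
import Pool.Agent.Lib.MP_5c0be7_lc.O.FO3

/-!
Project KM, block F5: an active level of a reduced product.
-/

namespace Pool.Agent.KM

open Ordinal Tr Filter
open scoped Classical

universe u

namespace LosAct

variable {I : Type (u + 1)} {F : Filter I} {N : I → Seq.{u}} {r : I → Ordinal.{u} → Ordinal.{u}}
  {v k t a a' : Ordinal.{u}} {E : Seq.{u}}

theorem not_suc {e : Ordinal.{u} → Ordinal.{u}} (h : Act E v k t e) : ¬ Suc v := by
  rintro ⟨a, rfl⟩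
  obtain ⟨x, h1, h2⟩ := h.cof a (lt_add_one a)
  exact absurd (Order.lt_add_one_iff.1 (h.weak.maps x h1)) (not_le.2 h2)

theorem not_suc_dom {e : Ordinal.{u} → Ordinal.{u}} (h : Act E v k t e) : ¬ Suc t :=
  fun ⟨a, h1⟩ => not_suc h ⟨_, h.weak.top a h1⟩

theorem smono (h : Sys F N r v) {S : Set Ordinal.{u}} (hS : S.Finite) (hv : ∀ a ∈ S, a ≤ v) :
    ∀ᶠ i in F, StrictMonoOn (r i) S := by
  have : ∀ᶠ i in F, ∀ a ∈ S, ∀ a' ∈ S, a < a' → r i a < r i a' :=
    (eventually_all_finite hS).2 fun a _ => (eventually_all_finite hS).2 fun a' ha' =>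
      if h1 : a < a' then (h.mono a a' h1 (hv a' ha')).mono fun _ h2 _ => h2
      else Eventually.of_forall fun _ h2 => absurd h2 h1
  exact this.mono fun i hi a ha a' ha' => hi a ha a' ha'

theorem le_ev (h : Sys F N r v) (h1 : a ≤ a') (h2 : a' ≤ v) : ∀ᶠ i in F, r i a ≤ r i a' := by
  rcases h1.eq_or_lt with rfl | h1
  · exact Eventually.of_forall fun _ => le_rfl
  · exact (h.mono a a' h1 h2).mono fun _ => le_of_lt

theorem lt_of (h : Sys F N r v) (ha : a ≤ v) (h1 : ∀ᶠ i in F, r i a < r i a') : a < a' := by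
  by_contra h2
  have := h.ne
  obtain ⟨i, h3, h4⟩ := (h1.and (le_ev h (not_lt.1 h2) ha)).exists
  exact absurd h3 (not_lt.2 h4)

theorem le_of (h : Sys F N r v) (ha : a ≤ v) (h1 : ∀ᶠ i in F, r i a ≤ r i a') : a ≤ a' := by
  by_contra h2
  have := h.ne
  obtain ⟨i, h3, h4⟩ := (h1.and (h.mono a' a (not_le.1 h2) ha)).exists
  exact absurd h3 (not_le.2 h4)

theorem eq_of (h : Sys F N r v) (ha : a ≤ v) (ha' : a' ≤ v) (h1 : ∀ᶠ i in F, r i a = r i a') :
    a = a' := le_antisymm (le_of h ha (h1.mono fun _ => le_of_eq))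
      (le_of h ha' (h1.mono fun _ => ge_of_eq))

theorem in_ev (h : Sys F N r v) (ha : a ≤ v) {z : Tr.{u}} (hz : In a z) :
    ∀ᶠ i in F, In (r i a) (z.map (r i)) :=
  ((eventually_all_finite (lv_finite z)).2 fun x hx => h.mono x a (hz x hx) ha).mono
    fun i hi y hy => by
      rw [lv_map] at hy
      obtain ⟨x, hx, rfl⟩ := hy
      exact hi x hx

theorem add_nat (h : Sys F N r v) (n : ℕ) (ha : a + n ≤ v) :
    ∀ᶠ i in F, r i (a + n) = r i a + n := by
  induction n with
  | zero => simp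
  | succ n ih =>
    rw [add_succ_cast] at ha
    filter_upwards [h.suc _ ha, ih (le_self_add.trans ha)] with i h1 h2
    rw [add_succ_cast, add_succ_cast, h1, h2]

/-- Definable properties come down from the fibres. -/
theorem df (h : Los F N r v E) (hv : Order.IsSuccLimit v) {A : PR.{u}} (hA : Df A) {z : Tr.{u}}
    (hz : In v z) (H : ∀ᶠ i in F, A (N i) (r i z.ht) (z.map (r i))) : A E z.ht z := by
  obtain ⟨n, c, -, hc⟩ := hA
  have h1 := add_nat_lt (not_suc_of_limit hv) (hz.ht_lt hv) n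
  have h2 := h.los _ h1.le c z ((in_ht z).mono le_self_add)
  rw [hc E _ z (h.ls'.mono h1.le), if_pos (in_ht z)] at h2
  have := h.ne
  obtain ⟨i, h3, h4, h5, h6, h7, h8⟩ := (H.and (h2.and ((add_nat h.toSys n h1.le).and
    (h.ls.and ((h.mono _ _ h1 le_rfl).and (in_ev h.toSys (hz.ht_lt hv).le (in_ht z))))))).exists
  rw [h5] at h4 h7
  rw [hc _ _ _ (h6.mono h7.le), if_pos h8, Option.map_some, map_tv] at h4
  exact (tv_eq_nil _).1 ((Option.some.inj h4).symm.trans (tv_pos h3))

/-- The extender at the top level is read off from the fibres. -/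
theorem ext (h : Los F N r v E) {x y : Ordinal.{u}} (hx : x < v) (hy : y < v) :
    ∀ᶠ i in F, ¬ Suc (r i v) ∧ N i (r i v) (r i x) (r i y) ↔ ¬ Suc v ∧ E v x y := by
  have hi : In v (node (leaf x) (leaf y)) := by simp [hx, hy]
  filter_upwards [h.los v le_rfl extc _ hi, in_ev h.toSys le_rfl hi] with i h1 h2
  rw [ev_extc hi, ev_extc h2, Option.map_some, map_tv] at h1
  have h3 := congrArg (· = Tr.nil) (Option.some.inj h1)
  simp only [tv_eq_nil, eq_iff_iff] at h3
  exact h3

end LosAct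

open LosAct in
instance : LosActSt.{u} := ⟨by
  intro I F N r v k t E g h hB kv tv hA T1 T2 T3
  have := h.ne
  have S := h.toSys
  have hv : ¬ Suc v := by
    rintro ⟨a, rfl⟩
    obtain ⟨i, h1, h2⟩ := (hA.and (h.suc a le_rfl)).exists
    exact not_suc h1 ⟨_, h2⟩
  have hl := limit_of_not_suc hv (zero_le.trans_lt kv).ne'
  choose! e ev he using T1
  replace he : ∀ x < t, ∀ᶠ i in F, r i (e x) = g i (r i x) := fun x hx =>
    (he x hx).mono fun _ => Eq.symm
  have hm : ∀ z, In t z → ∀ᶠ i in F, (z.map e).map (r i) = (z.map (r i)).map (g i) := fun z hz =>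
    ((eventually_all_finite (lv_finite z)).2 fun x hx => he x (hz x hx)).mono fun i hi => by
      rw [Tr.map_map, Tr.map_map]; exact Tr.map_congr hi
  have kt : k < t := lt_of S kv.le (hA.mono fun _ h => h.lt)
  have I1 := On.lab IsOp.id.{u}.fst
  have I2 := On.lab IsOp.id.{u}.snd
  have big : ω < k := df h hl (Df.omega_lt (On.lab IsOp.id)) (z := leaf k) (by simpa using kv)
    (hA.mono fun _ h => h.big)
  have mono : StrictMonoOn e (Set.Iio t) := fun x hx y hy hxy => lt_of S (ev x hx).le (by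
    filter_upwards [hA, he x hx, he y hy, h.mono x y hxy (hy.trans tv).le, h.mono x t hx tv.le,
      h.mono y t hy tv.le] with i h1 h2 h3 h4 h5 h6
    rw [h2, h3]; exact h1.weak.mono h5 h6 h4)
  have inm : ∀ z, In t z → In v (z.map e) := fun z hz y hy => by
    rw [lv_map] at hy
    obtain ⟨x, hx, rfl⟩ := hy
    exact ev x (hz x hx)
  refine ⟨e, ⟨⟨big.le, kt, ⟨mono, ev, fun b hb => ?_, fun b hb c x hx => ?_⟩, fun y hy => ?_,
    df h hl (Df.topC I1 I2) (z := node (leaf k) (leaf t)) (by simp [kv, tv])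
      (hA.mono fun _ h => h.top),
    df h hl (Df.isCard I2 I1) (z := node (leaf k) (leaf t)) (by simp [kv, tv])
      (hA.mono fun _ h => h.card)⟩, fun x y => ⟨fun h1 => ?_, ?_⟩, big, fun x hx => ?_, ?_, tv,
    fun a h1 h2 => ?_, fun l h1 h2 => ?_⟩, he⟩
  · obtain ⟨i, h1, h2⟩ := (hA.and (h.suc b (hb ▸ tv.le))).exists
    exact absurd ⟨_, hb ▸ h2⟩ (not_suc_dom h1)
  · have x1 : In (e b) (x.map e) := (in_map_iff (mono.mono fun a ha =>
      ha.elim (fun e => e ▸ hb) fun ha => (hx a ha).trans hb)).2 hx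
    have key : ∀ᶠ i in F, (KM.ev E (e b) c (x.map e)).map (Tr.map (r i)) =
        ((KM.ev E b c x).map (Tr.map (r i))).map (Tr.map (g i)) := by
      filter_upwards [hA, h.los _ (ev b hb).le c _ x1, h.los b (hb.trans tv).le c x hx, he b hb,
        hm x (hx.mono hb.le), h.mono b t hb tv.le, in_ev S (hb.trans tv).le hx]
        with i h1 h2 h3 h4 h5 h6 h7
      rw [← h2, ← h3, h4, h5]
      exact h1.weak.comm _ h6 c _ h7
    cases h1 : KM.ev E b c x with
    | none =>
      obtain ⟨i, h2⟩ := key.exists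
      rw [h1] at h2
      exact Option.map_eq_none_iff.1 h2
    | some w =>
      have w1 : In t w := (ev_in h1).mono hb.le
      obtain ⟨i, h2⟩ := key.exists
      rw [h1] at h2 key
      obtain ⟨w', h3, -⟩ := Option.map_eq_some_iff.1 h2
      have w2 : In v w' := (ev_in h3).mono (ev b hb).le
      rw [h3] at key ⊢
      obtain ⟨j, h4, h5, h6⟩ := (key.and ((hm w w1).and (smono S
        ((lv_finite w').union (lv_finite (w.map e))) fun a ha =>
          (ha.elim (w2 a) (inm w w1 a)).le))).exists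
      exact congrArg some ((map_inj h6.injOn).1 ((Option.some.inj h4).trans h5.symm))
  · obtain ⟨x, h1, h2⟩ := T2 y hy
    refine ⟨x, h1, lt_of S hy.le ?_⟩
    filter_upwards [h2, he x h1] with i h3 h4
    rwa [h4]
  · obtain ⟨h2, h3, -⟩ := hB v (lt_add_one v) x y h1
    have h4 : ∀ᶠ i in F, r i x < r i t ∧ r i y = g i (r i x) := by
      filter_upwards [hA, ext h h2 h3] with i h4 h5
      exact (h4.graph _ _).1 (h5.2 ⟨hv, h1⟩).2
    have h5 := lt_of S h2.le (h4.mono fun _ h => h.1)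
    refine ⟨h5, eq_of S h3.le (ev x h5).le ?_⟩
    filter_upwards [h4, he x h5] with i h6 h7
    rw [h6.2, h7]
  · rintro ⟨h1, rfl⟩
    obtain ⟨i, h2, h3, h4, h5⟩ := (hA.and ((ext h (h1.trans tv) (ev x h1)).and
      ((he x h1).and (h.mono x t h1 tv.le)))).exists
    exact (h3.1 ⟨not_suc h2, (h2.graph _ _).2 ⟨h5, h4⟩⟩).2
  · refine eq_of S (ev x (hx.trans kt)).le (hx.trans kv).le ?_
    filter_upwards [hA, he x (hx.trans kt), h.mono x k hx kv.le] with i h1 h2 h3
    rw [h2, h1.fix _ h3]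
  · refine lt_of S kv.le ?_
    filter_upwards [hA, he k kt] with i h1 h2
    exact h2 ▸ h1.move
  · refine df h hl (Df.olt I1 I2.rho) (z := node (leaf k) (leaf a)) (by simp [kv, h2]) ?_
    filter_upwards [hA, le_ev S h1 h2.le, h.mono a v h2 le_rfl] with i h3 h4 h5
    exact h3.next _ h4 h5
  · have lv := h2.trans (ev k kt)
    obtain ⟨f, a, y, h3, h4, h5, h6⟩ := T3 l lv h1 (by
      filter_upwards [he k kt, h.mono l _ h2 (ev k kt).le] with i h3 h4
      exact h3 ▸ h4)
    refine ⟨f, a, y, h3, h4, df h hl (Df.fv_eq Fn.id.fst Fn.id.snd.fst Fn.id.snd.snd)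
      (z := node (f.map e) (node a (leaf y))) (by simp [inm f h3, h4.mono lv.le, h5]) ?_,
      le_of S lv.le (h6.mono fun _ h => h.2.1), lt_of S h5.le ?_⟩
    · filter_upwards [h6, hm f h3] with i h7 h8
      simp only [map_node, map_leaf, fst_node, snd_node, h8]
      exact h7.1
    · filter_upwards [h6, he k kt] with i h7 h8
      exact h8 ▸ h7.2.2⟩

end Pool.Agent.KM
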