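import Pool.Agent.Lib.MP_5c0be7_lc.L.Los1
import Pool.Agent.Lib.MP_5c0be7_lc.O.FO3
import Pool.Agent.Lib.MP_5c0be7_lc.F.ActI
import Pool.Agent.Lib.MP_5c0be7_lc.K.Loc

/-!
Project KM, blocks F4, F5: reduced products of premice are premice.
-/

namespace Pool.Agent.KM

open Ordinal Tr Filter
open scoped Classical

universe u

namespace LosPm

variable {I : Type (u + 1)} {F : Filter I} {N : I → Seq.{u}} {r : I → Ordinal.{u} → Ordinal.{u}}
  {b v k t : Ordinal.{u}} {E : Seq.{u}} {K T : I → Ordinal.{u}}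
  {g : I → Ordinal.{u} → Ordinal.{u}}

theorem cf_ora {s : Tr.{u} → Tr.{u}} (hs : IsOp s) : CF fun E b z => tv (ora E b (s z)) :=
  Code.pre hs ActF.code_ext

theorem call_fv {f x : Tr.{u}} (i : In b f) :
    call (ev E) b (node f.fst (node f.snd.fst (node x f.snd.snd))) = opt (fv E f x) := by
  by_cases h : f.fst = leaf f.fst.lab
  · have : f.fst.lab < b := by have := i.fst; rw [h] at this; simpa using this
    simp [call, fv, ← h, this]
  · simp [call, fv, h]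

theorem small (h : Los F N r v E) (hv : ¬ Suc v) (hk : k < v)
    (H : ∀ᶠ i in F, Small (N i) (r i k)) : Small E k :=
  let ⟨_, h1, h2⟩ := h.ex (H.and (h.df (Df.small On.top) hv hk le_rfl (in_nil _)))
  h2.1 h1

theorem crit (h : Los F N r b E) (hv : v + 1 ≤ b) (hs : ¬ Suc v)
    (A : ∀ᶠ i in F, Act (N i) (r i v) (K i) (T i) (g i)) : ∃ k < v, ∀ᶠ i in F, r i k = K i := by
  have J := IsOp.id.{u}
  have vb : v ≤ b := le_self_add.trans hv
  have no : ∀ {i}, Act (N i) (r i v) (K i) (T i) (g i) →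
      ¬ ora (N i) (r i v) (node (leaf (K i)) (leaf (K i))) := fun a o =>
    a.move.ne (by simpa using ((ActF.ora_iff a).1 o).2)
  have hne : {x | x < v ∧ ¬ E v x x}.Nonempty := by
    obtain ⟨y, h1, ⟨x, h2⟩, h3⟩ := h.pull0 ((CF.op J.fst.isleaf).and
      (cf_ora (J.fst.pair J.fst)).not) hv (in_nil _) (h.fr (A.mono fun i a =>
        ⟨leaf (K i), by simpa using a.lt.trans a.dom, ⟨_, rfl⟩, no a⟩))
    obtain rfl : y = leaf x := h2
    exact ⟨x, by simpa using h1, fun h4 => h3 ⟨hs, h4⟩⟩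
  obtain ⟨h1, h2⟩ := csInf_mem hne
  refine ⟨_, h1, ?_⟩
  have h3 : ∀ᶠ i in F, r i (sInf {x | x < v ∧ ¬ E v x x}) ≤ K i := by
    by_contra h3
    obtain ⟨y, h4, ⟨x, h5⟩, ⟨z, h6, h7⟩, h8⟩ := h.pull0 ((CF.op J.fst.isleaf).and
      ((CF.op (J.snd.bd J.fst)).and (cf_ora (J.fst.pair J.fst)).not)) hv
      (x := leaf (sInf {x | x < v ∧ ¬ E v x x})) (by simpa using h1)
      (((not_eventually.1 h3).and_eventually A).mono fun i ⟨j, a⟩ =>
        ⟨leaf (K i), by simpa using a.lt.trans a.dom, ⟨_, rfl⟩,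
          ⟨_, rfl, by simpa using j⟩, no a⟩)
    obtain rfl : y = leaf x := h5
    cases h6
    exact absurd (csInf_le' (show x ∈ {x | x < v ∧ ¬ E v x x} from
      ⟨by simpa using h4, fun h4 => h8 ⟨hs, h4⟩⟩)) (not_le.2 (by simpa using h7))
  filter_upwards [A, h3, h.ext_neg vb hs h1 h1 h2] with i a h4 h5
  exact h4.antisymm (not_lt.1 fun h6 => h5 ((a.graph _ _).2 ⟨h6.trans a.lt, (a.fix _ h6).symm⟩))

theorem val (h : Los F N r b E) (hv : v + 1 ≤ b)
    (A : ∀ᶠ i in F, Act (N i) (r i v) (K i) (T i) (g i)) {x} (hx : x < v)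
    (H : ∀ᶠ i in F, r i x < T i) : ∃ y < v, ∀ᶠ i in F, g i (r i x) = r i y := by
  have J := IsOp.id.{u}
  obtain ⟨y, h1, h2⟩ := h.pull0 (cf_ora (J.snd.pair J.fst)) hv (x := leaf x) (by simpa using hx)
    (h.fr ((A.and H).mono fun i ⟨a, j⟩ => ⟨leaf (g i (r i x)), by simpa using a.weak.maps _ j,
      (ActF.ora_iff a).2 ⟨by simpa using j, rfl⟩⟩))
  have h3 := h.ora (le_self_add.trans hv) (x := node (leaf x) y) (by simp [hx, h1])
  cases y with
  | leaf y =>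
    refine ⟨y, by simpa using h1, ?_⟩
    filter_upwards [A, h3] with i a h4
    simpa using ((ActF.ora_iff a).1 (h4.2 h2)).2.symm
  | _ => exact h2.2.elim

theorem cof (h : Los F N r b E) (hv : v + 1 ≤ b) (hs : ¬ Suc v)
    (A : ∀ᶠ i in F, Act (N i) (r i v) (r i k) (r i t) (g i)) {y} (hy : y < v) :
    ∃ x < t, ∀ᶠ i in F, r i y < g i (r i x) := by
  have J := IsOp.id.{u}
  have vb : v ≤ b := le_self_add.trans hv
  have hB := CF.op (J.fst.snd.bd J.snd)
  have hA := (cf_ora (J.fst.fst.pair J.fst.snd)).and hB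
  obtain ⟨w, h1, h2, z, h3, h4⟩ := h.pull0 hA hv (x := leaf y) (by simpa using hy)
    (h.fr ((A.and (h.mono _ _ hy vb)).mono fun i ⟨a, j⟩ => by
      obtain ⟨x, h1, h2⟩ := a.cof _ j
      exact ⟨node (leaf x) (leaf (g i x)), by simp [h1.trans a.dom, a.weak.maps _ h1],
        (ActF.ora_iff a).2 ⟨by simpa using h1, rfl⟩, _, rfl, by simpa using h2⟩))
  simp only [fst_node, snd_node, in_leaf] at h2 h3 h4
  have h5 := h1.fst
  have h6 := h1.snd
  rw [h3] at h2 h6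
  cases h7 : w.fst with
  | leaf x =>
    rw [h7] at h2 h5
    rw [in_leaf] at h5 h6
    have h8 := (A.and (h.ext_pos vb hs h5 h6 h2.2)).mono fun i j => (j.1.graph _ _).1 j.2
    refine ⟨x, h.lt_of (h5.le.trans vb) (h.fr (h8.mono fun _ => And.left)), ?_⟩
    filter_upwards [h8, h.mono _ _ h4 (h6.le.trans vb)] with i j1 j2
    exact j1.2 ▸ j2
  | _ => rw [h7] at h2; exact h2.2.elim

theorem dom [DiagSt.{u}] (h : Los F N r b E) (hv : v + 1 ≤ b) (hs : ¬ Suc v) (hk : k < v)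
    (A : ∀ᶠ i in F, Act (N i) (r i v) (r i k) (T i) (g i)) : ∃ t < v, ∀ᶠ i in F, r i t = T i := by
  have J := IsOp.id.{u}
  have vb : v ≤ b := le_self_add.trans hv
  obtain ⟨y, h1, h2⟩ := val h hv A hk (A.mono fun _ a => a.lt)
  have h3 : ∀ᶠ i in F, T i < r i y ∧ IsNext (N i) (r i y) (r i k) (T i) := by
    filter_upwards [A, h2, h.ls_le vb] with i a j l
    have := j ▸ ActF.lt l a
    exact ⟨this, a.lt, this.le, a.top, KL.noProj_mono a.next (j ▸ a.weak.maps _ a.lt).le⟩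
  have ky : k < y := h.lt_of (hk.le.trans vb) (h.fr (h3.mono fun _ j => j.2.1.trans j.1))
  obtain ⟨_, j1, j2⟩ := h.ex (h3.and (h.df (Df.oex (Q := fun E b x z => IsNext E b z.lab x)
    On.top (Df.isNext On.top (On.lab J.snd) (On.lab J.fst))) hs h1 vb (x := leaf k)
    (by simpa using ky)))
  obtain ⟨t, h4, h5⟩ := j2.1 ⟨_, j1⟩
  refine ⟨t, h4.trans h1, ?_⟩
  filter_upwards [h3, h.df (Df.isNext On.top (On.lab J.snd) (On.lab J.fst)) hs h1 vb
    (x := node (leaf t) (leaf k)) (by simp [ky, h4])] with i j3 j4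
  have j5 : IsNext (N i) (r i y) (r i k) (r i t) := j4.2 h5
  exact (KL.top_le j5.2.2.1 (KL.noProj_mono j3.2.2.2.2 j5.2.1)).antisymm
    (KL.top_le j3.2.2.2.1 (KL.noProj_mono j5.2.2.2 j3.1.le))

theorem typeA (h : Los F N r b E) (hv : v + 1 ≤ b) (ht : t < v) (hk : k < v)
    (A : ∀ᶠ i in F, Act (N i) (r i v) (r i k) (r i t) (g i)) {l} (hl : l < v) (kl : k < l)
    (H : ∀ᶠ i in F, r i l < g i (r i k)) : ∃ f a y, In t f ∧ In l a ∧ y < v ∧
      ∀ᶠ i in F, fv (N i) ((f.map (r i)).map (g i)) (a.map (r i)) = some (leaf (r i y)) ∧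
        r i l ≤ r i y ∧ r i y < g i (r i k) := by
  have J := IsOp.id.{u}
  have vb : v ≤ b := le_self_add.trans hv
  obtain ⟨m, m1, m2⟩ := val h hv A hk (A.mono fun _ a => a.lt)
  have hB := CF.op (J.snd.snd.bd J.fst.snd.snd)
  have hA := (cf_ora (J.fst.fst.fst.pair J.fst.fst.snd)).and
    ((CF.op (J.snd.fst.bd J.fst.snd.fst)).and (((CF.op (J.fst.fst.snd.fst.pair
      (J.fst.fst.snd.snd.fst.pair (J.fst.snd.fst.pair J.fst.fst.snd.snd.snd)))).call.eq
        (CF.op (IsOp.nil.pair J.fst.snd.snd))).and ((CF.op J.fst.snd.snd.isleaf).and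
          ((CF.op (J.snd.fst.bd J.fst.snd.snd)).not.and hB))))
  obtain ⟨w, h1, h2, h3, h4, ⟨y, h5⟩, h6, h7⟩ := h.pull0 hA hv (x := node (leaf l) (leaf m))
    (by simp [hl, m1]) (h.fr (by
      filter_upwards [A, H, m2, h.mono _ _ kl (hl.le.trans vb), h.mono _ _ hl vb]
        with i a j1 j2 j3 j4
      obtain ⟨f, x, y, g1, g2, g3, g4, g5⟩ := a.typeA _ j3 j1
      have g6 := KE.w_in a.weak g1
      refine ⟨node (node f (f.map (g i))) (node x (leaf y)), by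
        simp [g1.mono a.dom.le, g6, g2.mono j4.le, g5.trans (a.weak.maps _ a.lt)],
        (ActF.ora_iff a).2 ⟨g1, rfl⟩, ⟨_, rfl, g2⟩, ?_, ⟨_, rfl⟩, by simpa using g4,
        ⟨_, rfl, by simpa [← j2] using g5⟩⟩
      simp only [fst_node, snd_node]
      rw [call_fv g6, g3]; rfl))
  replace h5 : w.snd.snd = leaf y := h5
  simp only [fst_node, snd_node, h5, leaf.injEq, exists_eq_left', in_leaf, not_lt] at h2 h3 h4 h6 h7
  rw [call_fv h1.fst.snd, opt_eq_node] at h4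
  have h8 := (A.and (h.ora vb (x := node w.fst.fst w.fst.snd)
    (by simp [h1.fst.fst, h1.fst.snd]))).mono fun i j => (ActF.ora_iff j.1).1 (j.2.2 h2)
  refine ⟨w.fst.fst, w.snd.fst, y, h.in_of (ht.le.trans vb) (h1.fst.fst.succ vb)
    (h.fr (h8.mono fun _ => And.left)), h3, h7.trans m1, ?_⟩
  filter_upwards [h8, m2, h.fv (h1.fst.snd.succ vb) (h1.snd.fst.succ vb),
    h.mono_le h6 ((h7.trans m1).le.trans vb), h.mono _ _ h7 (m1.le.trans vb)] with i j1 j2 j3 j4 j5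
  rw [← j1.2, j3, h4, j2]
  exact ⟨rfl, j4, j5⟩

variable [DiagSt.{u}] [LosActSt.{u}]

theorem act (h : Los F N r b E) (hb : Bdd E b) (H : ∀ᶠ i in F, PM0 (N i) (r i b)) (hv : v < b)
    {x y} (hx : E v x y) : ∃ k t e, Act E v k t e ∧ k < v ∧
      ∀ᶠ i in F, ∃ g, Act (N i) (r i v) (r i k) (r i t) g := by
  obtain ⟨h1, h2, hs⟩ := hb v hv x y hx
  have hv' := Order.add_one_le_iff.2 hv
  have : ∀ i, ∃ K T g, PM0 (N i) (r i b) → r i v < r i b → N i (r i v) (r i x) (r i y) →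
      Act (N i) (r i v) K T g := fun i => by
    by_cases j : ∃ K T g, Act (N i) (r i v) K T g
    · exact let ⟨K, T, g, a⟩ := j; ⟨K, T, g, fun _ _ _ => a⟩
    · exact ⟨0, 0, id, fun p q s => absurd s ((p.act _ q).resolve_right j _ _)⟩
  choose K T g hg using this
  have A : ∀ᶠ i in F, Act (N i) (r i v) (K i) (T i) (g i) := by
    filter_upwards [H, h.mono _ _ hv le_rfl, h.ext_pos hv.le hs h1 h2 hx] with i using hg i
  obtain ⟨k, k1, k2⟩ := crit h hv' hs A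
  replace A := (A.and k2).mono fun i j => (j.2 ▸ j.1 : Act (N i) (r i v) (r i k) (T i) (g i))
  obtain ⟨t, t1, t2⟩ := dom h hv' hs k1 A
  replace A := (A.and t2).mono fun i j => (j.2 ▸ j.1 : Act (N i) (r i v) (r i k) (r i t) (g i))
  obtain ⟨e, h3, -⟩ := LosActSt.act (h.restrict hv.le) (fun w j => hb w (j.trans_le hv')) k1 t1 A
    (fun x j => val h hv' A (j.trans t1) (h.mono _ _ j (t1.le.trans hv.le)))
    (fun y j => cof h hv' hs A j) fun l j1 j2 => typeA h hv' t1 k1 A j1 j2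
  exact ⟨k, t, e, h3, k1, A.mono fun i a => ⟨_, a⟩⟩

theorem pm0 (h : Los F N r b E) (hb : Bdd E b) (H : ∀ᶠ i in F, PM0 (N i) (r i b)) : PM0 E b :=
  ⟨h.ls', fun v hv => (em (Pas E v)).imp_right fun j => by
    simp only [Pas, not_forall, not_not] at j
    obtain ⟨x, y, j⟩ := j
    obtain ⟨k, t, e, a, -⟩ := act h hb H hv j
    exact ⟨k, t, e, a⟩⟩

theorem pm (h : Los F N r b E) (hb : Bdd E b) (H : ∀ᶠ i in F, PM (N i) (r i b)) : PM E b := by
  have H0 := H.mono fun _ p => p.toPM0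
  refine ⟨pm0 h hb H0, fun v hv k t e a => ?_⟩
  obtain ⟨k', t', e', a', h1, h2⟩ := act h hb H0 hv ((a.graph _ _).2 ⟨a.lt, rfl⟩)
  rw [(KL.act_uniq a a').1]
  refine small (h.restrict hv.le) (ActF.lim a) h1 ?_
  filter_upwards [H, h2, h.mono _ _ hv le_rfl] with i p ⟨g, j1⟩ j2 using p.small _ j2 _ _ g j1

end LosPm

instance [DiagSt.{u}] [LosActSt.{u}] : LosPmSt.{u} := ⟨LosPm.pm0, LosPm.pm, LosPm.small⟩

end Pool.Agent.KM
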