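import Pool.Agent.Lib.MP_5c0be7_lc.O.Api
import Pool.Agent.Lib.MP_5c0be7_lc.K.GoodI
import Pool.Agent.Lib.MP_5c0be7_lc.F.CutI

/-!
Project KM: predicates of a level that are semi-decided at the next level.
-/

namespace Pool.Agent.KM

open Ordinal Tr
open scoped Classical

universe u

/-- `A` is semi-decided at the next level, for inputs of the next level. -/
def S1 (A : PR.{u}) : Prop :=
  ∃ c : Tr.{u}, c.erase = c ∧ ∀ E b z, In (b + 1) z → ((ev E (b + 1) c z).isSome ↔ A E b z)

namespace S1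

variable {A B : PR.{u}} {s : Tr.{u} → Tr.{u}}

theorem congr (h : S1 A) (e : ∀ E b z, In (b + 1) z → (A E b z ↔ B E b z)) : S1 B :=
  let ⟨c, h1, h2⟩ := h; ⟨c, h1, fun E b z i => (h2 E b z i).trans (e E b z i)⟩

theorem pre (h : S1 A) (hs : IsOp s) : S1 fun E b z => A E b (s z) := by
  obtain ⟨c, h1, h2⟩ := h
  obtain ⟨d, h3, h4⟩ := (Code.self h1).pre hs
  exact ⟨d, h3, fun E b z i => by rw [h4 E _ z i]; exact h2 E b _ (hs.mem i)⟩

theorem and (h : S1 A) (h' : S1 B) : S1 fun E b z => A E b z ∧ B E b z := by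
  obtain ⟨c, h1, h2⟩ := h
  obtain ⟨d, h3, h4⟩ := h'
  exact ⟨pairc c d, erase_of_lv (by simp [erase_eq_self.1 h1, erase_eq_self.1 h3]),
    fun E b z i => by rw [ev_pairc_isSome, h2 E b z i, h4 E b z i]⟩

theorem test (h : CF fun E b z => tv (A E b z)) : S1 fun E b z => A E (b + 1) z := by
  obtain ⟨c, h1, h2⟩ := ActF.code_test h
  refine ⟨c, h1, fun E b z i => ?_⟩
  rw [h2 E _ z i]; dsimp only; split_ifs with k <;> simp [k]

theorem rho : S1.{u} fun E b z => In (rho E b) z :=
  ⟨ltr, erase_of_lv lv_ltr, fun E b z i => by rw [ev_ltr i]; split_ifs with k <;> simp [k]⟩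

theorem bod (P : Bd) : S1.{u} fun E b z => In (KM.rho E b) z.fst ∧ bod E b P z.snd z.fst ≠ .nil := by
  obtain ⟨d, h3, h4⟩ := ((Code.self (erase_of_lv (lv_bodc.{u} P))).pre
    (IsOp.id.fst.pair IsOp.id.snd)).post (IsOp.id.fst.ite_nil IsOp.nil (IsOp.nil.pair IsOp.nil))
  refine ⟨d, h3, fun E b z i => ?_⟩
  rw [h4 E _ z i]; dsimp only
  rw [ev_bodc P (by simp [i.fst, i.snd])]
  split_ifs with k
  · by_cases j : KM.bod E b P z.snd z.fst = .nil <;> simp [k, j]
  · simp [k]

/-- A body that tests names of theories. -/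
theorem names : ∃ P : Bd, ∀ (E : Seq.{u}) b t x k, In b t → In b x → k ≤ b →
    (KM.bod E b P (node t x) (leaf k) ≠ .nil ↔ ∀ q, In k q → (Nm E t q ↔ Th E b x q)) := by
  refine ⟨.pre (.pair .id .nil) (.bex (.post (.comp .eq .fst) (.pair
    (.pre (.pair (.const (prec (.pair .fst (.comp .fst (.comp .dec (.pair .nil .fs)))) nmc : Tr.{u}))
      .fst) .orc)
    (.pre (.pair (Op.mkc.{u} (.comp (.pair .fst (.comp .snd (.comp .dec (.pair .nil .fs)))) .snd)
      .ff (.const (opc .nil : Tr.{u}))) .sf) .orc)))), fun E b t x k ht hx hk => ?_⟩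
  have i : In b (node t x) := by simp [ht, hx]
  have i1 : In (b + 1) (node t x) := i.mono le_self_add
  have e := dec_enc_of_notMem ((in_iff_notMem i1).1 i) .nil
  have l : ∀ q : Tr.{u}, Lt q (leaf k) ↔ In k q := fun q => by
    refine ⟨fun h => ?_, fun h => Or.inl (KE.lt1 h.ht_le)⟩
    rcases h with h | ⟨h1, h2⟩
    · exact ht_le_iff.1 (KE.le1 h)
    · cases q with
      | nil => simp
      | leaf a => exact (in_leaf _ _).2 (CutI.lt_leaf.1 (Or.inr ⟨h1, h2⟩))
      | node l r =>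
        rw [List.shortlex_def] at h2
        cases l <;> simp [ser] at h2
  simp only [bod_eq, drun_pre, drun_bex, drun_post, drun_pair, drun_orc, bop_pair, bop_id, bop_nil,
    bop_comp, bop_fst, bop_eq, bop_mkc, bop_ff, bop_sf, fst_node, snd_node, ne_eq, tv_eq_nil,
    not_exists, not_and, not_not, l, bop_const (lv_opc _),
    bop_const ((lv_prec _ _).trans lv_nmc)]
  refine forall₂_congr fun q hq => ?_
  have hq' := hq.mono hk
  have a1 : Th E b (dn E b (node t x))
      (node (prec (.pair .fst (.comp .fst (.comp .dec (.pair .nil .fs)))) nmc) q) ↔ Nm E t q := by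
    rw [← ev_nmc hq' ht]
    simp only [ThL, fst_node, snd_node]
    rw [ev_prec _ _ (by simp [hq', in_dn E i1])]
    simp [dn_eq, e]
  have a2 : Th E b (dn E b (node t x)) (node (cmp (.comp (.pair .fst (.comp .snd
      (.comp .dec (.pair .nil .fs)))) .snd) q.fst (opc .nil)) q.snd) ↔ Th E b x q := by
    simp only [ThL, fst_node, snd_node]
    rw [ev_pre _ _ (by simp [hq'.snd, in_dn E i1])]
    simp [dn_eq, e]
  rw [a1, a2]
  by_cases j1 : Nm E t q <;> by_cases j2 : Th E b x q <;> simp [j1, j2, tv, Tr.one]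

end S1

end Pool.Agent.KM
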