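import Pool.Agent.Lib.MP_5c0be7_lc.L.StLos

/-!
Project KM: collapse of a well-founded weak order on a small type.
-/

namespace Pool.Agent.KM

open Ordinal Tr

universe u

namespace Rank

theorem rank0 {P : Type u} (lt : P → P → Prop) (wf : WellFounded lt)
    (h : ∀ p q s, lt p q → lt p s ∨ lt s q) : ∃ (b : Ordinal.{u}) (rk : P → Ordinal.{u}),
      (∀ p, rk p < b) ∧ (∀ x < b, ∃ p, rk p = x) ∧ ∀ p q, rk p < rk q ↔ lt p q := by
  have : IsWellFounded P lt := ⟨wf⟩
  refine ⟨⨆ p, (IsWellFounded.rank lt p + 1), IsWellFounded.rank lt, fun p => ?_, fun x hx => ?_,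
    fun p q => ⟨fun hr => ?_, IsWellFounded.rank_lt_of_rel⟩⟩
  · exact (lt_add_one _).trans_le (Ordinal.le_iSup (fun p => IsWellFounded.rank lt p + 1) p)
  · obtain ⟨p, hp⟩ := Ordinal.lt_iSup_iff.1 hx
    exact IsWellFounded.mem_range_rank_of_le (Order.lt_add_one_iff.1 hp)
  · by_contra hn
    refine absurd hr (not_lt.2 ?_)
    rw [IsWellFounded.rank_eq lt q]
    exact Ordinal.iSup_le fun s => Order.succ_le_of_lt
      (IsWellFounded.rank_lt_of_rel ((h s.1 q p s.2).resolve_right hn))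

end Rank

instance : RankSt.{u} := ⟨fun {P} _ lt wf h => by
  let e := (equivShrink.{u} P).symm
  obtain ⟨b, rk, h1, h2, h3⟩ := Rank.rank0 (fun p q => lt (e p) (e q)) (InvImage.wf e wf)
    fun p q s => h _ _ _
  refine ⟨b, fun p => rk (e.symm p), fun p => h1 _, fun x hx => ?_, fun p q => ?_⟩
  · obtain ⟨p, hp⟩ := h2 x hx
    exact ⟨e p, by simpa using hp⟩
  · simpa using h3 (e.symm p) (e.symm q)⟩

end Pool.Agent.KM
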