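import Pool.Agent.Lib.MP_5c0be7_lc.L.UltFact
import Pool.Agent.Lib.MP_5c0be7_lc.O.FO2

/-!
Project KM, block F5: realisation of an ultrapower along a thread, and uniqueness.
-/

namespace Pool.Agent.KM

open Ordinal Tr UltFact
open scoped Classical

universe u

namespace RealI

variable {E E' E2 : Seq.{u}} {b k : Ordinal.{u}} {i j s th : Ordinal.{u} → Ordinal.{u}}

/-- A map that commutes with level `b` commutes with all lower levels. -/
theorem weak_of_comm (h : Comm E b E' (s b) s) : Weak E (b + 1) E' (s b + 1) s := by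
  have h1 : ∀ a < b, s a < s b := fun a ha => by
    have hi : In b (leaf a) := by simpa using ha
    have h0 := h (opc .id) (leaf a) hi
    rw [ev_opc _ hi] at h0
    simpa using in_of_ev_eq h0
  have h2 : ∀ a a', a < a' → a' < b → s a < s a' := fun a a' ha ha' => by
    have hi : In b (node (leaf a') (leaf a)) := by simp [ha', ha.trans ha']
    have h0 := congrArg Option.isSome (h (tst .bd) _ hi)
    rw [Option.isSome_map, (ev_tst_isSome _ hi).2 (by simpa [bop] using ha)] at h0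
    simpa [bop] using (ev_tst_isSome _ (in_of_ev h0)).1 h0
  refine ⟨fun a ha a' ha' hl => ?_, fun a ha => ?_, fun c hc => by rw [KE.s1inj hc],
    fun a ha => ?_⟩
  · rcases (KE.le1 ha').eq_or_lt with rfl | h3
    exacts [h1 a hl, h2 a a' hl h3]
  · rcases (KE.le1 ha).eq_or_lt with rfl | h3
    exacts [lt_add_one _, (h1 a h3).trans (lt_add_one _)]
  · rcases (KE.le1 ha).eq_or_lt with rfl | h3
    · exact h
    · intro c x hx
      have h4 := h callc (node (leaf a) (node c.erase x)) (by simp [h3, hx.mono h3.le])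
      simp only [map_node, map_leaf, map_erase] at h4
      rwa [ev_callc (h1 a h3) _ (in_erase _ _), ev_callc h3 _ (in_erase _ _), ev_erase,
        ev_erase] at h4

/-- A name is replaced by a name below `t`, uniformly along maps that preserve inclusions. -/
theorem low {d t x : Ordinal.{u}} {T : Tr.{u}} (hT : In d T) (ht : t ≤ d)
    (h : Named E t x (Nm E T)) : ∃ T', In t T' ∧ ∀ E2 j, UpInc E d E2 j x →
      ∀ q, In (j x) q → (Nm E2 (T'.map j) q ↔ Nm E2 (T.map j) q) :=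
  let ⟨T', h1, h2⟩ := h
  ⟨T', h1, fun _ _ H q hq => ⟨H _ _ (h1.mono ht) hT (fun v hv => (h2 v hv).1) q hq,
    H _ _ hT (h1.mono ht) (fun v hv => (h2 v hv).2) q hq⟩⟩

/-- The set of points whose sections are included in each other is named, uniformly. -/
theorem incl {x : Ordinal.{u}} {T N : Tr.{u}} (l : LS E (b + 1)) (hx : x < rho E b)
    (hT : In (b + 1) T) (hN : In (b + 1) N) : ∃ n, In (b + 1) n ∧ ∀ E2 j,
      Weak E (b + 1) E2 (j b + 1) j → LS E2 (j b + 1) → UpInc E (b + 1) E2 j x → ∀ a, In (j x) a →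
      (Nm E2 (n.map j) a ↔
        ∀ v, In (j x) v → Nm E2 (T.map j) (node a v) → Nm E2 (N.map j) (node a v)) := by
  have hr : rho E b ≤ b + 1 := (rho_le E b).trans le_self_add
  obtain ⟨T', h1, h2⟩ := low hT hr (AccSt.room E b x _ (l.mono le_self_add) hx
    ⟨T, hT, fun _ _ => Iff.rfl⟩)
  obtain ⟨N', h3, h4⟩ := low hN hr (AccSt.room E b x _ (l.mono le_self_add) hx
    ⟨N, hN, fun _ _ => Iff.rfl⟩)
  have I := Fn.id.{u}
  obtain ⟨n, c, c1, c2⟩ := (Df.ball (P := fun E _ v w => Nm E w.snd.snd.fst (node w.fst v) →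
      Nm E w.snd.snd.snd (node w.fst v)) (On.lab IsOp.id.snd.fst)
    ((Df.nm I.snd.snd.snd.fst (I.snd.fst.pair I.fst)).imp
      (Df.nm I.snd.snd.snd.snd (I.snd.fst.pair I.fst)))).name
  have hz : In (rho E b) (node (leaf x) (node T' N')) := by simp [hx, h1, h3]
  have hm := hz.ht_lt (limit_of_not_suc (F3.rho_lim E b) (zero_le.trans_lt hx).ne')
  have hz' := in_ht (node (leaf x) (node T' N'))
  generalize (node (leaf x) (node T' N')).ht = m at hm hz'
  have hn := (add_nat_lt (F3.rho_lim E b) hm n).trans_le hr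
  have hm' := hm.trans_le hr
  refine ⟨node (leaf (m + n)) (node c (node (leaf x) (node T' N'))),
    by simp [hn, in_of_lf c1, hx.trans_le hr, h1.mono hr, h3.mono hr], fun E2 j w l2 up a ha => ?_⟩
  have h5 := (w.in_map hm' (hz.mono hr)).2 hz'
  rw [map_node, map_node, map_leaf, w.add_nat n hn, ← c1, map_erase, c1,
    c2 E2 _ _ a (l2.mono (w.add_nat n hn ▸ (w.maps _ hn).le)),
    and_iff_right ((in_node _ _ _).2 ⟨ha.mono (le_of_lt (by simpa using h5.fst)), h5⟩)]
  refine forall₂_congr fun v hv => ?_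
  have h6 : In (j x) (node a v) := (in_node _ _ _).2 ⟨ha, hv⟩
  exact imp_congr (h2 E2 j up _ h6) (h4 E2 j up _ h6)

/-- The data of a realisation. -/
structure Cx (E E' E2 : Seq.{u}) (b k : Ordinal.{u}) (i j th : Ordinal.{u} → Ordinal.{u}) :
    Prop where
  ult : IsUlt E b k E' i
  wk : Weak E (b + 1) E2 (j b + 1) j
  lt : ∀ z < i k, th z < j k
  thr : ∀ n a, In (b + 1) n → In (i k) a → (Nm E' (n.map i) a ↔ Nm E2 (n.map j) (a.map th))

/-- `x` and `x'` have the same description. -/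
def R (E' E2 : Seq.{u}) (b k : Ordinal.{u}) (i j th : Ordinal.{u} → Ordinal.{u}) (x x' : Tr.{u}) :
    Prop :=
  ∃ c z a, In b z ∧ In (i k) a ∧ ev E' (i b) c (node a (z.map i)) = some x ∧
    ev E2 (j b) c (node (a.map th) (z.map j)) = some x'

variable (h : Cx E E' E2 b k i j th) {x x' y y' : Tr.{u}}
include h

theorem key (c : Tr.{u}) {z a : Tr.{u}} (hz : In b z) (ha : In (i k) a) :
    (ev E' (i b) c (node a (z.map i))).isSome ↔
      (ev E2 (j b) c (node (a.map th) (z.map j))).isSome := by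
  simpa [NmL] using h.thr (node (leaf b) (node c.erase z)) a (by simp [hz.mono le_self_add]) ha

theorem total (hx : In (i b) x) : ∃ x', R E' E2 b k i j th x x' := by
  obtain ⟨c, z, a, h1, h2, h3⟩ := tree h.ult hx
  obtain ⟨x', h4⟩ := Option.isSome_iff_exists.1 ((key h c h1 h2).1 (by simp [h3]))
  exact ⟨x', c, z, a, h1, h2, h3, h4⟩

theorem app_some (r : R E' E2 b k i j th x x') (c : Tr.{u}) :
    (ev E' (i b) c x).isSome ↔ (ev E2 (j b) c x').isSome := by
  obtain ⟨d, z, a, h1, h2, h3, h4⟩ := r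
  simpa [ev_cmp, h3, h4, bop] using key h (cmp .fst c d) h1 h2

omit h in
theorem app (r : R E' E2 b k i j th x x') {c : Tr.{u}} (e : ev E' (i b) c x = some y)
    (e' : ev E2 (j b) c x' = some y') : R E' E2 b k i j th y y' := by
  obtain ⟨d, z, a, h1, h2, h3, h4⟩ := r
  exact ⟨cmp .fst c d, z, a, h1, h2, by simpa [ev_cmp, h3, bop] using e,
    by simpa [ev_cmp, h4, bop] using e'⟩

omit h in
theorem pair (r : R E' E2 b k i j th x x') (r' : R E' E2 b k i j th y y') :
    R E' E2 b k i j th (node x y) (node x' y') := by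
  obtain ⟨c, z, a, h1, h2, h3, h4⟩ := r
  obtain ⟨c', z', a', h5, h6, h7, h8⟩ := r'
  have H : ∀ {E : Seq.{u}} {d a z a' z' x y}, ev E d c (node a z) = some x →
      ev E d c' (node a' z') = some y → ev E d (pairc (prec (.pair .ff .fs) c)
        (prec (.pair .sf .ss) c')) (node (node a a') (node z z')) = some (node x y) := by
    intro E d a z a' z' x y e e'
    have i1 := in_of_ev_eq e
    have i2 := in_of_ev_eq e'
    rw [in_node] at i1 i2
    have hi : In d (node (node a a') (node z z')) := by simp [i1, i2]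
    exact ev_pairc_some (by rw [ev_prec _ _ hi]; exact e) (by rw [ev_prec _ _ hi]; exact e')
  exact ⟨_, node z z', node a a', by simp [h1, h5], by simp [h2, h6], H h3 h7, H h4 h8⟩

theorem test (r : R E' E2 b k i j th x x') (o : Op) : bop o x = .nil ↔ bop o x' = .nil := by
  have h0 := app_some h r (tst o)
  obtain ⟨d, z, a, h1, h2, h3, h4⟩ := r
  rwa [ev_tst_isSome _ (ev_in h3), ev_tst_isSome _ (ev_in h4)] at h0

theorem uniq (r : R E' E2 b k i j th x x') (r' : R E' E2 b k i j th x y') : x' = y' := by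
  simpa [bop] using test h (pair r r') .eq

theorem base {z a : Tr.{u}} (hz : In b z) (ha : In (i k) a) (o : Op) :
    R E' E2 b k i j th (bop o (node a (z.map i))) (bop o (node (a.map th) (z.map j))) :=
  ⟨opc o, z, a, hz, ha, ev_opc _ ((in_node _ _ _).2
    ⟨ha.mono (lt_top h.ult.toWeak (k_lt h.ult)).le, in_top h.ult.toWeak hz⟩),
    ev_opc _ ((in_node _ _ _).2 ⟨KE.in_map fun w hw =>
      (h.lt w (ha w hw)).trans (lt_top h.wk (k_lt h.ult)), in_top h.wk hz⟩)⟩

/-- The realising map. -/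
theorem ex : ∃ s, (∀ x ≤ b, s (i x) = j x) ∧ (∀ z < i k, s z = th z) ∧
    Weak E' (i b + 1) E2 (s (i b) + 1) s ∧ ∀ x, In (i b) x → R E' E2 b k i j th x (x.map s) := by
  have h0 : ∀ y, ∃ y', (y < i b → R E' E2 b k i j th (leaf y) (leaf y')) ∧ (y = i b → y' = j b) := by
    intro y
    by_cases hy : y < i b
    · obtain ⟨x', r⟩ := total h (x := leaf y) (by simpa using hy)
      obtain ⟨y', rfl⟩ : ∃ a, x' = leaf a := by simpa [bop] using test h r .isleaf
      exact ⟨y', fun _ => r, fun e => absurd e hy.ne⟩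
    · exact ⟨j b, fun e => absurd e hy, fun _ => rfl⟩
  choose s h1 h2 using h0
  have h3 : ∀ x, In (i b) x → R E' E2 b k i j th x (x.map s) := by
    intro x hx
    induction x with
    | nil => exact base h (in_nil _) (in_nil _) .nil
    | leaf y => exact h1 y (by simpa using hx)
    | node l r ihl ihr => exact pair (ihl hx.fst) (ihr hx.snd)
  refine ⟨s, fun x hx => ?_, fun z hz => ?_, weak_of_comm fun c x hx => ?_, h3⟩
  · rcases hx.eq_or_lt with rfl | hx
    · exact h2 _ rfl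
    · exact leaf.inj (uniq h (h1 _ (lt_top h.ult.toWeak hx))
        (base h (z := leaf x) (by simpa using hx) (in_nil _) .snd))
  · exact leaf.inj (uniq h (h1 _ (hz.trans (lt_top h.ult.toWeak (k_lt h.ult))))
      (base h (a := leaf z) (in_nil _) (by simpa using hz) .fst))
  · rw [h2 _ rfl]
    have h4 := app_some h (h3 x hx) c
    cases e : ev E' (i b) c x with
    | none => simpa [e] using h4
    | some y =>
      obtain ⟨y', e'⟩ := Option.isSome_iff_exists.1 (h4.1 (by simp [e]))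
      rw [e', uniq h (app (h3 x hx) e e') (h3 y (ev_in e))]; rfl

omit h

theorem cof_top (h : IsUlt E b k E' i) {y : Ordinal.{u}} (hy : y < i b) : ∃ c < b, y ≤ i c := by
  by_cases hs : Suc b
  · obtain ⟨c, rfl⟩ := hs
    rw [KE.w_succ h.toWeak (lt_add_one _)] at hy
    exact ⟨c, lt_add_one c, KE.le1 hy⟩
  · by_cases hs' : Suc (i b)
    · obtain ⟨t, -, t2, t3⟩ := Code.top.{u}
      obtain ⟨c, hc⟩ := hs'
      have h1 := h.comm b (lt_add_one b) t .nil (in_nil _)
      rw [t3 E b _ hs, hc, map_nil, t2 E' c _ (in_nil _)] at h1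
      simp at h1
    · obtain ⟨x, h1, h2⟩ := (cof h).cof y (((h.pm'.ls _ (lt_add_one _)).2 hs').symm ▸ hy)
      exact ⟨x, h1.trans_le (rho_le E b), h2⟩

theorem card (h : IsUlt E b k E' i) (hj : Good E b E2 j) (l : LS E2 (j b + 1))
    (w : Weak E' (i b + 1) E2 (s (i b) + 1) s) (hs : ∀ x ≤ b, s (i x) = j x) {k' t' : Ordinal.{u}}
    (ht : t' < i b) (H : ∀ a, t' ≤ a → a < i b → k' ≤ rho E' a) :
    ∀ a, s t' ≤ a → a < s (i b) → s k' ≤ rho E2 a := by
  intro a h1 h2
  obtain ⟨c, c1, c2⟩ := cof_top h ht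
  have hk : k' ≤ t' := (H t' le_rfl ht).trans (rho_le E' t')
  have hc := lt_top h.toWeak c1
  rcases lt_or_ge a (s (i c)) with h3 | h3
  · exact GoodI.card (h.pm'.ls _ (hc.trans (lt_add_one _))).1
      (l _ (hs b le_rfl ▸ w.maps _ (hc.trans (lt_add_one _)))).1
      (KE.weak_restrict w (KE.s1lt hc)) (hk.trans c2) c2 (fun a h4 h5 => H a h4 (h5.trans hc)) a h1 h3
  · obtain ⟨g, ⟨a0, ⟨g1, g2⟩, rfl⟩, g3⟩ := wellFounded_lt.has_min (rho E '' Set.Ico c b)
      ⟨_, c, ⟨le_rfl, c1⟩, rfl⟩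
    have g4 : rho E a0 < b := (rho_le E a0).trans_lt g2
    rw [hs c c1.le] at h3
    rw [hs b le_rfl] at h2
    refine le_trans ?_ (hj.card _ c g4 c1 (fun a h4 h5 => not_lt.1 (g3 _ ⟨a, ⟨h4, h5⟩, rfl⟩)) a h3 h2)
    rw [← hs _ g4.le, KE.w_le w ((hk.trans_lt ht).trans (lt_add_one _))
      ((lt_top h.toWeak g4).trans (lt_add_one _))]
    refine (H (i a0) (c2.trans ((KE.w_le h.toWeak (KE.lt1 c1.le) (KE.lt1 g2.le)).2 g1))
      (lt_top h.toWeak g2)).trans (not_lt.1 fun h4 => ?_)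
    exact lt_irrefl _ ((KE.strong_rho h.toStrong g2.le g4.le).1 h4)

theorem inc (h : Cx E E' E2 b k i j th) (hj : Good E b E2 j) (l : LS E2 (j b + 1))
    (w : Weak E' (i b + 1) E2 (s (i b) + 1) s) (hs : ∀ x ≤ b, s (i x) = j x)
    (hr : ∀ x, In (i b) x → R E' E2 b k i j th x (x.map s)) {k' : Ordinal.{u}}
    (hk : k' < rho E' (i b)) : UpInc E' (i b + 1) E2 s k' := by
  intro t n ht hn H v hv h1
  have U := h.ult
  obtain ⟨x0, x1, x2⟩ := (cof U).cof k' hk
  have hx : max k x0 < rho E b := max_lt U.lt x1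
  have hxb := hx.trans_le (rho_le E b)
  have m1 : ∀ {E2 j}, Weak E (b + 1) E2 (j b + 1) j → j k ≤ j (max k x0) ∧ j x0 ≤ j (max k x0) :=
    fun w => ⟨(KE.w_le w (KE.lt1 (k_lt U).le) (KE.lt1 hxb.le)).2 (le_max_left _ _),
      (KE.w_le w (KE.lt1 ((le_max_right _ _).trans hxb.le)) (KE.lt1 hxb.le)).2 (le_max_right _ _)⟩
  have hkb := hk.trans_le (rho_le E' _)
  obtain ⟨c1, p1, t1, t2⟩ := norm ht
  obtain ⟨c2, p2, n1, n2⟩ := norm hn
  obtain ⟨c, z, a, r1, r2, r3, r4⟩ := hr (node (leaf k') (node p1 p2)) (by simp [hkb, t1, n1])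
  obtain ⟨o1, o2, Q⟩ := F3.ex_sq (f := fun x : Tr.{u} => node x.fst.fst x.snd)
    (g := fun x : Tr.{u} => node x.snd.fst.snd x.fst) (by fun_prop) (by fun_prop)
  have Q1 : ∀ {E : Seq.{u}} {d a z v : _} {k p1 p2} (f : Ordinal.{u} → Ordinal.{u}), In (f d) v →
      ev E (f d) c (node a (z.map f)) = some (node (leaf k) (node p1 p2)) →
      (Nm E ((node (leaf d) (node (F3.sq o1 o2 c (cmp (.pair .fs (.comp .fst (.comp .ss .snd))) c1
        (tst (.comp .bd (.pair .fs .fst))))) z)).map f) (node a v) ↔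
          In k v ∧ (ev E (f d) c1 (node v p1)).isSome) ∧
      (Nm E ((node (leaf d) (node (F3.sq o1 o2 c (prec (.pair .fst (.comp .ss .snd)) c2)) z)).map f)
        (node a v) ↔ (ev E (f d) c2 (node v p2)).isSome) := by
    intro E d a z v k p1 p2 f hv e
    have i1 := in_of_ev_eq e
    have i2 : In (f d) (node v (node (leaf k) (node p1 p2))) := (in_node _ _ _).2 ⟨hv, ev_in e⟩
    rw [in_node] at i1
    have i3 : In (f d) (node (node a v) (z.map f)) := by simp [i1, hv]
    simp only [NmL, map_node, map_leaf, fst_node, snd_node, leaf.injEq, exists_eq_left',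
      ev_map_code, Q E _ _ _ _ i3, e, Option.bind_some, ev_cmp, ev_tst _ i2, ev_prec _ _ i2]
    by_cases hk : In k v <;> simp [hk, bop]
  obtain ⟨m, m2, m3⟩ := incl U.pm.ls hx
    (T := node (leaf b) (node (F3.sq o1 o2 c (cmp (.pair .fs (.comp .fst (.comp .ss .snd))) c1
        (tst (.comp .bd (.pair .fs .fst))))) z))
    (by simpa [F3.sq, In] using fun y hy => (r1 y hy).le)
    (N := node (leaf b) (node (F3.sq o1 o2 c (prec (.pair .fst (.comp .ss .snd)) c2)) z))
    (by simpa [F3.sq, In] using fun y hy => (r1 y hy).le)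
  have h2 := (m3 E' i U.toWeak U.pm'.ls ((GoodI.strong_good U.pm.ls U.pm'.ls U.toStrong).inc _ hx) a
    (r2.mono (m1 U.toWeak).1)).2 fun q hq => by
      have hq' := hq.mono (lt_top U.toWeak hxb).le
      have e1 := t2 E' id strictMonoOn_id q hq'
      have e2 := n2 E' id strictMonoOn_id q hq'
      simp only [show ∀ t : Tr.{u}, t.map id = t from map_id', id] at e1 e2
      rw [(Q1 i hq' r3).1, (Q1 i hq' r3).2, ← e1, ← e2, ← nm_iff_fv, ← nm_iff_fv]
      exact fun e => H q e.1 e.2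
  have hv1 : In (j (max k x0)) v := hv.mono (le_trans (by
    rw [← hs x0 ((le_max_right _ _).trans hxb.le)]
    exact (KE.w_le w (KE.lt1 hkb.le) (KE.lt1 ((m1 U.toWeak).2.trans (lt_top U.toWeak hxb).le))).2 x2)
    (m1 h.wk).2)
  have hv2 := hv1.mono (lt_top h.wk hxb).le
  have h3 := (m3 E2 j h.wk l (hj.inc _ hx) _ ((KE.in_map fun y hy => h.lt y (r2 y hy)).mono
    (m1 h.wk).1)).1 ((h.thr m a m2 r2).1 h2) v hv1
  have e1 := t2 E2 s w.mono v (hs b le_rfl ▸ hv2)
  have e2 := n2 E2 s w.mono v (hs b le_rfl ▸ hv2)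
  rw [hs b le_rfl] at e1 e2
  rw [(Q1 j hv2 r4).1, (Q1 j hv2 r4).2, ← e1, ← e2, ← nm_iff_fv, ← nm_iff_fv] at h3
  exact h3 ⟨hv, h1⟩

theorem real (U : IsUlt E b k E' i) (hj : Good E b E2 j) (l : PM0 E2 (j b + 1))
    (h1 : ∀ z < i k, th z < j k)
    (h2 : ∀ n a, In (b + 1) n → In (i k) a → (Nm E' (n.map i) a ↔ Nm E2 (n.map j) (a.map th))) :
    ∃ s, Good E' (i b) E2 s ∧ (∀ x ≤ b, s (i x) = j x) ∧ ∀ z < i k, s z = th z := by
  have h : Cx E E' E2 b k i j th := ⟨U, hj.toWeak, h1, h2⟩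
  obtain ⟨s, s1, s2, w, r⟩ := ex h
  refine ⟨s, ⟨w, fun k' hk => ?_, fun _ _ _ => card U hj l.ls w s1,
    fun _ => inc h hj l.ls w s1 r⟩, s1, s2⟩
  obtain ⟨x, x1, x2⟩ := (cof U).cof k' hk
  have hx := x1.trans_le (rho_le E b)
  rw [s1 b le_rfl]
  refine lt_of_le_of_lt ?_ (hj.proj x x1)
  rw [← s1 x hx.le]
  exact (KE.w_le w (KE.lt1 (hk.le.trans (rho_le E' _))) (KE.lt1 (lt_top U.toWeak hx).le)).2 x2

theorem thread {t : Ordinal.{u}} (U : IsUlt E b k E' i) (hj : Good E b E2 j) (ht : t ≤ b)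
    (hn : NoProj E k t (b + 1)) (h1 : ∀ z < i k, th z < j k)
    (h2 : ∀ n a, In t n → In (i k) a → (Nm E' (n.map i) a ↔ Nm E2 (n.map j) (a.map th)))
    (n a : Tr.{u}) (i1 : In (b + 1) n) (i2 : In (i k) a) :
    Nm E' (n.map i) a ↔ Nm E2 (n.map j) (a.map th) := by
  obtain ⟨n', h3, h4⟩ := low i1 (ht.trans le_self_add) (F3.acc hn ⟨n, i1, fun _ _ => Iff.rfl⟩)
  rw [← h4 E' i U.inc a i2, h2 n' a h3 i2,
    h4 E2 j (hj.inc k U.lt) _ (KE.in_map fun y hy => h1 y (i2 y hy))]

theorem unique [AgreeSt.{u}] (U : IsUlt E b k E' i) (V : IsUlt E b k E2 j) (hk : i k = j k)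
    (H : ∀ n a, In (b + 1) n → In (i k) a → (Nm E' (n.map i) a ↔ Nm E2 (n.map j) a)) :
    (∀ x ≤ b, i x = j x) ∧ Agree E' E2 (i b + 1) := by
  obtain ⟨s, s1, s2, w, -⟩ := ex (th := fun x => x) ⟨U, V.toWeak, fun _ hz => hk ▸ hz,
    fun n a h1 h2 => by rw [map_id']; exact H n a h1 h2⟩
  obtain ⟨s', t1, t2, w', -⟩ := ex (th := fun x => x) ⟨V, U.toWeak, fun _ hz => hk ▸ hz,
    fun n a h1 h2 => by rw [map_id']; exact (H n a h1 (hk ▸ h2)).symm⟩
  rw [s1 b le_rfl] at w
  have h1 : ∀ y ≤ i b, s' (s y) = y := fun y hy => by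
    rcases hy.eq_or_lt with rfl | hy
    · rw [s1 b le_rfl, t1 b le_rfl]
    · obtain ⟨c, z, a, h2, h3, h4⟩ := tree U (x := leaf y) (by simpa using hy)
      have h5 := (KE.weak_comp w w').comm _ (lt_add_one _) c _ (in_of_ev_eq h4)
      rw [h4, map_node, map_map, map_eq_self (t := a) fun x hx => by
        rw [Function.comp, s2 x (h3 x hx), t2 x (hk ▸ h3 x hx)],
        map_congr (g := i) fun x hx => by
          rw [Function.comp, s1 x (h2 x hx).le, t1 x (h2 x hx).le],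
        Function.comp, s1 b le_rfl, t1 b le_rfl, h4] at h5
      simpa using h5.symm
  have h2 : ∀ y < i b + 1, s y = y := fun y hy =>
    le_antisymm ((KE.w_self w' (w.maps y hy)).trans (h1 y (KE.le1 hy)).le) (KE.w_self w hy)
  exact ⟨fun x hx => (h2 _ (U.maps x (KE.lt1 hx))).symm.trans (s1 x hx),
    AgreeSt.of_fix U.pm' V.pm' w le_rfl h2⟩

end RealI

instance [AgreeSt.{u}] : RealSt.{u} := ⟨RealI.real, RealI.thread, RealI.unique⟩

end Pool.Agent.KM
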