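import Pool.Agent.Lib.MP_5c0be7_lc.L.St
import Pool.Agent.Lib.MP_5c0be7_lc.O.Api
import Pool.Agent.Lib.MP_5c0be7_lc.K.Nm

/-!
Project KM, block F5: a realising thread bounds the formal ultrapower.
-/

namespace Pool.Agent.KM

open Ordinal Tr

universe u

namespace RealWf

variable {E : Seq.{u}} {b : Ordinal.{u}}

/-- Normal form of a named function: one code at level `b`. -/
theorem nf {f : Tr.{u}} (hf : In (b + 1) f) :
    ∃ c z : Tr.{u}, c.lv = ∅ ∧ In b z ∧ ∀ w, In b w → fv E f w = ev E b c (node w z) := by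
  have hn : (∀ w, fv E f w = none) →
      ∃ c z : Tr.{u}, c.lv = ∅ ∧ In b z ∧ ∀ w, In b w → fv E f w = ev E b c (node w z) := fun h =>
    ⟨prec .nil unoptc, .nil, by simp, by simp, fun w hw => by
      rw [h, ev_prec _ _ (by simp [hw]), ev_unoptc (by simp [bop])]; rfl⟩
  by_cases h0 : f.fst = leaf f.fst.lab
  swap
  · exact hn fun w => if_neg h0
  have ha : f.fst.lab ≤ b := KE.le1 ((in_leaf _ _).1 (h0 ▸ hf.fst))
  by_cases h1 : In f.fst.lab f.snd.snd
  swap
  · exact hn fun w => (if_pos h0).trans (ev_guard (by simp [h1]) _)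
  rcases ha.eq_or_lt with h2 | h2
  · exact ⟨f.snd.fst.erase, f.snd.snd, by simp, h2 ▸ h1, fun w _ => by
      rw [fv, if_pos h0, ev_erase, h2]⟩
  · refine ⟨prec (.pair .fs (.pair (.comp .fst .ss) (.pair .fst (.comp .snd .ss)))) callc,
      node (leaf f.fst.lab) (node f.snd.fst.erase f.snd.snd), by simp,
      by simp [h2, h1.mono h2.le], fun w hw => ?_⟩
    rw [ev_prec _ _ (by simp [hw, h2, h1.mono h2.le]), fv, if_pos h0, ← ev_erase,
      ← ev_callc h2 _ (in_erase _ _)]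
    rfl

/-- The code that compares two values. -/
def ltc (c1 c2 : Tr.{u}) : Tr.{u} :=
  cmp .fst (tst (.ite (.comp .isleaf .fst) (.comp .bd (.pair .snd .fst)) .tone))
    (pairc (prec (.pair .ff .fs) c1) (prec (.pair .sf .ss) c2))

theorem in_ltc {c1 c2 : Tr.{u}} (h1 : c1.lv = ∅) (h2 : c2.lv = ∅) : In b (ltc c1 c2) := by
  simp [In, ltc, h1, h2]

theorem ev_ltc {c1 c2 v z1 z2 : Tr.{u}} (h : In b (node v (node z1 z2))) :
    (ev E b (ltc c1 c2) (node v (node z1 z2))).isSome ↔ ∃ x y,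
      ev E b c1 (node v.fst z1) = some (leaf x) ∧ ev E b c2 (node v.snd z2) = some (leaf y) ∧
        x < y := by
  rw [ltc, ev_cmp, ev_pairc, ev_prec _ _ h, ev_prec _ _ h]
  change (((ev E b c2 (node v.snd z2)).bind fun w => (ev E b c1 (node v.fst z1)).map
    fun v => node v w).bind _).isSome ↔ _
  rcases h2 : ev E b c2 (node v.snd z2) with _ | y
  · simp
  rcases h1 : ev E b c1 (node v.fst z1) with _ | x
  · simp
  simp only [Option.bind_some, Option.map_some, Option.some.injEq]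
  rw [ev_tst_isSome _ (by simp [bop, ev_in h1, ev_in h2])]
  cases x <;> cases y <;> simp [bop, Op.tone, tv_neg]

theorem wf {E1 E2 : Seq.{u}} {k t : Ordinal.{u}} {e j : Ordinal.{u} → Ordinal.{u}}
    (hj : Good E b E2 j) (hk : k < rho E b) (ht : t ≤ b + 1)
    (H : ∀ Z : Set Ordinal.{u}, Z.Countable → ∃ th : Ordinal.{u} → Ordinal.{u},
      (∀ z ∈ Z, z < e k → th z < j k) ∧ ∀ n a : Tr.{u}, n.lv ⊆ Z → In t n → a.lv ⊆ Z →
        In (e k) a → Nm E1 (n.map e) a → Nm E2 (n.map j) (a.map th)) :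
    UWf E (b + 1) k t E1 e := by
  rintro ⟨p, hp⟩
  choose n hn1 hn2 hn3 using fun i => (hp i).2.2.2.2
  choose c z hc hz hcz using fun i => nf (E := E) (hp i).2.2.2.1
  obtain ⟨th, h1, h2⟩ := H (⋃ i, (n i).lv ∪ (p i).1.lv)
    (Set.countable_iUnion fun i => ((lv_finite _).union (lv_finite _)).countable)
  have hkb : k ≤ b := (hk.trans_le KE.rho_le).le
  have key : ∀ i, ∃ x y,
      ev E2 (j b) (c (i + 1)) (node ((p (i + 1)).1.map th) ((z (i + 1)).map j)) = some (leaf x) ∧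
      ev E2 (j b) (c i) (node ((p i).1.map th) ((z i).map j)) = some (leaf y) ∧ x < y := by
    intro i
    have hZ : (node (p (i + 1)).1 (p i).1).lv ⊆ ⋃ i, (n i).lv ∪ (p i).1.lv := by
      rintro a (ha | ha)
      exacts [Set.mem_iUnion.2 ⟨_, Or.inr ha⟩, Set.mem_iUnion.2 ⟨_, Or.inr ha⟩]
    have ha : In (e k) (node (p (i + 1)).1 (p i).1) := (in_node _ _ _).2 ⟨(hp i).1, (hp i).2.1⟩
    have h3 := h2 _ _ (fun a ha => Set.mem_iUnion.2 ⟨i, Or.inl ha⟩) (hn1 i) hZ ha (hn2 i)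
    have h4 := hj.inc k hk (n i)
      (node (leaf b) (node (ltc (c (i + 1)) (c i)) (node (z (i + 1)) (z i)))) ((hn1 i).mono ht)
      (by simp [(hz _).mono le_self_add, in_ltc (hc _) (hc _)])
      (fun v hv h5 => by
        have hv' := hv.mono hkb
        obtain ⟨x, y, h6, h7, h8⟩ := hn3 i v hv h5
        exact ⟨b, rfl, (ev_ltc (by simp [hv', hz])).2
          ⟨x, y, hcz _ _ hv'.fst ▸ h6, hcz _ _ hv'.snd ▸ h7, h8⟩⟩)
      _ (KE.in_map fun a h5 => h1 a (hZ h5) (ha a h5)) h3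
    obtain ⟨b', h5, h6⟩ := h4
    obtain rfl : j b = b' := by simpa using h5
    simp only [map_node, snd_node, fst_node, KN.ev_cmap] at h6
    exact (ev_ltc (in_of_ev h6)).1 h6
  refine (RelEmbedding.natGT (r := (· < ·)) (fun i => ((ev E2 (j b) (c i)
    (node ((p i).1.map th) ((z i).map j))).getD .nil).lab) fun i => ?_).not_wellFounded
    wellFounded_lt
  obtain ⟨x, y, h3, h4, h5⟩ := key i
  simpa [h3, h4] using h5

end RealWf

instance : RealWfSt.{u} := ⟨fun hj _ hk ht H => RealWf.wf hj hk ht H⟩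

end Pool.Agent.KM
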