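import Pool.Agent.Lib.MP_5c0be7_lc.L.StRed
import Pool.Agent.Lib.MP_5c0be7_lc.L.Los1
import Pool.Agent.Lib.MP_5c0be7_lc.O.F3b

/-!
Project KM, blocks F4, F5: the reduct of a level of a reduced product.
-/

namespace Pool.Agent.KM

open Ordinal Tr Filter
open scoped Classical

universe u

namespace RedP

variable {I : Type (u + 1)} {F : Filter I} {N : I → Seq.{u}} {r : I → Ordinal.{u} → Ordinal.{u}}
  {b a k g : Ordinal.{u}} {E : Seq.{u}} {x y p : Tr.{u}}

theorem nm_spec (h : ∃ t, Names E b k (Th E b x) t) :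
    IsLeast (Names E b k (Th E b x)) (nm E b k x) := by
  obtain ⟨t, ht⟩ := exists_isLeast h
  have : nm E b k x = t := by unfold nm nmL; rw [least_eq_some.2 ht]; rfl
  rwa [this]

theorem down (h : Los F N r b E) {n : Tr.{u}} (ha : a ≤ b) (hn : In b n) (hx : In b x)
    (H : ∀ᶠ i in F, ∀ q, In (r i a) q →
      (Nm (N i) (n.map (r i)) q ↔ Th (N i) (r i b) (x.map (r i)) q)) :
    ∀ q, In a q → (Nm E n q ↔ Th E b x q) := fun q hq => h.cst <| by
  filter_upwards [H, h.in_map ha hq, h.nm (hn.succ le_rfl) (hq.succ ha),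
    h.th le_rfl (hx.succ le_rfl) (hq.succ ha)] with i h1 h2 h3 h4
  rw [← h3, ← h4]; exact h1 _ h2

theorem wit (h : Los F N r b E) {s w : Tr.{u}} (hs : In b s) (hw : In b w)
    (H : ∀ᶠ i in F, Solid (N i) (r i b) (s.map (r i)) ∧
      witL (ev (N i)) (r i b) (s.map (r i)) = w.map (r i)) :
    Solid E b s ∧ witL (ev E) b s = w := by
  induction s generalizing w with
  | nil =>
    obtain ⟨i, -, h2⟩ := h.ex H
    exact ⟨trivial, ((map_eq_nil _ _).1 h2.symm).symm⟩
  | leaf a => exact (h.cst (H.mono fun _ j => j.1)).elim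
  | node l s _ ih =>
    obtain ⟨i, ⟨_, h1, -⟩, h2⟩ := h.ex H
    obtain ⟨g, rfl, -⟩ := map_eq_leaf.1 h1
    obtain ⟨n, w, rfl⟩ : ∃ n w', w = node n w' := by
      cases w with
      | node n w => exact ⟨_, _, rfl⟩
      | _ => simp [witL] at h2
    simp only [in_node, in_leaf] at hs hw
    obtain ⟨ih1, ih2⟩ := ih hs.2 hw.2 (H.mono fun i ⟨⟨_, _, _, _, j1⟩, j2⟩ =>
      ⟨j1, (node.inj j2).2⟩)
    have H2 : ∀ᶠ i in F, IsLeast (Names (N i) (r i b) (r i g) (Th (N i) (r i b) (s.map (r i))))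
        (n.map (r i)) := H.mono fun i ⟨⟨_, j0, _, j1, _⟩, j2⟩ => by
      cases j0
      rw [← (node.inj j2).1]; exact nm_spec j1
    have H3 : Names E b g (Th E b s) n :=
      ⟨hw.1, down h hs.1.le hw.1 hs.2 (H2.mono fun _ j => j.1.2)⟩
    refine ⟨⟨g, rfl, fun a ha => h.lt_of hs.1.le (h.fr (H.mono fun i ⟨⟨_, j0, j1, _⟩, _⟩ => ?_)),
      ⟨n, H3⟩, ih1⟩, ?_⟩
    · cases j0
      exact j1 _ (by rw [lv_map]; exact ⟨a, ha, rfl⟩)
    · have : nm E b g s = n := (nm_spec ⟨n, H3⟩).unique ⟨H3, fun m hm j => h.cst <| by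
        filter_upwards [H2, h.lt_iff (j.1.succ le_rfl) (hw.1.succ le_rfl), h.in_map le_rfl j.1,
          h.inc hs.1 j.1 hw.1 fun q hq l => (H3.2 q hq).2 ((j.2 q hq).1 l),
          h.inc hs.1 hw.1 j.1 fun q hq l => (j.2 q hq).2 ((H3.2 q hq).1 l)] with i k1 k2 k3 k4 k5
        exact k1.2 _ (k2.2 hm) ⟨k3, fun q hq =>
          Iff.trans ⟨k4 q hq, k5 q hq⟩ (k1.1.2 q hq)⟩⟩
      show node (nm E b g s) _ = _
      rw [this, ih2]

theorem fine (h : Los F N r b E) (R : Red F N r E b k p) :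
    rho E b = k ∧ SS E b p.fst ∧ par E b = p := by
  have h1 : rho E b = k := le_antisymm (DiagSt.gen_rho E b k _ R.gen) <|
    le_of_forall_lt fun a ha => lt_rho_iff.2 ⟨ha.trans_le R.le, fun x hx =>
      let ⟨n, h1, h2⟩ := R.nm a ha x hx
      ⟨n, h1.mono R.le, down h (ha.le.trans R.le) (h1.mono R.le) hx h2⟩⟩
  have h2 : ∀ᶠ i in F, SS (N i) (r i b) (p.fst.map (r i)) ∧
      witL (ev (N i)) (r i b) (p.fst.map (r i)) = p.snd.map (r i) := by
    filter_upwards [R.par, R.ss] with i j1 j2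
    have e : pp (N i) (r i b) = p.fst.map (r i) := by rw [← par_fst, j1, map_fst]
    exact ⟨e ▸ ss_pp j2, by rw [← e, ← map_snd, ← j1]; rfl⟩
  obtain ⟨h3, h4⟩ := wit h R.inp.fst R.inp.snd (h2.mono fun _ j => ⟨j.1.2.2.1, j.2⟩)
  have h5 : SS E b p.fst := ⟨R.inp.fst, fun a ha => by
    show rho E b ≤ a
    rw [h1]
    by_contra j
    refine h.cst ?_
    filter_upwards [h2, R.lt a (not_le.1 j)] with i j1 j2
    exact j2.not_ge (j1.1.2.1 _ (by rw [lv_map]; exact ⟨a, ha, rfl⟩)), h3,
    by have := R.gen; rwa [← h1] at this⟩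
  refine ⟨h1, h5, ?_⟩
  have h6 : pp E b = p.fst := DiagSt.ss_unique E b _ _ (ss_pp ⟨_, h5⟩) h5
  obtain ⟨i, j⟩ := h.ex R.par
  show node (pp E b) (witL (ev E) b (pp E b)) = p
  rw [h6, h4]
  cases p with
  | node => rfl
  | _ => simp [par, parL] at j

theorem fin_len (n : ℕ) : {t : Tr.{u} | In 0 t ∧ t.ser.length ≤ n}.Finite := by
  induction n with
  | zero => exact Set.finite_empty.subset fun t ht => by cases t <;> simp [ser] at ht
  | succ n ih =>
    refine ((ih.image2 node ih).insert .nil).subset fun t ht => ?_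
    cases t with
    | nil => exact Or.inl rfl
    | leaf a => simp at ht
    | node l m =>
      obtain ⟨h1, h2⟩ := ht
      simp only [in_node, ser, List.length_cons, List.length_append] at h1 h2
      exact Or.inr ⟨l, ⟨h1.1, by omega⟩, m, ⟨h1.2, by omega⟩, rfl⟩

theorem fin_lt (hy : In 0 y) : {t | Lt t y}.Finite :=
  (fin_len y.ser.length).subset fun t ht => ⟨ht.in hy, by
    rcases ht with j | ⟨-, j⟩
    · exact absurd (j.trans_le hy.ht_le) (by simp)
    · exact (List.shortlex_def.1 j).elim le_of_lt fun j => j.1.le⟩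

theorem drun_zero (P : Bd) {R' : I → Tr.{u} → Prop} {R : Tr.{u} → Prop}
    (H : ∀ q, In 0 q → ∀ᶠ i in F, (R' i q ↔ R q)) (hy : In 0 y) :
    ∀ᶠ i in F, drun P (R' i) y = drun P R y := by
  induction P generalizing R' R y with
  | op a => exact Eventually.of_forall fun _ => rfl
  | seq s P Q ihP ihQ =>
    filter_upwards [ihQ H hy, ihP H (((in_node _ _ _).2 ⟨hy.drun Q R, hy⟩).bop s)] with i h1 h2
    rw [drun_seq, h1, h2, drun_seq]
  | orc => exact (H y hy).mono fun i j => by rw [drun_orc, drun_orc, j]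
  | bex P ih =>
    refine ((eventually_all_finite (fin_lt hy.fst)).2 fun t ht =>
      ih H ((in_node _ _ _).2 ⟨Lt.in ht hy.fst, hy.snd⟩)).mono fun i j => ?_
    rw [drun_bex, drun_bex]
    exact congrArg tv (propext (exists_congr fun t => and_congr_right fun l => by rw [j t l]))
  | sub s P ih =>
    exact ih (fun q hq => H _ (((in_node _ _ _).2 ⟨hq, hy.snd⟩).bop s)) hy.fst

theorem dn_map (h : Los F N r b E) (R : Red F N r E b k p) (hx : In (b + 1) x) :
    ∀ᶠ i in F, dn (N i) (r i b) (x.map (r i)) = (dn E b x).map (r i) := by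
  filter_upwards [R.par, h.smono_in (x := node (leaf b) x) (by simp [hx])] with i j1 j2
  rw [dn_eq, dn_eq, j1, (fine h R).2.2, map_node, ← enc_map j2.injOn, map_leaf]

theorem bod_map (h : Los F N r b E) (R : Red F N r E b k p) (P : Bd) (x y : Tr.{u})
    (hx : In (b + 1) x) (hy : In k y) : ∀ᶠ i in F,
      bod (N i) (r i b) P (x.map (r i)) (y.map (r i)) = (bod E b P x y).map (r i) := by
  have hd := in_dn E hx
  by_cases k0 : k = 0
  · subst k0
    have lf : ∀ {t : Tr.{u}}, In 0 t → ∀ f, t.map f = t := fun ht f =>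
      map_eq_self fun a ha => absurd (ht a ha) (by simp)
    filter_upwards [dn_map h R hx, drun_zero P (R := Th E b (dn E b x))
      (R' := fun i => Th (N i) (r i b) ((dn E b x).map (r i))) (fun q hq =>
        (h.th le_rfl (hd.succ le_rfl) (hq.mono zero_le)).mono fun i j => by rwa [lf hq] at j) hy]
      with i j1 j2
    rw [bod_eq, bod_eq, j1, lf hy, j2, lf (hy.drun _ _)]
  · have hk := limit_of_not_suc R.lim k0
    have ha := hy.ht_lt hk
    obtain ⟨n, n1, n2⟩ := R.nm _ ha _ hd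
    have hz : In k (node y n) := (in_node _ _ _).2 ⟨hy, n1⟩
    filter_upwards [dn_map h R hx, n2, h.in_map (ha.le.trans R.le) (in_ht y),
      h.fn (Fn.drun P (O := fun E _ w => Nm E w.snd w.fst) (Df.nm Fn.id.snd Fn.id.fst)) R.lim
        (hz.ht_lt hk) R.le (in_ht _)] with i j1 j2 j3 j4
    simp only [map_node, fst_node, snd_node] at j4
    rw [bod_eq, bod_eq, j1, ← drun_congr P j3 j2, j4,
      drun_congr P (in_ht y) (down h (ha.le.trans R.le) (n1.mono R.le) hd n2)]

theorem in_rho (R : Red F N r E b k p) (hy : In k y) :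
    ∀ᶠ i in F, In (rho (N i) (r i b)) (y.map (r i)) :=
  ((eventually_all_finite (lv_finite y)).2 fun z hz => R.lt z (hy z hz)).mono fun _ => KE.in_map

theorem step (h : Los F N r b E) (R : Red F N r E b k p) (c x : Tr.{u}) (hx : In (b + 1) x)
    (H : (∀ᶠ i in F, srch (N i) (r i b) (body c) (x.map (r i)) = none) ∨
      ∃ y, In k y ∧ ∀ᶠ i in F, srch (N i) (r i b) (body c) (x.map (r i)) = some (y.map (r i))) :
    ∀ᶠ i in F, ev (N i) (r i b + 1) c (x.map (r i)) = (ev E (b + 1) c x).map (Tr.map (r i)) := by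
  have e := (fine h R).1
  have up : ∀ y, In (rho E b) y ∧ bod E b (body c) x y ≠ .nil → ∀ᶠ i in F,
      In (rho (N i) (r i b)) (y.map (r i)) ∧
        bod (N i) (r i b) (body c) (x.map (r i)) (y.map (r i)) ≠ .nil := fun y hy => by
    filter_upwards [in_rho R (e ▸ hy.1), bod_map h R (body c) x y hx (e ▸ hy.1)] with i j1 j2
    exact ⟨j1, by rw [j2]; simpa using hy.2⟩
  rw [ev_succ hx]
  rcases H with H | ⟨y, hy, H⟩
  · have : srch E b (body c) x = none := least_eq_none.2 fun y hy => h.cst <| by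
      filter_upwards [H, up y hy] with i j1 j2
      exact least_eq_none.1 j1 _ j2
    filter_upwards [H, h.in_succ le_rfl hx] with i j1 j2
    rw [ev_succ j2]
    simp only [sev, sevL, srch] at j1 this ⊢
    rw [j1, this]; rfl
  · have hb := bod_map h R (body c) x y hx hy
    have : srch E b (body c) x = some y := least_eq_some.2 ⟨⟨hy.mono e.ge, h.cst <| by
        filter_upwards [H, hb] with i j1 j2 j3
        exact (least_eq_some.1 j1).1.2 (by
          show bod _ _ _ _ _ = _
          rw [j2, show bod E b (body c) x y = .nil from j3]; rfl)⟩,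
      fun z hz l => h.cst <| by
        filter_upwards [H, up z l, h.lt_iff ((hz.in hy).succ R.le) (hy.succ R.le)] with i j1 j2 j3
        exact (least_eq_some.1 j1).2 _ (j3.2 hz) j2⟩
    have hi : In b (node (bod E b (body c) x y).snd (dn E b x)) :=
      (in_node _ _ _).2 ⟨((hy.drun _ _).mono R.le).snd, in_dn E hx⟩
    filter_upwards [H, h.in_succ le_rfl hx, hb, dn_map h R hx,
      h.los b le_rfl (bod E b (body c) x y).fst _ hi] with i j1 j2 j3 j4 j5
    rw [ev_succ j2]
    simp only [sev, sevL, srch, bod, dn] at j1 this j3 j4 j5 ⊢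
    rw [j1, this, Option.bind_some, Option.bind_some, j3, j4, map_fst, map_snd, ev_map_code,
      ← map_node, j5, Option.map_map, Option.map_map]
    congr 1
    funext w
    simp [map_dec]

end RedP

instance : RedSt.{u} := ⟨RedP.fine, RedP.bod_map, RedP.step⟩

end Pool.Agent.KM
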