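import Pool.Agent.Lib.MP_5c0be7_lc.L.StRed
import Pool.Agent.Lib.MP_5c0be7_lc.L.Los1
import Pool.Agent.Lib.MP_5c0be7_lc.L.LosS1
import Pool.Agent.Lib.MP_5c0be7_lc.O.F3c

/-!
Project KM, blocks F4, F5: a closed system has a reduct.
-/

namespace Pool.Agent.KM

open Ordinal Tr Filter
open scoped Classical

universe u

namespace RedClo

variable {I : Type (u + 1)} {F : Filter I} {N : I → Seq.{u}} {r : I → Ordinal.{u} → Ordinal.{u}}
  {b : Ordinal.{u}} {E : Seq.{u}} {x : Tr.{u}}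

theorem clo (S : Sys F N r (b + 1)) (C : CloAt F N r (b + 1)) (c : Tr.{u}) (hx : In (b + 1) x) :
    (∀ᶠ i in F, ev (N i) (r i b + 1) c (x.map (r i)) = none) ∨ ∃ y, In (b + 1) y ∧
      ∀ᶠ i in F, ev (N i) (r i b + 1) c (x.map (r i)) = some (y.map (r i)) :=
  (C c x hx).imp (fun k => (k.and (S.suc b le_rfl)).mono fun _ j => j.2 ▸ j.1)
    fun ⟨y, h1, k⟩ => ⟨y, h1, (k.and (S.suc b le_rfl)).mono fun _ j => j.2 ▸ j.1⟩

/-- Witnesses of semi-decided predicates are represented. -/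
theorem wit (S : Sys F N r (b + 1)) (C : CloAt F N r (b + 1)) {A : PR.{u}} (hA : S1 A)
    (hx : In (b + 1) x)
    (h : ∀ᶠ i in F, ∃ y, In (r i b + 1) y ∧ A (N i) (r i b) (node y (x.map (r i)))) :
    ∃ y, In (b + 1) y ∧ ∀ᶠ i in F, A (N i) (r i b) (node (y.map (r i)) (x.map (r i))) := by
  obtain ⟨c, -, hc⟩ := hA
  rcases clo S C (exs c) hx with k | ⟨y, h1, k⟩
  · obtain ⟨i, ⟨y, j1, j2⟩, j3, j4, j5⟩ :=
      S.ex (h.and (k.and ((S.lev (lt_add_one b)).and (S.in_succ le_self_add hx))))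
    have := ev_exs_complete j4.1 ((hc _ _ _ ((in_node _ _ _).2 ⟨j1, j5⟩)).2 j2)
    simp [j3] at this
  · exact ⟨y, h1, k.mono fun i j => (hc _ _ _ (in_of_ev (ev_exs_sound j))).1 (ev_exs_sound j)⟩

theorem dich (S : Sys F N r (b + 1)) (C : CloAt F N r (b + 1)) {a} (ha : a ≤ b)
    (h : ∃ᶠ i in F, r i a < rho (N i) (r i b)) : ∀ᶠ i in F, r i a < rho (N i) (r i b) := by
  rcases clo S C ltr (x := leaf a) (by simpa using ha) with k | ⟨y, -, k⟩
  · exact absurd (k.mono fun i j => by dsimp only; rw [← ev_ltr_leaf, ← map_leaf, j]; simp) h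
  · exact k.mono fun i j => by rw [← ev_ltr_leaf, ← map_leaf, j]; simp

theorem in_k (S : Sys F N r (b + 1)) {k : Ordinal.{u}}
    (hk : ∀ a ≤ b, (∃ᶠ i in F, r i a < rho (N i) (r i b)) → a < k) (hx : In (b + 1) x)
    (h : ∀ᶠ i in F, In (rho (N i) (r i b)) (x.map (r i))) : In k x := fun a ha =>
  hk a (KE.le1 (hx a ha)) (S.fr (h.mono fun i j => j _ (by rw [lv_map]; exact ⟨a, ha, rfl⟩)))

theorem red (h : Los F N r b E) (S : Sys F N r (b + 1)) (C : CloAt F N r (b + 1)) :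
    ∃ k p, Red F N r E b k p ∧ ∀ a ≤ b, (∃ᶠ i in F, r i a < rho (N i) (r i b)) → a < k := by
  obtain ⟨k, k1, k2⟩ := wellFounded_lt.has_min
    {a | a = b ∨ ¬ ∀ᶠ i in F, r i a < rho (N i) (r i b)} ⟨b, Or.inl rfl⟩
  have kb : k ≤ b := not_lt.1 (k2 b (Or.inl rfl))
  have lt : ∀ a < k, ∀ᶠ i in F, r i a < rho (N i) (r i b) := fun a ha =>
    by_contra fun j => k2 a (Or.inr j) ha
  have hk : ∀ a ≤ b, (∃ᶠ i in F, r i a < rho (N i) (r i b)) → a < k := fun a ha j => by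
    by_contra j1
    have j2 := ((dich S C ha j).and (h.mono_le (not_lt.1 j1) ha)).mono fun _ l => l.2.trans_lt l.1
    rcases k1 with rfl | k1
    · obtain ⟨i, j3⟩ := S.ex j2
      exact absurd j3 (rho_le _ _).not_gt
    · exact k1 j2
  have lev := S.lev (lt_add_one b)
  obtain ⟨p, p1, p2⟩ : ∃ p, In b p ∧ ∀ᶠ i in F, par (N i) (r i b) = p.map (r i) := by
    rcases clo S C parc (in_nil _) with j | ⟨p, j1, j⟩
    · obtain ⟨i, j⟩ := S.ex j
      rw [ev_parc (by simp)] at j; cases j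
    · have j2 := j.mono fun i l => Option.some.inj ((ev_parc (by simp)).symm.trans l)
      exact ⟨p, h.in_of le_rfl j1 (S.fr (j2.mono fun i l => l ▸ in_par _ _)), j2⟩
  have O := IsOp.id.{u}
  refine ⟨k, p, ⟨kb, ?_, lt, fun a ha x hx => ?_, p1, p2, lev.mono fun _ l => l.1,
    fun t ht => ?_⟩, hk⟩
  · rintro ⟨j, rfl⟩
    refine lt_irrefl _ (hk _ kb (S.fr ?_))
    filter_upwards [lt j (lt_add_one j), h.suc j kb] with i j1 j2
    rw [j2]
    exact not_suc_iff.1 (DiagSt.rho_lim _ _) _ j1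
  · obtain ⟨P, hP⟩ := S1.names.{u}
    have ab := ha.trans_le kb
    obtain ⟨n, n1, n2⟩ := wit S C ((S1.rho.pre O.fst).and
      ((S1.bod P).pre (O.snd.fst.pair (O.fst.pair O.snd.snd)))) (x := node (leaf a) x)
      (by simp [ab.le, hx.succ le_rfl]) (by
        filter_upwards [lt a ha, h.ls, h.in_map le_rfl hx] with i j1 j2 j3
        obtain ⟨n, n1, n2⟩ := DiagSt.named_of_lt _ _ _ _ j1 j3
        obtain ⟨m, m1, m2⟩ := AccSt.room _ _ _ _ j2 j1 ⟨n, n1.succ le_rfl, n2⟩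
        exact ⟨m, m1.succ (rho_le _ _), m1, by simpa using j1,
          (hP _ _ _ _ _ (m1.mono (rho_le _ _)) j3 (j1.le.trans (rho_le _ _))).2 m2⟩)
    refine ⟨n, in_k S hk n1 (n2.mono fun _ j => j.1), ?_⟩
    filter_upwards [n2, lt a ha, h.in_map le_rfl hx] with i j1 j2 j3
    exact (hP _ _ _ _ _ (j1.1.mono (rho_le _ _)) j3 (j2.le.trans (rho_le _ _))).1 j1.2.2
  · obtain ⟨y, y1, y2⟩ := wit S C ((S1.rho.pre O.fst).and (S1.test
      ((CF.op (O.snd.fst.pair (O.fst.fst.pair (O.fst.snd.pair O.snd.snd.snd)))).call.eq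
        (CF.op (IsOp.nil.pair O.snd.snd.fst))))) (x := node (leaf b) (node t p.fst))
      (by simp [ht.succ le_rfl, p1.fst.succ le_rfl]) (by
        filter_upwards [lev, p2, h.in_map le_rfl ht] with i j1 j2 j3
        obtain ⟨c, v, v1, v2⟩ := (ss_pp j1.1).2.2.2 _ j3
        have v3 : In (rho (N i) (r i b)) (node c.erase v) := by simp [v1]
        refine ⟨node c.erase v, v3.succ (rho_le _ _), v3, ?_⟩
        simp only [map_node, map_leaf, fst_node, snd_node, call_leaf (lt_add_one _), ev_erase]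
        rw [← map_fst, ← j2, par_fst, v2]; rfl)
    have y3 := in_k S hk y1 (y2.mono fun _ j => j.1)
    refine ⟨y.fst, y.snd, y3.snd, h.val le_rfl (by simp [y1.snd, p1.fst.succ le_rfl])
      (ht.succ le_rfl) (S.fr (y2.mono fun i j => ?_))⟩
    have j2 := j.2
    simpa [call_leaf (lt_add_one _), opt_eq_node] using j2

end RedClo

instance : RedCloSt.{u} := ⟨RedClo.red⟩

end Pool.Agent.KM
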