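import Pool.Agent.Lib.MP_5c0be7_lc.L.St

/-!
Project KM, blocks F4, F5: reduced products of hierarchies. Definitions and statements.
-/

namespace Pool.Agent.KM

open Ordinal Tr

universe u

section

variable {I : Type (u + 1)} (F : Filter I) (N : I → Seq.{u}) (r : I → Ordinal.{u} → Ordinal.{u})

/-- Level `a` of `E` is the reduced product of the levels `r i a` of `N i`. -/
def LosAt (E : Seq.{u}) (a : Ordinal.{u}) : Prop :=
  ∀ c x, In a x → ∀ᶠ i in F, ev (N i) (r i a) c (x.map (r i)) = (ev E a c x).map (Tr.map (r i))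

/-- The represented trees are closed under evaluation at level `a`. -/
def CloAt (a : Ordinal.{u}) : Prop :=
  ∀ c x, In a x → (∀ᶠ i in F, ev (N i) (r i a) c (x.map (r i)) = none) ∨
    ∃ y, In a y ∧ ∀ᶠ i in F, ev (N i) (r i a) c (x.map (r i)) = some (y.map (r i))

/-- The ordinals up to `b` are represented in the fibres `N i`. -/
structure Sys (b : Ordinal.{u}) : Prop where
  ne : F.NeBot
  mono : ∀ a a', a < a' → a' ≤ b → ∀ᶠ i in F, r i a < r i a'
  suc : ∀ a, a + 1 ≤ b → ∀ᶠ i in F, r i (a + 1) = r i a + 1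
  ls : ∀ᶠ i in F, LS (N i) (r i b)

/-- A closed system, with the sequence read off from the fibres. -/
structure PreLos (b : Ordinal.{u}) (E : Seq.{u}) : Prop extends Sys F N r b where
  clo : ∀ a ≤ b, CloAt F N r a
  ext : ∀ v ≤ b, ¬ Suc v → ∀ x < v, ∀ y < v,
    (E v x y ↔ ∀ᶠ i in F, N i (r i v) (r i x) (r i y))

/-- The levels up to `b` of `E` are reduced products. -/
structure Los (b : Ordinal.{u}) (E : Seq.{u}) : Prop extends Sys F N r b where
  los : ∀ a ≤ b, LosAt F N r E a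
  ls' : LS E b

/-- The sequence read off from the fibres. -/
def lseq (b : Ordinal.{u}) : Seq.{u} := fun v x y =>
  v ≤ b ∧ ¬ Suc v ∧ x < v ∧ y < v ∧ ∀ᶠ i in F, N i (r i v) (r i x) (r i y)

end

/-- The extenders below `d` live below their index, which is not a successor. -/
def Bdd (E : Seq.{u}) (d : Ordinal.{u}) : Prop := ∀ v < d, ∀ x y, E v x y → x < v ∧ y < v ∧ ¬ Suc v

/-- The theorem of Los. -/
class LosSt : Prop where
  los : ∀ {I : Type (u + 1)} {F : Filter I} {N : I → Seq.{u}} {r : I → Ordinal.{u} → Ordinal.{u}}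
    {b : Ordinal.{u}} {E : Seq.{u}}, PreLos F N r b E → Los F N r b E

/-- An active level of a reduced product. -/
class LosActSt : Prop where
  act : ∀ {I : Type (u + 1)} {F : Filter I} {N : I → Seq.{u}} {r : I → Ordinal.{u} → Ordinal.{u}}
    {v k t : Ordinal.{u}} {E : Seq.{u}} {g : I → Ordinal.{u} → Ordinal.{u}}, Los F N r v E →
    Bdd E (v + 1) → k < v → t < v → (∀ᶠ i in F, Act (N i) (r i v) (r i k) (r i t) (g i)) →
    (∀ x < t, ∃ y < v, ∀ᶠ i in F, g i (r i x) = r i y) →
    (∀ y < v, ∃ x < t, ∀ᶠ i in F, r i y < g i (r i x)) →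
    (∀ l < v, k < l → (∀ᶠ i in F, r i l < g i (r i k)) → ∃ f a y, In t f ∧ In l a ∧ y < v ∧
      ∀ᶠ i in F, fv (N i) ((f.map (r i)).map (g i)) (a.map (r i)) = some (leaf (r i y)) ∧
        r i l ≤ r i y ∧ r i y < g i (r i k)) →
    ∃ e, Act E v k t e ∧ ∀ x < t, ∀ᶠ i in F, r i (e x) = g i (r i x)

/-- Reduced products of premice are premice. -/
class LosPmSt : Prop where
  pm0 : ∀ {I : Type (u + 1)} {F : Filter I} {N : I → Seq.{u}} {r : I → Ordinal.{u} → Ordinal.{u}}
    {b : Ordinal.{u}} {E : Seq.{u}}, Los F N r b E → Bdd E b → (∀ᶠ i in F, PM0 (N i) (r i b)) →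
    PM0 E b
  pm : ∀ {I : Type (u + 1)} {F : Filter I} {N : I → Seq.{u}} {r : I → Ordinal.{u} → Ordinal.{u}}
    {b : Ordinal.{u}} {E : Seq.{u}}, Los F N r b E → Bdd E b → (∀ᶠ i in F, PM (N i) (r i b)) →
    PM E b
  small : ∀ {I : Type (u + 1)} {F : Filter I} {N : I → Seq.{u}} {r : I → Ordinal.{u} → Ordinal.{u}}
    {v k : Ordinal.{u}} {E : Seq.{u}}, Los F N r v E → ¬ Suc v → k < v →
    (∀ᶠ i in F, Small (N i) (r i k)) → Small E k

/-- Collapse of a well-founded weak order on a small type. -/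
class RankSt : Prop where
  rank : ∀ {P : Type (u + 1)} [_root_.Small.{u} P] (lt : P → P → Prop), WellFounded lt →
    (∀ p q s, lt p q → lt p s ∨ lt s q) → ∃ (b : Ordinal.{u}) (rk : P → Ordinal.{u}),
      (∀ p, rk p < b) ∧ (∀ x < b, ∃ p, rk p = x) ∧ ∀ p q, rk p < rk q ↔ lt p q

/-- The image of the critical point is regular. -/
class CritRegSt : Prop where
  reg : ∀ {E : Seq.{u}} {v k t a : Ordinal.{u}} {e : Ordinal.{u} → Ordinal.{u}} {f : Tr.{u}},
    LS E v → Act E v k t e → a < e k → In (v + 1) f →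
    ∃ x < e k, ∀ w y, In a w → fv E f w = some (leaf y) → y < e k → y < x

/-! The construction of an ultrapower. -/

/-- The extender `e` can be applied to `(b + 1, E)`. -/
structure UCtx (E E1 : Seq.{u}) (b k t v : Ordinal.{u}) (e : Ordinal.{u} → Ordinal.{u}) :
    Prop where
  pm : PM0 E (b + 1)
  pm1 : PM0 E1 v
  ext : Ext E k t E1 v e
  tb : t ≤ b
  np : NoProj E k t (b + 1)

/-- The filter on threads given by `e`. -/
structure UF (E E1 : Seq.{u}) (k t : Ordinal.{u}) (e : Ordinal.{u} → Ordinal.{u})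
    (F : Filter (Ordinal.{u} → Ordinal.{u})) : Prop where
  ne : F.NeBot
  dom : ∀ g < e k, ∀ᶠ th in F, th g < k
  pos : ∀ X a, In t X → In (e k) a → Nm E1 (X.map e) a → ∀ᶠ th in F, Nm E X (a.map th)
  neg : ∀ X a, In t X → In (e k) a → ¬ Nm E1 (X.map e) a → ∀ᶠ th in F, ¬ Nm E X (a.map th)

/-- The ordinals below `d` represent the functions computed at level `b` on generators below `l`. -/
structure Rep (E : Seq.{u}) (b l : Ordinal.{u}) (F : Filter (Ordinal.{u} → Ordinal.{u}))
    (r : (Ordinal.{u} → Ordinal.{u}) → Ordinal.{u} → Ordinal.{u}) (d : Ordinal.{u}) : Prop where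
  top : ∀ th, r th d = b
  rep : ∀ x < d, ∃ a c z, In l a ∧ In b z ∧
    ∀ᶠ th in F, ev E b c (node (a.map th) z) = some (leaf (r th x))
  onto : ∀ a c z, In l a → In b z → (∀ᶠ th in F, ∃ y, ev E b c (node (a.map th) z) = some (leaf y)) →
    ∃ x < d, ∀ᶠ th in F, ev E b c (node (a.map th) z) = some (leaf (r th x))
  mono : ∀ x x', x < x' → x' < d → ∀ᶠ th in F, r th x < r th x'

/-- The ultrapower `(d + 1, E')` with its map `i`. -/
structure UD (E E1 : Seq.{u}) (b k t v : Ordinal.{u}) (e : Ordinal.{u} → Ordinal.{u})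
    (F : Filter (Ordinal.{u} → Ordinal.{u}))
    (r : (Ordinal.{u} → Ordinal.{u}) → Ordinal.{u} → Ordinal.{u}) (d : Ordinal.{u}) (E' : Seq.{u})
    (i : Ordinal.{u} → Ordinal.{u}) : Prop where
  ctx : UCtx E E1 b k t v e
  uf : UF E E1 k t e F
  rep : Rep E b (e k) F r d
  los : Los F (fun _ => E) r d E'
  bdd : Bdd E' (d + 1)
  tree : ∀ x, In d x → ∃ a c z, In (e k) a ∧ In b z ∧
    ∀ᶠ th in F, ev E b c (node (a.map th) z) = some (x.map (r th))
  itop : i b = d
  ilt : ∀ x < b, i x < d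
  ival : ∀ x ≤ b, ∀ᶠ th in F, r th (i x) = x

/-- The filter exists; sets computed at level `b` are measured; shapes are constant. -/
class UFSt : Prop where
  ex : ∀ {E E1 : Seq.{u}} {b k t v e}, UCtx E E1 b k t v e → ∃ F, UF E E1 k t e F
  dec : ∀ {E E1 : Seq.{u}} {b k t v e F}, UCtx E E1 b k t v e → UF E E1 k t e F →
    ∀ a c z, In (e k) a → In b z → (∀ᶠ th in F, ev E b c (node (a.map th) z) = none) ∨
      ∃ s : Tr.{u}, ∀ᶠ th in F, ∃ w, ev E b c (node (a.map th) z) = some w ∧ w.erase = s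
  ae : ∀ {E E1 : Seq.{u}} {b k t v e F}, UCtx E E1 b k t v e → UF E E1 k t e F →
    ∀ a c z, In (e k) a → In b z → (∀ᶠ th in F, (ev E b c (node (a.map th) z)).isSome) →
      AE E k t E1 e a fun w => (ev E b c (node w z)).isSome

/-- The ordinals of the ultrapower. -/
class URepSt : Prop where
  ex : ∀ {E E1 : Seq.{u}} {b k t v e F}, UCtx E E1 b k t v e → UF E E1 k t e F →
    UWf E (b + 1) k t E1 e → ∃ r d, Rep E b (e k) F r d

/-- The ultrapower is a reduced product. -/
class UPreSt : Prop where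
  ex : ∀ {E E1 : Seq.{u}} {b k t v e F r d}, UCtx E E1 b k t v e → UF E E1 k t e F →
    Rep E b (e k) F r d → ∃ E' i, UD E E1 b k t v e F r d E' i

/-- The ultrapower extends the target of the extender. -/
class UIdSt : Prop where
  gen : ∀ {E E1 : Seq.{u}} {b k t v e F r d E' i}, UD E E1 b k t v e F r d E' i →
    ∀ g < e k, ∀ᶠ th in F, r th g = th g
  map : ∀ {E E1 : Seq.{u}} {b k t v e F r d E' i}, UD E E1 b k t v e F r d E' i →
    (∀ x < t, i x = e x) ∧ i t = v
  agree : ∀ {E E1 : Seq.{u}} {b k t v e F r d E' i}, UD E E1 b k t v e F r d E' i → Agree E' E1 v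

/-- The top level of the ultrapower. -/
class UTopSt : Prop where
  top : ∀ {E E1 : Seq.{u}} {b k t v e F r d E' i}, UD E E1 b k t v e F r d E' i →
    Lev E' d ∧ Comm E (b + 1) E' (d + 1) i

/-- The top extender of the ultrapower. -/
class UActSt : Prop where
  act : ∀ {E E1 : Seq.{u}} {b k t v e F r d E' i k0 t0 g}, UD E E1 b k t v e F r d E' i →
    TopCts E b k t e → Act E b k0 t0 g → ∃ g', Act E' d (i k0) (i t0) g'

end Pool.Agent.KM
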