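import Pool.Agent.Lib.MP_5c0be7_lc.L.StLos

/-!
Project KM, blocks F4, F5: the reduct of a level of a reduced product. Statements.
-/

namespace Pool.Agent.KM

open Ordinal Tr

universe u

/-- `k` and `p` represent the projectum and the parameter of level `b`. -/
structure Red {I : Type (u + 1)} (F : Filter I) (N : I → Seq.{u})
    (r : I → Ordinal.{u} → Ordinal.{u}) (E : Seq.{u}) (b k : Ordinal.{u}) (p : Tr.{u}) : Prop where
  le : k ≤ b
  lim : ¬ Suc k
  lt : ∀ a < k, ∀ᶠ i in F, r i a < rho (N i) (r i b)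
  nm : ∀ a < k, ∀ x, In b x → ∃ n, In k n ∧ ∀ᶠ i in F, ∀ q, In (r i a) q →
    (Nm (N i) (n.map (r i)) q ↔ Th (N i) (r i b) (x.map (r i)) q)
  inp : In b p
  par : ∀ᶠ i in F, par (N i) (r i b) = p.map (r i)
  ss : ∀ᶠ i in F, ∃ q, SS (N i) (r i b) q
  gen : Gen E b k p.fst

/-- The reduct of the product is the product of the reducts. -/
class RedSt : Prop where
  fine : ∀ {I : Type (u + 1)} {F : Filter I} {N : I → Seq.{u}} {r : I → Ordinal.{u} → Ordinal.{u}}
    {E : Seq.{u}} {b k : Ordinal.{u}} {p : Tr.{u}}, Los F N r b E → Red F N r E b k p →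
    rho E b = k ∧ SS E b p.fst ∧ par E b = p
  bod : ∀ {I : Type (u + 1)} {F : Filter I} {N : I → Seq.{u}} {r : I → Ordinal.{u} → Ordinal.{u}}
    {E : Seq.{u}} {b k : Ordinal.{u}} {p : Tr.{u}}, Los F N r b E → Red F N r E b k p →
    ∀ (P : Bd) x y, In (b + 1) x → In k y → ∀ᶠ i in F,
      bod (N i) (r i b) P (x.map (r i)) (y.map (r i)) = (bod E b P x y).map (r i)
  step : ∀ {I : Type (u + 1)} {F : Filter I} {N : I → Seq.{u}} {r : I → Ordinal.{u} → Ordinal.{u}}
    {E : Seq.{u}} {b k : Ordinal.{u}} {p : Tr.{u}}, Los F N r b E → Red F N r E b k p →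
    ∀ c x, In (b + 1) x → ((∀ᶠ i in F, srch (N i) (r i b) (body c) (x.map (r i)) = none) ∨
      ∃ y, In k y ∧ ∀ᶠ i in F, srch (N i) (r i b) (body c) (x.map (r i)) = some (y.map (r i))) →
    ∀ᶠ i in F, ev (N i) (r i b + 1) c (x.map (r i)) = (ev E (b + 1) c x).map (Tr.map (r i))

/-- A system that is closed one level up has a reduct. -/
class RedCloSt : Prop where
  red : ∀ {I : Type (u + 1)} {F : Filter I} {N : I → Seq.{u}} {r : I → Ordinal.{u} → Ordinal.{u}}
    {E : Seq.{u}} {b : Ordinal.{u}}, Los F N r b E → Sys F N r (b + 1) → CloAt F N r (b + 1) →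
    ∃ k p, Red F N r E b k p ∧ ∀ a ≤ b, (∃ᶠ i in F, r i a < rho (N i) (r i b)) → a < k

end Pool.Agent.KM
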