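import Pool.Agent.Lib.MP_5c0be7_lc.L.CritReg

/-!
Project KM, block F5: the top extender of an ultrapower.
-/

namespace Pool.Agent.KM

open Ordinal Tr Filter
open scoped Classical

universe u

namespace UAct

open F3

variable {E E1 E' : Seq.{u}} {b k t v d k0 t0 x x' : Ordinal.{u}}
  {e g i : Ordinal.{u} → Ordinal.{u}} {F : Filter (Ordinal.{u} → Ordinal.{u})}
  {r : (Ordinal.{u} → Ordinal.{u}) → Ordinal.{u} → Ordinal.{u}}

/-- The map of an active level, on a bounded part of its domain, is computed at the level. -/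
theorem app_low (l : LS E b) (h : Act E b k0 t0 g) (hx : x < t0) :
    CF E b x fun q => some (q.map g) := by
  have h1 : max x (g x) < b := max_lt (hx.trans h.dom) (h.weak.maps x hx)
  obtain ⟨m, m1, m2, m3⟩ := named_cs (amen l h h1) h1
  have m4 : max x (g x) < m + 1 := m1.trans_lt (lt_add_one m)
  obtain ⟨s, H1, H2⟩ := cf_exs (l m m2).1
    ((cs_in le_rfl m4 p_id).and' (m3.lift le_self_add) (g := fun q => node q.snd q.fst)
      (by fun_prop) fun _ _ h => by simp [h.fst, h.snd])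
  refine ((H1.mono ((le_max_left _ _).trans m4.le)).lift (Order.add_one_le_iff.2 m2)).congr
    fun q hq => ?_
  have hq1 : In (max x (g x)) q := hq.mono (le_max_left _ _)
  have hq2 : In (max x (g x)) (q.map g) :=
    ((KE.w_in_iff h.weak (hq.mono hx.le) hx).2 hq).mono (le_max_right _ _)
  obtain ⟨h2, h3⟩ := H2 q (hq1.mono m4.le)
  obtain ⟨y, hy⟩ := Option.isSome_iff_exists.1 (h3 (q.map g) (hq2.mono m4.le)
    ⟨by simp [hq1, hq2], by simpa using (ActF.ora_iff h).2 ⟨hq.mono hx.le, rfl⟩⟩)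
  have h4 := (h2 y hy).2
  simp only [fst_node, snd_node, ActF.ora_iff h] at h4
  rw [hy, h4.2]

section

variable (U : UD E E1 b k t v e F r d E' i)
include U

theorem le_of (hx : x ≤ x') (hd : x' ≤ d) : ∀ᶠ th in F, r th x ≤ r th x' := by
  rcases hx.lt_or_eq with h | rfl
  · exact (U.los.mono _ _ h hd).mono fun _ => le_of_lt
  · exact Eventually.of_forall fun _ => le_rfl

theorem lt_of (hd : x ≤ d) (h : ∀ᶠ th in F, r th x < r th x') : x < x' := by
  by_contra hc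
  haveI := U.uf.ne
  obtain ⟨th, h1, h2⟩ := (h.and (le_of U (not_lt.1 hc) hd)).exists
  exact absurd h1 h2.not_gt

theorem i_le (hx : x ≤ b) : i x ≤ d := by
  rcases hx.lt_or_eq with h | rfl
  · exact (U.ilt x h).le
  · exact U.itop.le

theorem i_lt (h : x < x') (hb : x' ≤ b) : i x < i x' :=
  lt_of U (i_le U (h.le.trans hb)) (((U.ival x (h.le.trans hb)).and (U.ival x' hb)).mono
    fun _ j => by rw [j.1, j.2]; exact h)

theorem lt_i (hd : x ≤ d) (hb : x' ≤ b) (h : ∀ᶠ th in F, r th x < x') : x < i x' :=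
  lt_of U hd ((h.and (U.ival x' hb)).mono fun _ j => by rw [j.2]; exact j.1)

theorem r_lt (hb : x' ≤ b) (h : x < i x') : ∀ᶠ th in F, r th x < x' :=
  ((U.los.mono _ _ h (i_le U hb)).and (U.ival x' hb)).mono fun _ j => j.2 ▸ j.1

theorem in_dom {a : Tr.{u}} (ha : In (e k) a) : ∀ᶠ th in F, In k (a.map th) := by
  induction a with
  | nil => simp
  | leaf y => simpa using U.uf.dom y (by simpa using ha)
  | node l s ihl ihs =>
    rw [in_node] at ha
    exact ((ihl ha.1).and (ihs ha.2)).mono fun _ j => by simpa using j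

theorem map_ival {a : Tr.{u}} (ha : In b a) : ∀ᶠ th in F, (a.map i).map (r th) = a := by
  induction a with
  | nil => simp
  | leaf y => simpa using U.ival y (le_of_lt (by simpa using ha))
  | node l s ihl ihs =>
    rw [in_node] at ha
    exact ((ihl ha.1).and (ihs ha.2)).mono fun _ j => by simpa using j

/-- Every ordinal of the ultrapower is represented by a named function. -/
theorem rep (hx : x < d) : ∃ f a : Tr.{u}, In (b + 1) f ∧ ∀ᶠ th in F, In k (a.map th) ∧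
    fv E f (a.map th) = some (leaf (r th x)) := by
  obtain ⟨a, c, z, h1, h2, h3⟩ := U.rep.rep x hx
  exact ⟨node (leaf b) (node c.erase z), a, by simp [h2.mono (le_self_add (b := 1))],
    ((in_dom U h1).and h3).mono fun _ j => ⟨j.1, by simpa [fv] using j.2⟩⟩

theorem card {a : Ordinal.{u}} (h1 : k ≤ a) (h2 : a ≤ b) : k ≤ rho E a := by
  rcases lt_or_ge a t with h | h
  · exact U.ctx.ext.card a h1 h
  · exact (U.ctx.np a h (KE.lt1 h2)).le

variable (h : Act E b k0 t0 g)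
include h

theorem T2 (hx : x < d) : ∃ y < i t0, ∀ᶠ th in F, r th x < g (r th y) := by
  obtain ⟨a, c, z, h1, h2, h3⟩ := U.rep.rep x hx
  have hb := act_lim h
  have lim := limit_of_not_suc hb h.dom.ne_bot
  have h4 : max k z.ht < b := max_lt (U.ctx.ext.lt.trans_le U.ctx.tb) (h2.ht_lt lim)
  obtain ⟨y, h5, h6⟩ := h.cof _ h4
  refine ⟨i y, i_lt U h5 h.dom.le, (((in_dom U h1).and h3).and
    (U.ival y (h5.trans h.dom).le)).mono fun th j => ?_⟩
  rw [j.2]
  refine lt_trans ((in_leaf _ _).1 (ev_lim_in hb ?_ j.1.2)) h6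
  simp [j.1.1.mono (le_max_left _ _), (in_ht z).mono (le_max_right _ _)]

variable [UIdSt.{u}] (hc : TopCts E b k t e)
include hc

theorem bnd1 (hx : x < i t0) : ∃ y < t0, ∀ᶠ th in F, r th x < y := by
  have l := U.ctx.pm.ls
  rcases le_or_gt t0 k with h1 | h1
  · have h2 := (UIdSt.map U).1
    obtain ⟨y, h3, h4⟩ := (hc k0 t0 g h).1 h1 x (h2 t0 (h1.trans_lt U.ctx.ext.lt) ▸ hx)
    exact ⟨y, h3, r_lt U (h3.trans h.dom).le
      ((h2 y (h3.trans (h1.trans_lt U.ctx.ext.lt))).symm ▸ h4)⟩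
  have h2 : k ≤ k0 := by
    obtain ⟨a, h3, h4, h5⟩ := h.top k h1
    exact (card U h3 (h4.trans h.dom).le).trans h5
  have h3 : IsNext E (b + 1) k0 t0 := by
    refine ⟨h.lt, (KE.lt1 h.dom.le).le, h.top, fun a h4 h5 => ?_⟩
    rcases (KE.le1 h5).lt_or_eq with h6 | rfl
    · exact h.next a h4 h6
    · rw [(l a h5).2 (act_lim h)]; exact h.lt.trans h.dom
  obtain ⟨f, a, h4, h5⟩ := rep U (hx.trans (U.ilt t0 h.dom))
  obtain ⟨y, h6, h7⟩ := reg l h3 (KE.lt1 h.dom.le) h4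
  exact ⟨y, h6, (h5.and (r_lt U h.dom.le hx)).mono fun th j => (in_leaf _ _).1
    (h7 _ _ (j.1.1.mono h2) j.1.2 ((in_leaf _ _).2 j.2))⟩

theorem T1 (hx : x < i t0) : ∃ y < d, ∀ᶠ th in F, g (r th x) = r th y := by
  obtain ⟨x0, h1, h2⟩ := bnd1 U h hc hx
  obtain ⟨a, c, z, h3, h4, h5⟩ := U.rep.rep x (hx.trans (U.ilt t0 h.dom))
  have hk : k ≤ b := (U.ctx.ext.lt.trans_le U.ctx.tb).le
  have F0 : CF E b k fun q => ev E b c (node q z) := ⟨c, z, h4, fun _ _ => rfl⟩
  have F1 := (cs_in (E := E) le_rfl (h1.trans h.dom) p_id).restrict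
    (app_low (U.ctx.pm.ls.mono le_self_add) h h1) p_id fun _ _ h => h
  obtain ⟨c', z', h6, h7⟩ := F0.bind F1 (g := fun q => q.fst) (by fun_prop)
    fun q w hq e => (F0.in hq e).2
  have h8 : ∀ᶠ th in F, ev E b c' (node (a.map th) z') = some (leaf (g (r th x))) :=
    (((in_dom U h3).and h5).and h2).mono fun th j => by simp [h7 _ j.1.1, j.1.2, j.2]
  obtain ⟨y, h9, h10⟩ := U.rep.onto a c' z' h3 h6 (h8.mono fun _ j => ⟨_, j⟩)
  exact ⟨y, h9, (h8.and h10).mono fun _ j => by simpa using j.1.symm.trans j.2⟩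

theorem bnd3 (hx : x < d) (hg : ∀ᶠ th in F, r th x < g k0) :
    ∃ y < g k0, ∀ᶠ th in F, r th x < y := by
  have l := U.ctx.pm.ls.mono (le_self_add (b := 1))
  have hb := h.weak.maps k0 h.lt
  have hk := U.ctx.ext.lt
  rcases U.ctx.tb.lt_or_eq with h1 | rfl
  · have h2 : k < g k0 := by
      obtain ⟨a, h3, h4, h5⟩ := ActF.top l h t h1
      exact (U.ctx.np a h3 (KE.lt1 h4.le)).trans_le h5
    obtain ⟨f, a, h4, h5⟩ := rep U hx
    obtain ⟨y, h6, h7⟩ := CritReg.reg l h h2 h4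
    exact ⟨y, h6, (h5.and hg).mono fun th j => h7 _ _ j.1.1 j.1.2 j.2⟩
  have h2 : g k0 = k := by
    obtain ⟨a, h3, h4, h5⟩ := ActF.top l h k hk
    obtain ⟨a', h6, h7, h8⟩ := U.ctx.ext.top _ hb
    exact le_antisymm ((ActF.card l h a' h6 h7).trans h8) ((U.ctx.ext.card a h3 h4).trans h5)
  rw [h2] at hg ⊢
  have h3 := (UIdSt.map U).1
  obtain ⟨y, h4, h5⟩ := (hc k0 t0 g h).2 rfl x (h3 k hk ▸ lt_i U hx.le hk.le hg)
  exact ⟨y, h4, r_lt U (h4.trans hk).le ((h3 y (h4.trans hk)).symm ▸ h5)⟩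

theorem T3 (hx : x < d) (h0 : i k0 < x) (hg : ∀ᶠ th in F, r th x < g (r th (i k0))) :
    ∃ f a y, In (i t0) f ∧ In x a ∧ y < d ∧ ∀ᶠ th in F,
      fv E ((f.map (r th)).map g) (a.map (r th)) = some (leaf (r th y)) ∧
        r th x ≤ r th y ∧ r th y < g (r th (i k0)) := by
  have hk0 := U.ival k0 (h.lt.trans h.dom).le
  have hb := h.weak.maps k0 h.lt
  obtain ⟨l0, h1, h2⟩ := bnd3 U h hc hx ((hg.and hk0).mono fun _ j => j.2 ▸ j.1)
  have h3 : x ≤ i l0 := (lt_i U hx.le (h1.trans hb).le h2).le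
  obtain ⟨l1, h4, h5⟩ := wellFounded_lt.has_min {l | x ≤ i l} ⟨l0, h3⟩
  have h6 : l1 < g k0 := (not_lt.1 (h5 l0 h3)).trans_lt h1
  have h7 : k0 < l1 := by
    by_contra h8
    rcases (not_lt.1 h8).lt_or_eq with h8 | rfl
    · exact absurd (h0.trans_le h4) (i_lt U h8 (h.lt.trans h.dom).le).not_gt
    · exact absurd h0 (not_lt.2 h4)
  obtain ⟨f, a, y, j1, j2, j3, j4, j5⟩ := h.typeA l1 h7 h6
  refine ⟨f.map i, a.map i, i y, KE.in_map fun z hz => i_lt U (j1 z hz) h.dom.le,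
    KE.in_map fun z hz => not_le.1 fun k1 => h5 z k1 (j2 z hz), U.ilt y (j5.trans hb), ?_⟩
  filter_upwards [map_ival U (j1.mono h.dom.le), map_ival U (j2.mono (h6.trans hb).le), hk0,
    U.ival y (j5.trans hb).le, U.ival l1 (h6.trans hb).le,
    le_of U h4 (i_le U (h6.trans hb).le)] with th k1 k2 k3 k4 k5 k6
  rw [k1, k2, k3, k4]
  exact ⟨j3, (k6.trans k5.le).trans j4, j5⟩

theorem act [LosActSt.{u}] : ∃ g', Act E' d (i k0) (i t0) g' := by
  have hk := h.lt.trans h.dom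
  refine (LosActSt.act (g := fun _ => g) U.los U.bdd (U.ilt k0 hk) (U.ilt t0 h.dom) ?_
    (fun _ => T1 U h hc) (fun _ => T2 U h) fun _ => T3 U h hc).imp fun _ j => j.1
  filter_upwards [U.ival k0 hk.le, U.ival t0 h.dom.le] with th k1 k2
  rwa [k1, k2, U.rep.top]

end

end UAct

instance [UIdSt.{u}] [LosActSt.{u}] : UActSt.{u} := ⟨fun U hc h => UAct.act U h hc⟩

end Pool.Agent.KM
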