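import Pool.Agent.Lib.MP_5c0be7_lc.L.StLos
import Pool.Agent.Lib.MP_5c0be7_lc.O.F3c
import Pool.Agent.Lib.MP_5c0be7_lc.K.FragMk

/-!
Project KM, block F5: the filter on threads given by an extender.
-/

namespace Pool.Agent.KM

open Ordinal Tr Filter
open scoped Classical

universe u

namespace UFP

variable {E E1 : Seq.{u}} {b k t v : Ordinal.{u}} {e : Ordinal.{u} → Ordinal.{u}}
  {F : Filter (Ordinal.{u} → Ordinal.{u})}

/-- A path to a leaf with a given label. -/
theorem proj (a : Tr.{u}) (g : Ordinal.{u}) :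
    ∃ p : Tr.{u} → Tr.{u}, IsOp p ∧ (g ∈ a.lv → p a = leaf g) := by
  induction a with
  | nil => exact ⟨_, IsOp.id, fun h => by simp at h⟩
  | leaf y => exact ⟨_, IsOp.id, fun h => by rw [show g = y from h]⟩
  | node l r ihl ihr =>
    obtain ⟨p, h1, h2⟩ := ihl
    obtain ⟨q, h3, h4⟩ := ihr
    by_cases h : g ∈ l.lv
    · exact ⟨_, h1.comp IsOp.id.fst, fun _ => h2 h⟩
    · exact ⟨_, h3.comp IsOp.id.snd, fun h' => h4 (h'.resolve_left h)⟩

/-- Substitution of the values of operations for the leaves of a tree. -/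
theorem subst {p : Ordinal.{u} → Tr.{u} → Tr.{u}} (hp : ∀ g, IsOp (p g)) (a : Tr.{u}) :
    (Df fun _ _ x => ∀ g ∈ a.lv, ∃ y, p g x = leaf y) ∧ ∃ q : Tr.{u} → Tr.{u}, IsOp q ∧
      ∀ x (th : Ordinal.{u} → Ordinal.{u}), (∀ g ∈ a.lv, p g x = leaf (th g)) → q x = a.map th := by
  induction a with
  | nil => exact ⟨Df.triv.congr fun _ _ _ _ => by simp, _, IsOp.nil, fun _ _ _ => rfl⟩
  | leaf y =>
    exact ⟨(Df.isleaf (Fn.op (hp y))).congr fun _ _ _ _ => by simp, _, hp y,
      fun _ _ h => h y rfl⟩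
  | node l r ihl ihr =>
    obtain ⟨h1, q, h2, h3⟩ := ihl
    obtain ⟨h4, q', h5, h6⟩ := ihr
    refine ⟨(h1.and h4).congr fun _ _ _ _ => by simp only [lv_node, Set.mem_union, or_imp,
      forall_and], _, h2.pair h5, fun x th h => ?_⟩
    rw [map_node, ← h3 x th fun g hg => h g (Or.inl hg), ← h6 x th fun g hg => h g (Or.inr hg)]

/-- A definable property of the generators `a` is realised by a thread. -/
theorem thread {A : Seq.{u} → Tr.{u} → Tr.{u} → Prop} (hA : Df fun E _ w => A E w.fst w.snd)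
    (l : LS E t) (l' : LS E1 v) (h : Ext E k t E1 v e) {a p : Tr.{u}} (ha : In (e k) a)
    (hp : In t p) (H : A E1 a (p.map e)) : ∃ th, In k (a.map th) ∧ A E (a.map th) p := by
  choose pr h1 h2 using proj a
  obtain ⟨h3, q, h4, h5⟩ := subst h1 a
  by_contra hc
  refine FragMk.up' (A := fun E x p => ¬ ((∀ g ∈ a.lv, ∃ y, pr g x = leaf y) ∧ A E (q x) p))
    ((h3.pre IsOp.id.fst).and
      (hA.pre ((h4.comp IsOp.id.fst).pair IsOp.id.snd))).not l l' h hp (fun x hx h6 => hc ?_) a ha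
    ⟨fun g hg => ⟨g, h2 g hg⟩, ?_⟩
  · have h7 := h5 x (fun g => (pr g x).lab) fun g hg => by
      obtain ⟨y, hy⟩ := h6.1 g hg
      rw [hy]; rfl
    exact ⟨_, h7 ▸ h4.mem hx, h7 ▸ h6.2⟩
  · rw [h5 a (fun g => g) h2, Tr.map_id']
    exact H

/-- The filter generated by the definable properties of the generators. -/
def fil (E E1 : Seq.{u}) (k t : Ordinal.{u}) (e : Ordinal.{u} → Ordinal.{u}) :
    Filter (Ordinal.{u} → Ordinal.{u}) where
  sets := {S | ∃ (A : Seq.{u} → Tr.{u} → Tr.{u} → Prop) (a p : Tr.{u}),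
    (Df fun E _ w => A E w.fst w.snd) ∧ In (e k) a ∧ In t p ∧ A E1 a (p.map e) ∧
      ∀ th, In k (a.map th) → A E (a.map th) p → th ∈ S}
  univ_sets := ⟨fun _ _ _ => True, .nil, .nil, Df.triv, in_nil _, in_nil _, trivial,
    fun _ _ _ => trivial⟩
  sets_of_superset := fun ⟨A, a, p, h1, h2, h3, h4, h5⟩ h =>
    ⟨A, a, p, h1, h2, h3, h4, fun th i j => h (h5 th i j)⟩
  inter_sets := fun ⟨A, a, p, h1, h2, h3, h4, h5⟩ ⟨A', a', p', g1, g2, g3, g4, g5⟩ =>
    ⟨fun E x q => A E x.fst q.fst ∧ A' E x.snd q.snd, node a a', node p p',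
      (h1.pre (IsOp.id.fst.fst.pair IsOp.id.snd.fst)).and
        (g1.pre (IsOp.id.fst.snd.pair IsOp.id.snd.snd)),
      (in_node _ _ _).2 ⟨h2, g2⟩, (in_node _ _ _).2 ⟨h3, g3⟩, ⟨h4, g4⟩,
      fun th i j => ⟨h5 th i.fst j.1, g5 th i.snd j.2⟩⟩

theorem ls_dom (h : UCtx E E1 b k t v e) : LS E t := h.pm.ls.mono (h.tb.trans le_self_add)

theorem ex (h : UCtx E E1 b k t v e) : ∃ F, UF E E1 k t e F := by
  refine ⟨fil E E1 k t e, ⟨fun h0 => ?_⟩, fun g hg => ?_, fun X a hX ha H => ?_,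
    fun X a hX ha H => ?_⟩
  · obtain ⟨A, a, p, h1, h2, h3, h4, h5⟩ : ∅ ∈ fil E E1 k t e := h0 ▸ mem_bot
    obtain ⟨th, i, j⟩ := thread h1 (ls_dom h) h.pm1.ls h.ext h2 h3 h4
    exact h5 th i j
  · exact ⟨fun _ _ _ => True, leaf g, .nil, Df.triv, by simpa using hg, in_nil _, trivial,
      fun th i _ => by simpa using i⟩
  · exact ⟨fun E x q => Nm E q x, a, X, Df.nm Fn.id.snd Fn.id.fst, ha, hX, H, fun _ _ j => j⟩
  · exact ⟨fun E x q => ¬ Nm E q x, a, X, (Df.nm Fn.id.snd Fn.id.fst).not, ha, hX, H,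
      fun _ _ j => j⟩

/-- Threads map the generators below the critical point. -/
theorem ae_in (hF : UF E E1 k t e F) {a : Tr.{u}} (ha : In (e k) a) :
    ∀ᶠ th in F, In k (a.map th) := by
  induction a with
  | nil => exact Eventually.of_forall fun _ => in_nil _
  | leaf g => simpa using hF.dom g (by simpa using ha)
  | node l r ihl ihr =>
    filter_upwards [ihl ha.fst, ihr ha.snd] with th h1 h2 using (in_node _ _ _).2 ⟨h1, h2⟩

/-- Definable properties of the generators hold along almost every thread. -/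
theorem df {A : Seq.{u} → Tr.{u} → Tr.{u} → Prop} (hA : Df fun E _ w => A E w.fst w.snd)
    (h : UCtx E E1 b k t v e) (hF : UF E E1 k t e F) {a p : Tr.{u}} (ha : In (e k) a)
    (hp : In t p) (H : A E1 a (p.map e)) : ∀ᶠ th in F, A E (a.map th) p := by
  obtain ⟨n, c, h1, h2⟩ := hA.name
  have hl := FragMk.not_suc_dom h.ext
  have hw := h.ext.weak
  have hz : In t (node (leaf k) p) := by simp [h.ext.lt, hp]
  have hb := hz.ht_lt (limit_of_not_suc hl h.ext.lt.ne_bot)
  have hi := (hw.in_map hb hz).2 (in_ht _)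
  have h3 := add_nat_lt hl hb n
  have h4 := hw.maps _ h3
  refine (hF.pos (node (leaf ((node (leaf k) p).ht + n)) (node c p)) a
    (by simp only [in_node, in_leaf]; exact ⟨h3, in_of_lf h1 _, hp⟩) ha ?_).mono fun th h5 =>
      ((h2 E _ p _ ((ls_dom h).mono h3.le)).1 h5).2
  rw [map_node, map_node, map_leaf, map_of_lv (erase_eq_self.1 h1), hw.add_nat n h3]
  rw [hw.add_nat n h3] at h4
  refine (h2 E1 _ _ a (h.pm1.ls.mono h4.le)).2
    ⟨(in_node _ _ _).2 ⟨ha.mono (le_of_lt ?_), hi.snd⟩, H⟩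
  simpa using hi.fst

theorem nm_iff_fv (n q : Tr.{u}) : Nm E n q ↔ (fv E n q).isSome := by
  unfold fv Nm NmL
  split_ifs with h
  · exact ⟨fun ⟨a, k1, k2⟩ => by rwa [k1], fun k => ⟨_, h, k⟩⟩
  · exact ⟨fun ⟨a, k1, _⟩ => absurd (by rw [k1]; rfl) h, fun k => by simp at k⟩

theorem next (h : UCtx E E1 b k t v e) : IsNext E (b + 1) k t :=
  ⟨h.ext.lt, h.tb.trans le_self_add, h.ext.top, h.np⟩

theorem dec (h : UCtx E E1 b k t v e) (hF : UF E E1 k t e F) (a c z : Tr.{u}) (ha : In (e k) a)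
    (hz : In b z) : (∀ᶠ th in F, ev E b c (node (a.map th) z) = none) ∨
      ∃ s : Tr.{u}, ∀ᶠ th in F, ∃ w, ev E b c (node (a.map th) z) = some w ∧ w.erase = s := by
  obtain ⟨g, hg, H⟩ := RegSt.reg_fun E (b + 1) k t
    (node (leaf b) (node (postc (.comp .erase .fst) c).erase z)) h.pm.ls (next h) (KE.lt1 h.tb)
    (by simp [hz.mono le_self_add])
  have H1 : ∀ x, In k x → fv E g x = (ev E b c (node x z)).map Tr.erase := fun x hx => by
    have h0 : fv E (node (leaf b) (node (postc (.comp .erase .fst) c).erase z)) x =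
        (ev E b c (node x z)).map Tr.erase := by simp [fv, ev_postc]
    refine Option.ext fun y => ?_
    rw [H x y hx, h0, and_iff_left_iff_imp]
    intro h1
    obtain ⟨w, -, rfl⟩ := Option.map_eq_some_iff.1 h1
    exact in_erase _ _
  cases hs : fv E1 (g.map e) a with
  | none =>
    left
    filter_upwards [ae_in hF ha, hF.neg g a hg ha (by simp [nm_iff_fv, hs])] with th h1 h2
    simpa [nm_iff_fv, H1 _ h1] using h2
  | some s =>
    have h1 : s.erase = s := by
      have := FragMk.up' (A := fun E x p => (opt (fv E p x)).erase = opt (fv E p x))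
        (Df.eq (Fn.id.snd.fv Fn.id.fst).erase (Fn.id.snd.fv Fn.id.fst)) (ls_dom h) h.pm1.ls h.ext hg
        (fun x hx => by rw [H1 x hx]; cases ev E b c (node x z) <;> simp) a ha
      simpa [hs] using this
    refine Or.inr ⟨s, ?_⟩
    filter_upwards [ae_in hF ha, df (A := fun E x p => fv E p x = some s)
      (Df.fv_eq Fn.id.snd Fn.id.fst (Fn.const h1)) h hF ha hg hs] with th h2 h3
    rw [H1 _ h2] at h3
    exact Option.map_eq_some_iff.1 h3

/-- A set named in the premouse that holds along almost every thread has measure one. -/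
theorem ae_named (h : UCtx E E1 b k t v e) (hF : UF E E1 k t e F) {a : Tr.{u}}
    {A : Tr.{u} → Prop} (ha : In (e k) a) (hA : Named E (b + 1) k A)
    (H : ∀ᶠ th in F, A (a.map th)) : AE E k t E1 e a A := by
  obtain ⟨n, h1, h2⟩ := AccSt.acc E (b + 1) k t A h.np hA
  refine ⟨n, h1, by_contra fun hc => ?_, fun x hx => (h2 x hx).1⟩
  have := hF.ne
  obtain ⟨th, h3, h4, h5⟩ := ((ae_in hF ha).and ((hF.neg n a h1 ha hc).and H)).exists
  exact h4 ((h2 _ h3).2 h5)

theorem ae (h : UCtx E E1 b k t v e) (hF : UF E E1 k t e F) (a c z : Tr.{u}) (ha : In (e k) a)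
    (hz : In b z) (H : ∀ᶠ th in F, (ev E b c (node (a.map th) z)).isSome) :
    AE E k t E1 e a fun w => (ev E b c (node w z)).isSome :=
  ae_named h hF ha ⟨node (leaf b) (node c.erase z), by simp [hz.mono le_self_add],
    fun q _ => by simp [NmL]⟩ H

end UFP

instance : UFSt.{u} := ⟨UFP.ex, UFP.dec, UFP.ae⟩

end Pool.Agent.KM
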