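import Pool.Agent.Lib.MP_5c0be7_lc.L.StLos
import Pool.Agent.Lib.MP_5c0be7_lc.O.FO3
import Pool.Agent.Lib.MP_5c0be7_lc.O.F3b
import Pool.Agent.Lib.MP_5c0be7_lc.F.ActI

/-!
Project KM, block F5: the ultrapower extends the target of the extender.
-/

namespace Pool.Agent.KM

open Ordinal Tr
open scoped Classical

universe u

namespace UId

variable {E E1 E' : Seq.{u}} {b k t v d : Ordinal.{u}} {e i : Ordinal.{u} → Ordinal.{u}}
  {F : Filter (Ordinal.{u} → Ordinal.{u})}
  {r : (Ordinal.{u} → Ordinal.{u}) → Ordinal.{u} → Ordinal.{u}}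

theorem fv_in {g a w : Tr.{u}} (hg : In t g) (h : fv E g a = some w) : In t w := by
  unfold fv at h
  split_ifs at h with h1
  have h2 : In t (leaf g.fst.lab) := h1 ▸ hg.fst
  exact (ev_in h).mono ((in_leaf _ _).1 h2).le

theorem vlim (H : UCtx E E1 b k t v e) : ¬ Suc v := not_suc_iff.2 fun y hy => by
  obtain ⟨x, h1, h2⟩ := H.ext.cof y hy
  exact (Order.add_one_le_iff.2 h2).trans_lt (H.ext.weak.maps x h1)

theorem lst (H : UCtx E E1 b k t v e) : LS E t := H.pm.ls.mono (KE.lt1 H.tb).le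

theorem next (H : UCtx E E1 b k t v e) : IsNext E (b + 1) k t :=
  ⟨H.ext.lt, (KE.lt1 H.tb).le, H.ext.top, H.np⟩

theorem ae_in (U : UF E E1 k t e F) {a : Tr.{u}} (ha : In (e k) a) :
    ∀ᶠ th in F, In k (a.map th) := by
  induction a with
  | nil => simp
  | leaf g => simpa using U.dom g (by simpa using ha)
  | node l s ih1 ih2 =>
    rw [in_node] at ha
    filter_upwards [ih1 ha.1, ih2 ha.2] with th h1 h2
    simp [h1, h2]

theorem lt_of (H : UD E E1 b k t v e F r d E' i) {x y : Ordinal.{u}} (hx : x ≤ d)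
    (h : ∀ᶠ th in F, r th x < r th y) : x < y := by
  haveI := H.uf.ne
  by_contra h1
  rcases (not_lt.1 h1).eq_or_lt with h2 | h2
  · obtain ⟨th, h3⟩ := h.exists
    rw [h2] at h3
    exact h3.false
  · obtain ⟨th, h3, h4⟩ := (h.and (H.los.mono y x h2 hx)).exists
    exact h3.not_gt h4

theorem inj (H : UD E E1 b k t v e F r d E' i) {x y : Ordinal.{u}} (hx : x ≤ d) (hy : y ≤ d)
    (h : ∀ᶠ th in F, r th x = r th y) : x = y := by
  haveI := H.uf.ne
  rcases lt_trichotomy x y with h1 | h1 | h1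
  · obtain ⟨th, h3, h4⟩ := (h.and (H.los.mono x y h1 hy)).exists
    exact absurd h3 h4.ne
  · exact h1
  · obtain ⟨th, h3, h4⟩ := (h.and (H.los.mono y x h1 hx)).exists
    exact absurd h3 h4.ne'

/-- The value of a named function, `nil` if there is none. -/
noncomputable def vl (E : Seq.{u}) (a g : Tr.{u}) : Tr.{u} := (opt (fv E g a)).snd

theorem vl_eq {g a w : Tr.{u}} (h : fv E g a = some w) : vl E a g = w := by simp [vl, h]

theorem fv_of_vl {g a : Tr.{u}} {y} (h : vl E a g = leaf y) : fv E g a = some (leaf y) := by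
  cases h1 : fv E g a with
  | none => simp [vl, h1] at h
  | some w => simpa [vl, h1] using h

theorem fn_vl {f g : Tr.{u} → Tr.{u}} (hf : IsOp f) (hg : IsOp g) :
    Fn fun E _ z => vl E (f z) (g z) := (Fn.fv (Fn.op hg) (Fn.op hf)).snd

section

variable [AccSt.{u}]

theorem tlim (H : UCtx E E1 b k t v e) : ¬ Suc t :=
  not_suc_of_limit (AccSt.next_lim E (b + 1) k t H.pm.ls (next H) (KE.lt1 H.tb))

theorem room (H : UCtx E E1 b k t v e) {z : Tr.{u}} (hz : In t z) :
    ∃ m < t, k ≤ m ∧ In m z :=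
  ⟨max k z.ht, max_lt H.ext.lt (hz.ht_lt (limit_of_not_suc (tlim H) H.ext.lt.ne_bot)),
    le_max_left _ _, (in_ht z).mono (le_max_right _ _)⟩

/-- Definable properties pass from the target to almost all threads. -/
theorem meas (H : UCtx E E1 b k t v e) (U : UF E E1 k t e F) {A : Seq.{u} → Tr.{u} → Prop}
    (hA : Df fun E _ z => A E z) {a z : Tr.{u}} (ha : In (e k) a) (hz : In t z)
    (h : A E1 (node a (z.map e))) : ∀ᶠ th in F, A E (node (a.map th) z) := by
  obtain ⟨n, c, hc, h1⟩ := hA.name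
  obtain ⟨m, hm, hk, hz'⟩ := room H hz
  have h2 : m + n < t := add_nat_lt (tlim H) hm n
  have h3 : e m + n < v := add_nat_lt (vlim H) (H.ext.weak.maps m hm) n
  have h4 : c.map e = c := by rw [← hc, map_erase]
  have h5 : Nm E1 ((node (leaf (m + n)) (node c z)).map e) a := by
    rw [map_node, map_node, map_leaf, h4, H.ext.weak.add_nat n h2,
      h1 E1 _ _ _ (H.pm1.ls.mono h3.le)]
    refine ⟨(in_node _ _ _).2 ⟨ha.mono ((KE.w_le H.ext.weak H.ext.lt hm).2 hk), ?_⟩, h⟩
    exact (H.ext.weak.in_map hm hz).2 hz'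
  filter_upwards [U.pos _ a (by simp [h2, hz, in_of_lf hc]) ha h5] with th h6
  exact ((h1 E _ _ _ ((lst H).mono h2.le)).1 h6).2

/-- Every tree of the target is the value of a moved function at generators. -/
theorem repr (H : UCtx E E1 b k t v e) {w : Tr.{u}} (hw : In v w) :
    ∃ a g, In (e k) a ∧ In t g ∧ fv E1 (g.map e) a = some w := by
  have hv : Order.IsSuccLimit v :=
    limit_of_not_suc (vlim H) (H.ext.weak.maps k H.ext.lt).ne_bot
  obtain ⟨x, h1, h2⟩ := H.ext.cof _ (hw.ht_lt hv)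
  obtain ⟨a, h3, h4, h5⟩ := H.ext.top _ (max_lt h1 (not_suc_iff.1 (tlim H) k H.ext.lt))
  have h6 : k < a := Order.add_one_le_iff.1 ((le_max_right _ _).trans h3)
  have h7 : e x ≤ e a := (KE.w_le H.ext.weak h1 h4).2 ((le_max_left _ _).trans h3)
  have h8 : rho E1 (e a) ≤ e k := not_lt.1 fun h9 => h5.not_gt
    (((Df.olt (On.lab IsOp.id) On.top.rho).weak_lim H.ext.weak (lst H) H.pm1.ls (tlim H) h4 le_rfl
      (z := leaf k) (by simpa using h6)).1 h9)
  have h9 : a + 1 < t := not_suc_iff.1 (tlim H) a h4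
  have h10 : e (a + 1) = e a + 1 := by simpa using H.ext.weak.add_nat 1 (by simpa using h9)
  obtain ⟨c, q, h11, h12⟩ := F3.gen_succ (H.pm1.ls _ (H.ext.weak.maps a h4)).1 w
    ((in_ht w).mono ((h2.trans_le h7).le.trans (KE.lt1 le_rfl).le))
  refine ⟨q, node (leaf (a + 1)) (node c.erase nil), h11.mono h8, by simpa using h9, ?_⟩
  simpa [fv, h10] using h12

end

/-- `x` and `y` are represented by the same function and generators. -/
def R (E E1 : Seq.{u}) (k t : Ordinal.{u}) (e : Ordinal.{u} → Ordinal.{u})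
    (F : Filter (Ordinal.{u} → Ordinal.{u}))
    (r : (Ordinal.{u} → Ordinal.{u}) → Ordinal.{u} → Ordinal.{u}) (x y : Ordinal.{u}) : Prop :=
  ∃ a g, In (e k) a ∧ In t g ∧ vl E1 a (g.map e) = leaf y ∧
    ∀ᶠ th in F, vl E (a.map th) g = leaf (r th x)

theorem R.lt_t {x y} (h : R E E1 k t e F r x y) : ∀ᶠ th in F, r th x < t := by
  obtain ⟨a, g, -, h1, -, h2⟩ := h
  filter_upwards [h2] with th h3
  simpa using fv_in h1 (fv_of_vl h3)

theorem R.lt_v (H : UCtx E E1 b k t v e) {x y} (h : R E E1 k t e F r x y) : y < v := by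
  obtain ⟨a, g, -, h1, h2, -⟩ := h
  simpa using fv_in (KE.w_in H.ext.weak h1) (fv_of_vl h2)

section

variable [AccSt.{u}]

theorem df_lt : Df.{u} fun E _ z => ∃ a, vl E z.fst.snd z.snd.snd = leaf a ∧
    In a (vl E z.fst.fst z.snd.fst) :=
  Df.bd (fn_vl IsOp.id.fst.snd IsOp.id.snd.snd) (fn_vl IsOp.id.fst.fst IsOp.id.snd.fst)

theorem R.lt_iff (H : UD E E1 b k t v e F r d E' i) {x y x' y'} (h : R E E1 k t e F r x y)
    (h' : R E E1 k t e F r x' y') (hx : x ≤ d) (hx' : x' ≤ d) : x < x' ↔ y < y' := by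
  haveI := H.uf.ne
  obtain ⟨a, g, h1, h2, h3, h4⟩ := h
  obtain ⟨a', g', h1', h2', h3', h4'⟩ := h'
  have ha : In (e k) (node a a') := by simp [h1, h1']
  have hg : In t (node g g') := by simp [h2, h2']
  constructor
  · intro h5
    by_contra h6
    have h7 := meas H.ctx H.uf df_lt.not ha hg (by simpa [h3, h3'] using h6)
    obtain ⟨th, ⟨⟨h8, h9⟩, h10⟩, h11⟩ :=
      (((h7.and h4).and h4').and (H.los.mono x x' h5 hx')).exists
    exact h8 (by simpa [h9, h10] using h11)
  · intro h5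
    refine lt_of H hx ?_
    filter_upwards [meas H.ctx H.uf df_lt ha hg (by simpa [h3, h3'] using h5), h4, h4']
      with th h8 h9 h10
    simpa [h9, h10] using h8

theorem df_leaf : Df.{u} fun E _ z => ∃ a, vl E z.fst z.snd = leaf a :=
  Df.isleaf (fn_vl IsOp.id.fst IsOp.id.snd)

theorem onto (H : UD E E1 b k t v e F r d E' i) {y} (hy : y < v) :
    ∃ x < d, R E E1 k t e F r x y := by
  obtain ⟨a, g, h1, h2, h3⟩ := repr H.ctx (w := leaf y) (by simpa using hy)
  have h4 := meas H.ctx H.uf df_leaf h1 h2 ⟨y, vl_eq h3⟩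
  have hg : In b g := h2.mono H.ctx.tb
  obtain ⟨s, hs⟩ := IsOp.id.snd.fst.pair (IsOp.id.snd.snd.fst.pair
    (IsOp.id.fst.pair IsOp.id.snd.snd.snd))
  have h5 : ∀ᶠ th in F, (∃ y, vl E (a.map th) g = leaf y) ∧
      ev E b (prec s callc) (node (a.map th) g) = fv E g (a.map th) := by
    filter_upwards [h4, ae_in H.uf h1] with th h6 h7
    refine ⟨h6, ?_⟩
    obtain ⟨y, h6⟩ := h6
    have h8 := fv_of_vl h6
    have h9 : g.fst = leaf g.fst.lab := by
      by_contra h9
      simp [fv, h9] at h8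
    have h10 : In b (leaf g.fst.lab) := h9 ▸ hg.fst
    rw [ev_prec _ _ (by simp [hg, h7.mono (H.ctx.ext.lt.le.trans H.ctx.tb)]), hs, fv, if_pos h9]
    simp only [fst_node, snd_node]
    rw [h9, ev_callc (by simpa using h10) _ hg.snd.fst, lab_leaf]
  obtain ⟨x, h6, h7⟩ := H.rep.onto a (prec s callc) g h1 hg (by
    filter_upwards [h5] with th h6
    obtain ⟨⟨y, h7⟩, h8⟩ := h6
    exact ⟨y, h8.trans (fv_of_vl h7)⟩)
  refine ⟨x, h6, a, g, h1, h2, vl_eq h3, ?_⟩
  filter_upwards [h5, h7] with th h8 h9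
  exact vl_eq (h8.2.symm.trans h9)

variable [RegSt.{u}]

theorem down (H : UD E E1 b k t v e F r d E' i) {x} (hx : x < d)
    (h : ∀ᶠ th in F, r th x < t) : ∃ y, R E E1 k t e F r x y := by
  haveI := H.uf.ne
  obtain ⟨a, c, z, h1, h2, h3⟩ := H.rep.rep x hx
  obtain ⟨g, h4, h5⟩ := RegSt.reg_fun E (b + 1) k t (node (leaf b) (node c.erase z)) H.ctx.pm.ls
    (next H.ctx) (KE.lt1 H.ctx.tb) (by simp [h2.mono (KE.lt1 le_rfl).le])
  have h6 : ∀ᶠ th in F, vl E (a.map th) g = leaf (r th x) := by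
    filter_upwards [h, h3, ae_in H.uf h1] with th h7 h8 h9
    exact vl_eq ((h5 _ _ h9).2 ⟨by simpa [fv] using h8, by simpa using h7⟩)
  by_contra h7
  obtain ⟨th, h8, h9⟩ := ((meas H.ctx H.uf df_leaf.not h1 h4
    fun ⟨y, h8⟩ => h7 ⟨y, a, g, h1, h4, h8, h6⟩).and h6).exists
  exact h8 ⟨_, h9⟩

theorem diag (H : UD E E1 b k t v e F r d E' i) {y} (hy : y < v) :
    y < d ∧ R E E1 k t e F r y y := by
  induction y using WellFoundedLT.induction with
  | ind y ih =>
    obtain ⟨x, h1, h2⟩ := onto H hy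
    rcases lt_trichotomy x y with h3 | h3 | h3
    · exact absurd (((ih x h3 (h3.trans hy)).2.lt_iff H h2 h1.le h1.le).2 h3) (lt_irrefl _)
    · exact h3 ▸ ⟨h1, h3 ▸ h2⟩
    · have h4 : y < d := h3.trans h1
      obtain ⟨y', h5⟩ := down H h4 (by
        filter_upwards [h2.lt_t, H.los.mono y x h3 h1.le] with th h5 h6
        exact h6.trans h5)
      have h6 : y' < y := (h5.lt_iff H h2 h4.le h1.le).1 h3
      exact absurd (((ih y' h6 (h6.trans hy)).2.lt_iff H h5 (h6.trans h4).le h4.le).1 h6)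
        (lt_irrefl _)

theorem v_le (H : UD E E1 b k t v e F r d E' i) : v ≤ d :=
  not_lt.1 fun h => (diag H h).1.false

/-- Definable functions: the fibres of the value are the values in the fibres. -/
theorem val (H : UD E E1 b k t v e F r d E' i) {a z : Tr.{u}} (ha : In (e k) a) (hz : In t z)
    {w : Tr.{u}} (hw : In v w) : ∀ {f : Seq.{u} → Tr.{u} → Tr.{u}}, (Fn fun E _ z => f E z) →
    f E1 (node a (z.map e)) = w → ∀ᶠ th in F, f E (node (a.map th) z) = w.map (r th) := by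
  induction w with
  | nil =>
    intro f hf h
    exact meas H.ctx H.uf (A := fun E q => f E q = nil) (Df.eq hf Fn.nil) ha hz h
  | leaf y =>
    intro f hf h
    obtain ⟨a', g, h1, h2, h3, h4⟩ := (diag H (by simpa using hw : y < v)).2
    filter_upwards [meas H.ctx H.uf
      (A := fun E q => f E (node q.fst.fst q.snd.fst) = vl E q.fst.snd q.snd.snd)
      (Df.eq (hf.pre (IsOp.id.fst.fst.pair IsOp.id.snd.fst))
      (fn_vl IsOp.id.fst.snd IsOp.id.snd.snd)) (a := node a a') (z := node z g)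
      (by simp [ha, h1]) (by simp [hz, h2]) (h.trans h3.symm), h4] with th h5 h6
    exact h5.trans h6
  | node l s ih1 ih2 =>
    intro f hf h
    rw [in_node] at hw
    filter_upwards [meas H.ctx H.uf (A := fun E q => f E q = node (f E q).fst (f E q).snd)
      (Df.eq hf (hf.fst.pair hf.snd)) ha hz (by simp [h]),
      ih1 hw.1 hf.fst (by simp [h]), ih2 hw.2 hf.snd (by simp [h])] with th h1 h2 h3
    rw [h1, h2, h3, map_node]

theorem gen (H : UD E E1 b k t v e F r d E' i) {g} (hg : g < e k) :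
    ∀ᶠ th in F, r th g = th g := by
  filter_upwards [val H (a := leaf g) (z := nil) (w := leaf g) (by simpa using hg) (by simp)
    (by simpa using hg.trans (H.ctx.ext.weak.maps k H.ctx.ext.lt)) Fn.id.fst rfl] with th h
  simpa using h.symm

theorem map_lt (H : UD E E1 b k t v e F r d E' i) {x} (hx : x < t) : i x = e x := by
  have h1 := H.ctx.ext.weak.maps x hx
  have h2 := hx.trans_le H.ctx.tb
  refine inj H (H.ilt x h2).le (h1.le.trans (v_le H)) ?_
  filter_upwards [val H (a := nil) (z := leaf x) (w := leaf (e x)) (by simp) (by simpa using hx)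
    (by simpa using h1) Fn.id.snd rfl, H.ival x h2.le] with th h3 h4
  rw [h4]
  simpa using h3

theorem map_top (H : UD E E1 b k t v e F r d E' i) : i t = v := by
  have h1 : i t ≤ d := by
    rcases H.ctx.tb.eq_or_lt with h | h
    · rw [h, H.itop]
    · exact (H.ilt t h).le
  refine le_antisymm (not_lt.1 fun h => ?_) (not_lt.1 fun h => ?_)
  · obtain ⟨y, h2⟩ := down H (h.trans_le h1) (by
      filter_upwards [H.los.mono v _ h h1, H.ival t H.ctx.tb] with th h2 h3
      exact h3 ▸ h2)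
    have h3 := h2.lt_v H.ctx
    exact (((diag H h3).2.lt_iff H h2 (diag H h3).1.le (v_le H)).1 h3).false
  · haveI := H.uf.ne
    obtain ⟨th, h2, h3⟩ := ((diag H h).2.lt_t.and (H.ival t H.ctx.tb)).exists
    exact h2.ne h3

/-- Definable properties of trees of the target hold in almost all fibres. -/
theorem ae_of (H : UD E E1 b k t v e F r d E' i) {A : Seq.{u} → Tr.{u} → Prop}
    (hA : Df fun E _ z => A E z) {w : Tr.{u}} (hw : In v w) (h : A E1 w) :
    ∀ᶠ th in F, A E (w.map (r th)) := by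
  obtain ⟨a, g, h1, h2, h3⟩ := repr H.ctx hw
  have hf := fn_vl IsOp.id.fst IsOp.id.snd
  filter_upwards [meas H.ctx H.uf (A := fun E q => A E (vl E q.fst q.snd)) (hA.comp hf) h1 h2
    (by simpa [vl_eq h3] using h),
    val H h1 h2 hw hf (vl_eq h3)] with th h4 h5
  exact h5 ▸ h4

theorem agree (H : UD E E1 b k t v e F r d E' i) : Agree E' E1 v := by
  haveI := H.uf.ne
  intro n hn
  have hd : n < d := (diag H hn).1
  funext x y
  have h1 := H.bdd n (KE.lt1 hd.le) x y
  have h2 : E1 n x y → x < n ∧ y < n ∧ ¬ Suc n := fun h => by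
    rcases H.ctx.pm1.act n hn with h3 | ⟨k0, t0, g, h3⟩
    · exact absurd h (h3 x y)
    · obtain ⟨h4, h5⟩ := (h3.graph x y).1 h
      exact ⟨h4.trans h3.dom, h5 ▸ h3.weak.maps x h4, ActF.lim h3⟩
  by_cases h3 : x < n ∧ y < n ∧ ¬ Suc n
  swap
  · exact propext ⟨fun h => absurd (h1 h) h3, fun h => absurd (h2 h) h3⟩
  obtain ⟨hx, hy, hs⟩ := h3
  have hi : In n (node (leaf x) (leaf y)) := by simp [hx, hy]
  have hA : Df.{u} fun E _ z => In z.fst.lab z.snd ∧ ora E z.fst.lab z.snd :=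
    Df.ora (On.lab IsOp.id.fst) Fn.id.snd
  have hw : In v (node (leaf n) (node (leaf x) (leaf y))) := by
    simp [hn, hx.trans hn, hy.trans hn]
  have h4 : ∀ᶠ th in F, In (r th n) ((node (leaf x) (leaf y)).map (r th)) ∧
      (ora E (r th n) ((node (leaf x) (leaf y)).map (r th)) ↔ E' n x y) := by
    filter_upwards [H.los.los n hd.le extc _ hi, H.los.mono x n hx hd.le,
      H.los.mono y n hy hd.le] with th h4 h5 h6
    have h7 : In (r th n) ((node (leaf x) (leaf y)).map (r th)) := by simp [h5, h6]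
    rw [ev_extc h7, ev_extc hi, Option.map_some, map_tv, Option.some.injEq] at h4
    refine ⟨h7, ?_⟩
    rw [← tv_eq_nil (ora _ _ _), h4, tv_eq_nil]
    exact ⟨fun h => h.2, fun h => ⟨hs, h⟩⟩
  refine propext ⟨fun h => ?_, fun h => ?_⟩
  · by_contra h5
    obtain ⟨th, h6, h7, h8⟩ := ((ae_of H hA.not hw fun h6 => h5 h6.2.2).and h4).exists
    exact h6 ⟨h7, h8.2 h⟩
  · obtain ⟨th, h6, -, h8⟩ := ((ae_of H hA hw ⟨hi, hs, h⟩).and h4).exists
    exact h8.1 h6.2

end

end UId

instance [AccSt.{u}] [RegSt.{u}] : UIdSt.{u} :=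
  ⟨fun H _ hg => UId.gen H hg, fun H => ⟨fun _ hx => UId.map_lt H hx, UId.map_top H⟩, UId.agree⟩

end Pool.Agent.KM
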