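import Pool.Agent.Lib.MP_5c0be7_lc.L.Los1

/-!
Project KM, block F5: the ultrapower is a reduced product.
-/

namespace Pool.Agent.KM

open Ordinal Tr Filter
open scoped Classical

universe u

namespace UPre

variable {E E1 : Seq.{u}} {b k t v l d : Ordinal.{u}} {e : Ordinal.{u} → Ordinal.{u}}
  {F : Filter (Ordinal.{u} → Ordinal.{u})}
  {r : (Ordinal.{u} → Ordinal.{u}) → Ordinal.{u} → Ordinal.{u}}
  {G G1 G2 : (Ordinal.{u} → Ordinal.{u}) → Option Tr.{u}}

/-- `G` is computed at level `b` from generators below `l`. -/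
def Cm (E : Seq.{u}) (b l : Ordinal.{u}) (F : Filter (Ordinal.{u} → Ordinal.{u}))
    (G : (Ordinal.{u} → Ordinal.{u}) → Option Tr.{u}) : Prop :=
  ∃ a c z, In l a ∧ In b z ∧ ∀ᶠ th in F, ev E b c (node (a.map th) z) = G th

theorem Cm.congr (h : Cm E b l F G) (j : ∀ᶠ th in F, G th = G1 th) : Cm E b l F G1 :=
  let ⟨a, c, z, h1, h2, h3⟩ := h
  ⟨a, c, z, h1, h2, (h3.and j).mono fun _ i => i.1.trans i.2⟩

theorem Cm.val (h : Cm E b l F G) : ∀ᶠ th in F, ∀ w, G th = some w → In b w :=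
  let ⟨_, _, _, _, _, h3⟩ := h
  h3.mono fun _ i _ j => ev_in (i.trans j)

theorem Cm.const {y : Tr.{u}} (hy : In b y) : Cm E b l F fun _ => some y :=
  ⟨.nil, opc .snd, y, in_nil _, hy, Eventually.of_forall fun th => by
    rw [ev_opc _ (by simp [hy])]; rfl⟩

theorem Cm.bind (h : Cm E b l F G) (c : Tr.{u}) :
    Cm E b l F fun th => (G th).bind (ev E b c) :=
  let ⟨a, c0, z, h1, h2, h3⟩ := h
  ⟨a, cmp .fst c c0, z, h1, h2, h3.mono fun th i => by rw [ev_cmp, i]; rfl⟩

theorem dom_in (hu : UF E E1 k t e F) {a : Tr.{u}} (ha : In (e k) a) :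
    ∀ᶠ th in F, In k (a.map th) :=
  ((eventually_all_finite (lv_finite a)).2 fun z hz => hu.dom z (ha z hz)).mono
    fun _ j => KE.in_map j

section

variable (hc : UCtx E E1 b k t v e) (hu : UF E E1 k t e F)
include hc hu

theorem Cm.pair (h1 : Cm E b (e k) F G1) (h2 : Cm E b (e k) F G2) :
    Cm E b (e k) F fun th => (G2 th).bind fun w => (G1 th).map fun y => node y w := by
  obtain ⟨a1, c1, z1, p1, p2, p3⟩ := h1
  obtain ⟨a2, c2, z2, q1, q2, q3⟩ := h2
  have hkb : k ≤ b := hc.ext.lt.le.trans hc.tb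
  refine ⟨node a1 a2, pairc (prec (.pair .ff .fs) c1) (prec (.pair .sf .ss) c2), node z1 z2,
    by simp [p1, q1], by simp [p2, q2], ?_⟩
  filter_upwards [p3, q3, dom_in hu p1, dom_in hu q1] with th i1 i2 i3 i4
  have hx : In b (node ((node a1 a2).map th) (node z1 z2)) := by
    simp [i3.mono hkb, i4.mono hkb, p2, q2]
  rw [ev_pairc, ev_prec _ _ hx, ev_prec _ _ hx]
  simp only [map_node, bop_pair, bop_ff, bop_fs, bop_sf, bop_ss, fst_node, snd_node, i1, i2]

theorem Cm.pair' {y1 y2 : (Ordinal.{u} → Ordinal.{u}) → Tr.{u}}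
    (h1 : Cm E b (e k) F fun th => some (y1 th)) (h2 : Cm E b (e k) F fun th => some (y2 th)) :
    Cm E b (e k) F fun th => some (node (y1 th) (y2 th)) := Cm.pair hc hu h1 h2

/-- The call of a computed lower level. -/
theorem Cm.call {L : (Ordinal.{u} → Ordinal.{u}) → Ordinal.{u}}
    {y : (Ordinal.{u} → Ordinal.{u}) → Tr.{u}} (hL : Cm E b (e k) F fun th => some (leaf (L th)))
    (hy : Cm E b (e k) F fun th => some (y th)) (c : Tr.{u}) :
    Cm E b (e k) F fun th => ev E (L th) c (y th) := by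
  refine ((Cm.pair' hc hu hL (Cm.pair' hc hu (Cm.const (in_erase b c)) hy)).bind callc).congr ?_
  filter_upwards [hL.val] with th i
  rw [Option.bind_some, ev_callc (by simpa using i _ rfl) _ (in_erase b c), ev_erase]

theorem Cm.dec [UFSt.{u}] (h : Cm E b (e k) F G) : (∀ᶠ th in F, G th = none) ∨
    ∃ s : Tr.{u}, ∀ᶠ th in F, ∃ w, G th = some w ∧ w.erase = s := by
  obtain ⟨a, c, z, h1, h2, h3⟩ := h
  rcases UFSt.dec hc hu a c z h1 h2 with j | ⟨s, j⟩
  · exact Or.inl ((h3.and j).mono fun _ i => i.1.symm.trans i.2)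
  · exact Or.inr ⟨s, (h3.and j).mono fun _ i => i.1 ▸ i.2⟩

/-- A test on a computed value is decided. -/
theorem Cm.test [UFSt.{u}] {y : (Ordinal.{u} → Ordinal.{u}) → Tr.{u}}
    (h : Cm E b (e k) F fun th => some (y th)) (a : Op) :
    (∀ᶠ th in F, bop a (y th) = .nil) ∨ ∀ᶠ th in F, bop a (y th) ≠ .nil := by
  rcases Cm.dec hc hu (h.bind (tst a)) with j | ⟨s, j⟩
  · refine Or.inr ?_
    filter_upwards [j, h.val] with th i1 i2 i3
    rw [Option.bind_some, ev_tst _ (i2 _ rfl), if_pos i3] at i1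
    simp at i1
  · refine Or.inl ?_
    filter_upwards [j, h.val] with th ⟨w, i1, _⟩ i2
    rw [Option.bind_some, ev_tst _ (i2 _ rfl)] at i1
    by_contra i3
    simp [i3] at i1

variable (hr : Rep E b (e k) F r d)
include hr

omit hc hu in
theorem leaf_cm {x : Ordinal.{u}} (hx : x < d) :
    Cm E b (e k) F fun th => some (leaf (r th x)) := hr.rep x hx

theorem tree {x : Tr.{u}} (hx : In d x) : Cm E b (e k) F fun th => some (x.map (r th)) := by
  induction x with
  | nil => exact Cm.const (in_nil _)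
  | leaf a => exact leaf_cm hr (by simpa using hx)
  | node p q ihp ihq => exact Cm.pair' hc hu (ihp hx.fst) (ihq hx.snd)

omit hc hu in
theorem onto (h : Cm E b (e k) F G) (j : ∀ᶠ th in F, ∃ y, G th = some (leaf y)) :
    ∃ x < d, ∀ᶠ th in F, G th = some (leaf (r th x)) := by
  obtain ⟨a, c, z, h1, h2, h3⟩ := h
  obtain ⟨x, hx, h4⟩ := hr.onto a c z h1 h2 ((h3.and j).mono fun _ i => i.1 ▸ i.2)
  exact ⟨x, hx, (h3.and h4).mono fun _ i => i.1.symm.trans i.2⟩

theorem shape [UFSt.{u}] (s : Tr.{u}) {y : (Ordinal.{u} → Ordinal.{u}) → Tr.{u}}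
    (h : Cm E b (e k) F fun th => some (y th)) (j : ∀ᶠ th in F, (y th).erase = s) :
    ∃ w, In d w ∧ ∀ᶠ th in F, y th = w.map (r th) := by
  induction s generalizing y with
  | nil =>
    rcases Cm.test hc hu h .isleaf with i | i
    · obtain ⟨x, hx, h4⟩ := onto hr h (i.mono fun th i => by
        obtain ⟨a, i⟩ : ∃ a, y th = leaf a := by simpa using i
        exact ⟨a, by rw [i]⟩)
      exact ⟨leaf x, by simpa using hx, h4.mono fun _ i => Option.some.inj i⟩
    · refine ⟨.nil, in_nil _, ?_⟩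
      filter_upwards [i, j] with th i1 i2
      cases e1 : y th with
      | nil => rfl
      | leaf a => simp [e1] at i1
      | node p q => simp [e1] at i2
  | leaf a =>
    haveI := hu.ne
    obtain ⟨th, i⟩ := j.exists
    cases e1 : y th <;> simp [e1] at i
  | node p q ihp ihq =>
    have h1 : Cm E b (e k) F fun th => some (y th).fst :=
      (h.bind (opc .fst)).congr (h.val.mono fun th i => ev_opc _ (i _ rfl))
    have h2 : Cm E b (e k) F fun th => some (y th).snd :=
      (h.bind (opc .snd)).congr (h.val.mono fun th i => ev_opc _ (i _ rfl))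
    obtain ⟨w1, p1, p2⟩ := ihp h1 (j.mono fun th i => by rw [← erase_fst, i]; rfl)
    obtain ⟨w2, q1, q2⟩ := ihq h2 (j.mono fun th i => by rw [← erase_snd, i]; rfl)
    refine ⟨node w1 w2, by simp [p1, q1], ?_⟩
    filter_upwards [j, p2, q2] with th i1 i2 i3
    cases e1 : y th with
    | nil => simp [e1] at i1
    | leaf a => simp [e1] at i1
    | node p' q' =>
      rw [e1] at i2 i3
      rw [map_node, ← i2, ← i3]; rfl

theorem value [UFSt.{u}] (h : Cm E b (e k) F G) : (∀ᶠ th in F, G th = none) ∨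
    ∃ w, In d w ∧ ∀ᶠ th in F, G th = some (w.map (r th)) := by
  rcases Cm.dec hc hu h with j | ⟨s, j⟩
  · exact Or.inl j
  · have j1 : ∀ᶠ th in F, G th = some ((G th).getD .nil) := j.mono fun th ⟨w, i, _⟩ => by
      rw [i]; rfl
    obtain ⟨w, h1, h2⟩ := shape hc hu hr s (h.congr j1) (j.mono fun th ⟨w, i, i2⟩ => by
      rw [i]; exact i2)
    exact Or.inr ⟨w, h1, (j1.and h2).mono fun th i => by rw [i.1, i.2]⟩

omit hc hu in
theorem lt_top {x : Ordinal.{u}} (hx : x < d) : ∀ᶠ th in F, r th x < b :=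
  (leaf_cm hr hx).val.mono fun _ i => by simpa using i _ rfl

omit hc hu in
theorem mono {x x' : Ordinal.{u}} (h : x < x') (hx : x' ≤ d) : ∀ᶠ th in F, r th x < r th x' := by
  rcases hx.eq_or_lt with rfl | hx
  · exact (lt_top hr h).mono fun th i => by rwa [hr.top]
  · exact hr.mono _ _ h hx

theorem suc_of {a g : Ordinal.{u}} (ha : a < d) (hg : g + 1 ≤ b) (j : ∀ᶠ th in F, r th a < g) :
    ∀ᶠ th in F, r th (a + 1) = r th a + 1 := by
  haveI := hu.ne
  have hs : ∃ p, SS E g p := (hc.pm.ls g ((lt_add_one g).trans (KE.lt1 hg))).1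
  have h1 : Cm E b (e k) F fun th => ev E (g + 1) sucC (leaf (r th a)) := by
    rcases hg.eq_or_lt with rfl | hg
    · exact (leaf_cm hr ha).bind sucC
    · exact Cm.call hc hu (Cm.const (by simpa using hg)) (leaf_cm hr ha) sucC
  obtain ⟨x, hx, h2⟩ := onto hr h1 (j.mono fun th i => ⟨_, ev_sucC hs i⟩)
  have h3 : ∀ᶠ th in F, r th x = r th a + 1 := (j.and h2).mono fun th i =>
    (leaf.inj (Option.some.inj ((ev_sucC hs i.1).symm.trans i.2))).symm
  rcases lt_trichotomy x (a + 1) with h4 | rfl | h4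
  · exfalso
    rcases (KE.le1 h4).eq_or_lt with rfl | h4
    · obtain ⟨th, i⟩ := h3.exists
      exact (lt_add_one _).ne i
    · obtain ⟨th, i1, i2⟩ := (h3.and (mono hr h4 ha.le)).exists
      exact (lt_add_one _).not_gt (i1 ▸ i2)
  · exact h3
  · exfalso
    obtain ⟨th, i1, i2, i3⟩ := (h3.and ((mono hr h4 hx.le).and
      (mono hr (lt_add_one a) (Order.add_one_le_iff.2 ha)))).exists
    exact i3.not_ge (KE.le1 (i1 ▸ i2))

theorem suc [UFSt.{u}] {a : Ordinal.{u}} (ha : a + 1 ≤ d) :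
    ∀ᶠ th in F, r th (a + 1) = r th a + 1 := by
  haveI := hu.ne
  have ha' : a < d := Order.add_one_le_iff.1 ha
  by_cases hb : Suc b
  · obtain ⟨g, rfl⟩ := hb
    rcases Cm.test hc hu (Cm.pair' hc hu (leaf_cm hr ha')
      (Cm.const (y := leaf g) (by simp))) .eq with i | i
    · have i' : ∀ᶠ th in F, r th a = g := i.mono fun th i => by simpa using i
      rcases ha.eq_or_lt with e1 | h1
      · exact i'.mono fun th i => by rw [e1, hr.top, i]
      · exfalso
        obtain ⟨th, i1, i2, i3⟩ := (i'.and ((lt_top hr h1).and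
          (mono hr (lt_add_one a) ha))).exists
        exact i3.not_ge (i1 ▸ KE.le1 i2)
    · refine suc_of hc hu hr ha' le_rfl ?_
      filter_upwards [i, lt_top hr ha'] with th i1 i2
      exact lt_of_le_of_ne (KE.le1 i2) (by simpa using i1)
  · obtain ⟨a0, c, z, h1, h2, h3⟩ := hr.rep a ha'
    have hkb : k < b := hc.ext.lt.trans_le hc.tb
    have hl : Order.IsSuccLimit b := by
      rw [Ordinal.isSuccLimit_iff]
      exact ⟨(lt_of_le_of_lt (by simp) hkb).ne', Order.isSuccPrelimit_of_succ_lt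
        (not_suc_iff.1 hb)⟩
    have hg : max k z.ht < b := max_lt hkb (h2.ht_lt hl)
    refine suc_of hc hu hr ha' (Order.add_one_le_iff.2 hg) ?_
    filter_upwards [h3, dom_in hu h1] with th i1 i2
    simpa only [in_leaf] using ev_lim_in (k := max k z.ht) hb
      ((in_node _ _ _).2 ⟨i2.mono (le_max_left _ _), (in_ht z).mono (le_max_right _ _)⟩) i1

theorem sys [UFSt.{u}] : Sys F (fun _ => E) r d :=
  ⟨hu.ne, fun _ _ => mono hr, fun _ => suc hc hu hr, Eventually.of_forall fun th => by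
    rw [hr.top]; exact hc.pm.ls.mono le_self_add⟩

theorem clo [UFSt.{u}] {a : Ordinal.{u}} (ha : a ≤ d) : CloAt F (fun _ => E) r a := by
  intro c x hx
  have h1 : Cm E b (e k) F fun th => ev E (r th a) c (x.map (r th)) := by
    rcases ha.eq_or_lt with rfl | h
    · exact ((tree hc hu hr hx).bind c).congr (Eventually.of_forall fun th => by
        rw [hr.top]; rfl)
    · exact Cm.call hc hu (leaf_cm hr h) (tree hc hu hr (hx.mono ha)) c
  rcases value hc hu hr h1 with j | ⟨w, h2, j⟩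
  · exact Or.inl j
  · exact Or.inr ⟨w, (sys hc hu hr).in_of ha (h2.succ le_rfl)
      ((sys hc hu hr).fr (j.mono fun _ i => ev_in i)), j⟩

theorem ex [UFSt.{u}] [LosSt.{u}] : ∃ E' i, UD E E1 b k t v e F r d E' i := by
  have h1 : ∀ x, ∃ y, (x < b → y < d ∧ ∀ᶠ th in F, r th y = x) ∧ (¬ x < b → y = d) := by
    intro x
    by_cases hx : x < b
    · obtain ⟨y, h1, h2⟩ := onto hr (Cm.const (y := leaf x) (by simpa using hx))
        (Eventually.of_forall fun _ => ⟨x, rfl⟩)
      exact ⟨y, fun _ => ⟨h1, h2.mono fun _ i => (leaf.inj (Option.some.inj i)).symm⟩,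
        fun j => absurd hx j⟩
    · exact ⟨d, fun j => absurd j hx, fun _ => rfl⟩
  choose i hi using h1
  refine ⟨lseq F (fun _ => E) r d, i, hc, hu, hr, LosSt.los ⟨sys hc hu hr,
    fun a ha => clo hc hu hr ha, fun w h1 h2 x h3 y h4 => ⟨fun j => j.2.2.2.2,
      fun j => ⟨h1, h2, h3, h4, j⟩⟩⟩, fun w _ x y j => ⟨j.2.2.1, j.2.2.2.1, j.2.1⟩,
    fun x hx => tree hc hu hr hx, (hi b).2 (lt_irrefl b), fun x hx => ((hi x).1 hx).1,
    fun x hx => ?_⟩
  rcases hx.eq_or_lt with rfl | hx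
  · exact Eventually.of_forall fun th => by rw [(hi x).2 (lt_irrefl x), hr.top]
  · exact ((hi x).1 hx).2

end

end UPre

instance [UFSt.{u}] [LosSt.{u}] : UPreSt.{u} := ⟨fun hc hu hr => UPre.ex hc hu hr⟩

end Pool.Agent.KM
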