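import Pool.Agent.Lib.MP_5c0be7_lc.L.UF
import Pool.Agent.Lib.MP_5c0be7_lc.L.Rank
import Pool.Agent.Lib.MP_5c0be7_lc.K.Loc

/-!
Project KM, block F5: the ordinals of the ultrapower.
-/

namespace Pool.Agent.KM

open Ordinal Tr Filter
open scoped Classical

universe u

namespace URep

variable {E E1 : Seq.{u}} {b k t v : Ordinal.{u}} {e : Ordinal.{u} → Ordinal.{u}}
  {F : Filter (Ordinal.{u} → Ordinal.{u})}

theorem small_in (k : Ordinal.{u}) : _root_.Small.{u} {t : Tr.{u} | In k t} := by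
  obtain ⟨f⟩ : Nonempty ({t : Tr.{u} | In k t} ↪ (max Cardinal.aleph0 k.card).out) := by
    rw [← Cardinal.lift_mk_le', Cardinal.mk_out, Cardinal.lift_id'.{u, u + 1}]
    simpa [Cardinal.lift_max] using KL.mk_in k
  exact small_of_injective f.injective

/-- Comparison of the values of two codes. -/
def ltc (c c' : Tr.{u}) : Tr.{u} :=
  cmp .fst (tst (.ite (.comp .isleaf .fst) (.comp .bd (.pair .snd .fst)) .tone))
    (pairc (prec (.pair .ff .fs) c) (prec (.pair .sf .ss) c'))

theorem ev_ltc (c c' : Tr.{u}) {w z : Tr.{u}} :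
    (ev E b (ltc c c') (node w z)).isSome ↔ In b (node w z) ∧ ∃ x y,
      ev E b c (node w.fst z.fst) = some (leaf x) ∧
      ev E b c' (node w.snd z.snd) = some (leaf y) ∧ x < y := by
  by_cases i : In b (node w z)
  swap
  · simp [ev_guard i, i, -in_node]
  rw [ltc, ev_cmp, ev_pairc, ev_prec _ _ i, ev_prec _ _ i, and_iff_right i]
  simp only [bop_pair, bop_ff, bop_fs, bop_sf, bop_ss, fst_node, snd_node]
  cases h1 : ev E b c (node w.fst z.fst) with
  | none => cases ev E b c' (node w.snd z.snd) <;> simp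
  | some x =>
    cases h2 : ev E b c' (node w.snd z.snd) with
    | none => simp
    | some y =>
      simp only [Option.bind_some, Option.map_some, bop_fst, fst_node]
      rw [ev_tst_isSome _ ((in_node _ _ _).2 ⟨ev_in h1, ev_in h2⟩)]
      cases x <;> cases y <;> simp

/-- The value of the triple `p` along the thread `th`. -/
noncomputable def val (E : Seq.{u}) (b : Ordinal.{u}) (p : Tr.{u})
    (th : Ordinal.{u} → Ordinal.{u}) : Ordinal.{u} :=
  ((ev E b p.snd.fst (node (p.fst.map th) p.snd.snd)).getD .nil).lab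

/-- Triples of generators, code and parameter whose value is almost always an ordinal. -/
def Ok (E : Seq.{u}) (b l : Ordinal.{u}) (F : Filter (Ordinal.{u} → Ordinal.{u})) (p : Tr.{u}) :
    Prop :=
  In l p.fst ∧ In b p.snd.snd ∧
    ∀ᶠ th in F, ev E b p.snd.fst (node (p.fst.map th) p.snd.snd) = some (leaf (val E b p th))

theorem lt_iff {l : Ordinal.{u}} {p q : Tr.{u}} (hp : Ok E b l F p) (hq : Ok E b l F q) :
    ∀ᶠ th in F, (ev E b (ltc p.snd.fst q.snd.fst) (node ((node p.fst q.fst).map th)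
      (node p.snd.snd q.snd.snd))).isSome ↔ val E b p th < val E b q th := by
  filter_upwards [hp.2.2, hq.2.2] with th h1 h2
  have h3 := in_of_ev_eq h1
  have h4 := in_of_ev_eq h2
  rw [in_node] at h3 h4
  simp [ev_ltc, h1, h2, h3, h4]

theorem dich (h : UCtx E E1 b k t v e) (hF : UF E E1 k t e F) {p q : Tr.{u}}
    (hp : Ok E b (e k) F p) (hq : Ok E b (e k) F q) :
    (∀ᶠ th in F, val E b p th < val E b q th) ∨ ∀ᶠ th in F, val E b q th ≤ val E b p th := by
  rcases UFP.dec h hF (node p.fst q.fst) (ltc p.snd.fst q.snd.fst) (node p.snd.snd q.snd.snd)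
    ((in_node _ _ _).2 ⟨hp.1, hq.1⟩) ((in_node _ _ _).2 ⟨hp.2.1, hq.2.1⟩) with h1 | ⟨s, h1⟩
  · right
    filter_upwards [h1, lt_iff hp hq] with th h2 h3
    rw [← not_lt, ← h3, h2]
    simp
  · left
    filter_upwards [h1, lt_iff hp hq] with th ⟨w, h2, _⟩ h3
    rw [← h3, h2]
    rfl

theorem ult (h : UCtx E E1 b k t v e) (hF : UF E E1 k t e F) {p q : Tr.{u}}
    (hp : Ok E b (e k) F p) (hq : Ok E b (e k) F q)
    (H : ∀ᶠ th in F, val E b p th < val E b q th) :
    ULt E (b + 1) k t E1 e (p.fst, node (leaf b) (node p.snd.fst.erase p.snd.snd))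
      (q.fst, node (leaf b) (node q.snd.fst.erase q.snd.snd)) := by
  obtain ⟨n, h1, h2, h3⟩ := UFP.ae h hF (node p.fst q.fst) (ltc p.snd.fst q.snd.fst)
    (node p.snd.snd q.snd.snd) ((in_node _ _ _).2 ⟨hp.1, hq.1⟩)
    ((in_node _ _ _).2 ⟨hp.2.1, hq.2.1⟩)
    (by filter_upwards [H, lt_iff hp hq] with th h2 h3 using h3.2 h2)
  refine ⟨hp.1, hq.1, by simp [-erase_fst, -erase_snd, hp.2.1.mono le_self_add],
    by simp [-erase_fst, -erase_snd, hq.2.1.mono le_self_add], n, h1, h2, fun w hw h4 => ?_⟩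
  simpa [fv, -erase_fst, -erase_snd] using ((ev_ltc _ _).1 (h3 w hw h4)).2

theorem ex (h : UCtx E E1 b k t v e) (hF : UF E E1 k t e F) (hw : UWf E (b + 1) k t E1 e) :
    ∃ r d, Rep E b (e k) F r d := by
  have := small_in (max (e k) b)
  have := hF.ne
  let P : Set Tr.{u} := {p | In (max (e k) b) p ∧ Ok E b (e k) F p}
  have : _root_.Small.{u} P := small_subset (s := {t | In (max (e k) b) t}) fun p hp => hp.1
  obtain ⟨d, rk, h1, h2, h3⟩ := RankSt.rank (P := P)
    (fun p q => ∀ᶠ th in F, val E b p.1 th < val E b q.1 th)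
    (wellFounded_iff_isEmpty_descending_chain.2 ⟨fun ⟨p, hp⟩ => hw
      ⟨fun n => ((p n).1.fst, node (leaf b) (node (p n).1.snd.fst.erase (p n).1.snd.snd)),
        fun n => ult h hF (p (n + 1)).2.2 (p n).2.2 (hp n)⟩⟩)
    fun p q s H => (dich h hF p.2.2 s.2.2).imp_right fun H' => by
      filter_upwards [H, H'] with th i j using j.trans_lt i
  choose c hc using h2
  refine ⟨fun th x => if i : x < d then val E b (c x i).1 th else b, d,
    fun _ => dif_neg (lt_irrefl d), fun x hx => ?_, fun a q z ha hz H => ?_,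
    fun x y hxy hy => ?_⟩
  · simp only [dif_pos hx]
    exact ⟨_, _, _, (c x hx).2.2⟩
  · have H' : ∀ᶠ th in F, ev E b q (node (a.map th) z) =
        some (leaf (val E b (node a (node q.erase z)) th)) := by
      filter_upwards [H] with th ⟨y, hy⟩
      simp [val, hy]
    let p : P := ⟨node a (node q.erase z),
      by simp [ha.mono (le_max_left _ _), hz.mono (le_max_right _ _)], ha, hz, by simpa using H'⟩
    refine ⟨rk p, h1 p, ?_⟩
    simp only [dif_pos (h1 p)]
    have h4 := hc _ (h1 p)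
    filter_upwards [H', (dich h hF p.2.2 (c _ (h1 p)).2.2).resolve_left
      fun i => h4.not_gt ((h3 _ _).2 i), (dich h hF (c _ (h1 p)).2.2 p.2.2).resolve_left
      fun i => h4.not_lt ((h3 _ _).2 i)] with th i1 i2 i3
    rw [i1, le_antisymm i2 i3]
  · simp only [dif_pos hy, dif_pos (hxy.trans hy)]
    exact (h3 _ _).1 (by rwa [hc, hc])

end URep

instance : URepSt.{u} := ⟨URep.ex⟩

end Pool.Agent.KM
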