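import Pool.Agent.Lib.MP_5c0be7_lc.L.Los1
import Pool.Agent.Lib.MP_5c0be7_lc.O.F3c
import Pool.Agent.Lib.MP_5c0be7_lc.T.GoodTh

/-!
Project KM, block F5: the top level of an ultrapower.
-/

namespace Pool.Agent.KM

open Ordinal Tr Filter
open scoped Classical

universe u

namespace UTop

variable {E E1 E' : Seq.{u}} {b k t v d g : Ordinal.{u}} {e i : Ordinal.{u} → Ordinal.{u}}
  {F : Filter (Ordinal.{u} → Ordinal.{u})}
  {r : (Ordinal.{u} → Ordinal.{u}) → Ordinal.{u} → Ordinal.{u}} {x s n : Tr.{u}}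

variable (h : UD E E1 b k t v e F r d E' i)
include h

theorem k_rho : k < rho E b := h.ctx.np b h.ctx.tb (lt_add_one b)

theorem k_lt : k < b := (k_rho h).trans_le (rho_le E b)

theorem i_le (hg : g ≤ b) : i g ≤ d :=
  hg.eq_or_lt.elim (fun e => e ▸ h.itop.le) fun e => (h.ilt g e).le

theorem mono : Mono i (Set.Iio (b + 1)) := fun x hx y hy hxy =>
  h.los.lt_of (i_le h (KE.le1 hx)) (h.los.fr (by
    filter_upwards [h.ival x (KE.le1 hx), h.ival y (KE.le1 hy)] with th h1 h2
    rwa [h1, h2]))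

theorem tval (hx : In (b + 1) x) : ∀ᶠ th in F, (x.map i).map (r th) = x := by
  have : ∀ᶠ th in F, ∀ a ∈ x.lv, r th (i a) = a :=
    (eventually_all_finite (lv_finite x)).2 fun a ha => h.ival a (KE.le1 (hx a ha))
  exact this.mono fun th j => by rw [Tr.map_map, map_eq_self j]

theorem in_i (hg : g ≤ b) (hx : In g x) : In (i g) (x.map i) :=
  KE.in_map fun a ha => mono h (KE.lt1 ((hx a ha).le.trans hg)) (KE.lt1 hg) (hx a ha)

theorem in_d (hx : In b x) : In d (x.map i) := h.itop ▸ in_i h le_rfl hx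

theorem in_d1 (hx : In (b + 1) x) : In (d + 1) (x.map i) :=
  KE.in_map fun a ha => KE.lt1 (i_le h (KE.le1 (hx a ha)))

theorem in_r (hg : g ≤ b) (hx : In (i g) x) : ∀ᶠ th in F, In g (x.map (r th)) := by
  filter_upwards [h.los.in_map (i_le h hg) hx, h.ival g hg] with th h1 h2
  rwa [h2] at h1

theorem gen {a : Tr.{u}} (ha : In (e k) a) :
    ∃ a', In (i k) a' ∧ ∀ᶠ th in F, a'.map (r th) = a.map th := by
  induction a with
  | nil => exact ⟨nil, by simp, Eventually.of_forall fun _ => rfl⟩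
  | leaf g =>
    have h1 := h.uf.dom g (by simpa using ha)
    have h2 : ∀ᶠ th in F, ev E b (opc .fst) (node ((leaf g).map th) nil) = some (leaf (th g)) :=
      h1.mono fun th j => ev_opc _ (by simpa using j.trans (k_lt h))
    obtain ⟨y, y1, y2⟩ := h.rep.onto (leaf g) (opc .fst) nil ha (by simp)
      (h2.mono fun th j => ⟨_, j⟩)
    have h3 : ∀ᶠ th in F, r th y = th g := by
      filter_upwards [h2, y2] with th j1 j2
      exact leaf.inj (Option.some.inj (j2.symm.trans j1))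
    refine ⟨leaf y, (in_leaf _ _).2 (h.los.lt_of y1.le (h.los.fr ?_)),
      h3.mono fun th j => congrArg leaf j⟩
    filter_upwards [h1, h3, h.ival k (k_lt h).le] with th j1 j2 j3
    rwa [j2, j3]
  | node l m ihl ihm =>
    obtain ⟨l', l1, l2⟩ := ihl ha.fst
    obtain ⟨m', m1, m2⟩ := ihm ha.snd
    refine ⟨node l' m', by simp [l1, m1], ?_⟩
    filter_upwards [l2, m2] with th j1 j2
    rw [map_node, map_node, j1, j2]

theorem tree (hx : In d x) : ∃ a c z, In (i k) a ∧ In b z ∧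
    ∀ᶠ th in F, ev E b c (node (a.map (r th)) z) = some (x.map (r th)) := by
  obtain ⟨a, c, z, h1, h2, h3⟩ := h.tree x hx
  obtain ⟨a', h4, h5⟩ := gen h h1
  refine ⟨a', c, z, h4, h2, ?_⟩
  filter_upwards [h3, h5] with th j1 j2
  rwa [j2]

theorem th {q : Tr.{u}} (hx : In d x) (hq : In d q) :
    ∀ᶠ th in F, (Th E b (x.map (r th)) (q.map (r th)) ↔ Th E' d x q) :=
  (h.los.th le_rfl (hx.mono le_self_add) (hq.mono le_self_add)).mono fun th j => by
    rwa [h.rep.top] at j

theorem nmi {q : Tr.{u}} (hn : In (b + 1) n) (hq : In d q) :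
    ∀ᶠ th in F, (Nm E n (q.map (r th)) ↔ Nm E' (n.map i) q) := by
  filter_upwards [h.los.nm (in_d1 h hn) (hq.mono le_self_add), tval h hn] with th j1 j2
  rwa [j2] at j1

theorem wit (hg : g ≤ b) (hs : In b s) (H : Names E b g (Th E b s) n) :
    Names E' d (i g) (Th E' d (s.map i)) (n.map i) := by
  refine ⟨in_d h H.1, fun q hq => h.los.cst ?_⟩
  have hq' := hq.mono (i_le h hg)
  filter_upwards [nmi h (H.1.mono le_self_add) hq', th h (in_d h hs) hq', in_r h hg hq,
    tval h (hs.mono le_self_add)] with th j1 j2 j3 j4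
  rw [j4] at j2
  exact j1.symm.trans ((H.2 _ j3).trans j2)

theorem proj (hg : g < rho E b) : i g < rho E' d := by
  have hgb := hg.trans_le (rho_le E b)
  have hm := max_lt hg (k_rho h)
  have hmb := hm.trans_le (rho_le E b)
  rcases F3.rho_cases E' d with h1 | ⟨y, hy, h1⟩
  · exact h1.symm ▸ h.ilt g hgb
  by_contra hc
  obtain ⟨a, c, z, h2, h3, h4⟩ := tree h hy
  obtain ⟨o1, o2, H⟩ := F3.ex_sq (f := fun t : Tr.{u} => node t.fst.fst t.snd)
    (g := fun t => node t.snd.fst.snd.snd t.fst) (by fun_prop) (by fun_prop)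
  obtain ⟨n, n1, n2⟩ := F3.named_of_lt hm h3
  have hgm : i g ≤ i (max g k) :=
    (mono h).monotoneOn (KE.lt1 hgb.le) (KE.lt1 hmb.le) (le_max_left _ _)
  have hkm : i k ≤ i (max g k) :=
    (mono h).monotoneOn (KE.lt1 (k_lt h).le) (KE.lt1 hmb.le) (le_max_right _ _)
  refine h1 (F3.named_mono (F3.named_congr (F3.named_pre ⟨_, wit h hmb.le h3 ⟨n1, n2⟩⟩
    (h.ilt g hgb) (h.ilt k (k_lt h))
    (g := fun q => node (F3.sq o1 o2 c.erase q.fst) (node a q))
    (by fun_prop (disch := first | assumption | simp))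
    fun q hq => by simp [h2.mono hkm, hq.mono hgm]) fun q hq => h.los.cst ?_) le_rfl (not_lt.1 hc))
  have hq' := hq.mono (i_le h hgb.le)
  have ha' := h2.mono (i_le h (k_lt h).le)
  filter_upwards [h4, th h hy hq', th h (in_d h h3)
    (q := node (F3.sq o1 o2 c.erase q.fst) (node a q)) (by simp [ha', hq']), in_r h hgb.le hq,
    tval h (h3.mono le_self_add)] with th j1 j2 j3 j4 j5
  rw [← j2, ← j3, j5]
  simp only [ThL, map_node, fst_node, snd_node, ev_map_code]
  rw [H E b _ _ _ (by simp [h3, j4.mono hgb.le,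
    show In b (a.map (r th)) from (in_of_ev_eq j1).fst])]
  simp [j1]

theorem gen_up {p : Tr.{u}} (hp : Gen E b (rho E b) p) (hg : ∀ a < rho E b, i a < g) :
    Gen E' d g (p.map i) := by
  intro y hy
  obtain ⟨a, c, z, h2, h3, h4⟩ := tree h hy
  obtain ⟨c2, w, h5, h6⟩ := hp z h3
  obtain ⟨o1, o2, H⟩ := F3.ex_sq (f := fun t : Tr.{u} => node t.fst.snd t.snd)
    (g := fun t => node t.snd.fst.fst t.fst) (by fun_prop) (by fun_prop)
  have h7 : In b (node w p) := in_of_ev_eq h6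
  have h8 := h2.mono (i_le h (k_lt h).le)
  refine ⟨F3.sq o1 o2 c2 c, node a (w.map i),
    (in_node _ _ _).2 ⟨h2.mono (hg k (k_rho h)).le, KE.in_map fun j hj => hg j (h5 j hj)⟩,
    h.los.val le_rfl (In.mono (k := d) (by simp [h8,
      show In d (w.map i) from in_d h h7.fst, show In d (p.map i) from in_d h h7.snd])
      le_self_add) (hy.mono le_self_add) (h.los.fr ?_)⟩
  filter_upwards [h4, tval h (h7.mono le_self_add)] with th j1 j2
  simp only [map_node, node.injEq] at j2 ⊢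
  rw [h.rep.top, j2.1, j2.2, H E b _ _ _ (by
    simpa [show In b (a.map (r th)) from (in_of_ev_eq j1).fst] using h7)]
  simp [h6, j1]

theorem solid_up {p : Tr.{u}} (hp : In b p) (H : Solid E b p) : Solid E' d (p.map i) := by
  induction p with
  | nil => trivial
  | leaf a => exact H.elim
  | node l s _ ih =>
    obtain ⟨g, rfl, h1, ⟨n, h2⟩, h3⟩ := H
    have hg : g < b := by simpa using hp.fst
    refine ⟨i g, rfl, fun a ha => ?_, ⟨_, wit h hg.le hp.snd h2⟩, ih hp.snd h3⟩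
    rw [lv_map] at ha
    obtain ⟨a, ha, rfl⟩ := ha
    exact mono h (KE.lt1 hg.le) (KE.lt1 (hp.snd a ha).le) (h1 a ha)

theorem cof (hz : g < rho E' d) : ∃ a < rho E b, g ≤ i a := by
  by_contra hc
  exact absurd (F3.gen_rho (gen_up h (ss_pp (h.ctx.pm.ls b (lt_add_one b)).1).2.2.2
    fun a ha => not_le.1 fun j => hc ⟨a, ha, j⟩)) (not_le.2 hz)

theorem ss : SS E' d ((pp E b).map i) := by
  obtain ⟨h1, h2, h3, h4⟩ := ss_pp (h.ctx.pm.ls b (lt_add_one b)).1
  refine ⟨in_d h h1, fun a ha => ?_, solid_up h h1 h3, gen_up h h4 fun a ha => proj h ha⟩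
  rw [lv_map] at ha
  obtain ⟨a, ha, rfl⟩ := ha
  by_contra hc
  obtain ⟨a', h5, h6⟩ := cof h (not_le.1 hc)
  have h7 := h5.trans_le (h2 a ha)
  exact absurd (mono h (KE.lt1 (h7.trans (h1 a ha)).le) (KE.lt1 (h1 a ha).le) h7) (not_lt.2 h6)

theorem nm_up (hg : g < b) (hs : In b s) (H : Named E b g (Th E b s)) :
    nm E' d (i g) (s.map i) = (nm E b g s).map i := by
  obtain ⟨n, h1, h2⟩ := exists_isLeast H
  have h3 := wit h hg.le hs h1
  simp only [nm, nmL]
  rw [least_eq_some.2 ⟨h1, h2⟩, least_eq_some.2 ⟨h3, fun m hm H' => ?_⟩]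
  · rfl
  refine h.los.cst ?_
  filter_upwards [h.los.inc (h.ilt g hg) H'.1 h3.1 fun q hq j => (h3.2 q hq).2 ((H'.2 q hq).1 j),
    h.los.inc (h.ilt g hg) h3.1 H'.1 fun q hq j => (H'.2 q hq).2 ((h3.2 q hq).1 j),
    h.los.lt_iff (H'.1.mono le_self_add) (h3.1.mono le_self_add), h.ival g hg.le,
    tval h (h1.1.mono le_self_add)] with th j1 j2 j3 j4 j5
  rw [j4, j5] at j1 j2
  rw [j5] at j3
  exact h2 _ (j3.2 hm) ⟨(j3.2 hm).in h1.1, fun q hq => (Iff.intro (j1 q hq) (j2 q hq)).trans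
    (h1.2 q hq)⟩

theorem wit_up {p : Tr.{u}} (hp : In b p) (H : Solid E b p) :
    witL (ev E') d (p.map i) = (witL (ev E) b p).map i := by
  induction p with
  | nil => rfl
  | leaf a => rfl
  | node l s _ ih =>
    obtain ⟨g, rfl, -, h2, h3⟩ := H
    simp only [map_node, map_leaf, witL, lab_leaf]
    rw [ih hp.snd h3]
    exact congrArg (node · _) (nm_up h (by simpa using hp.fst) hp.snd h2)

theorem par_up : par E' d = (par E b).map i := by
  have h1 := ss_pp (h.ctx.pm.ls b (lt_add_one b)).1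
  have h2 : pp E' d = (pp E b).map i := F3.ss_unique (ss_pp ⟨_, ss h⟩) (ss h)
  simp only [par, parL, map_node]
  rw [show ppL (ev E') d = _ from h2, wit_up h h1.1 h1.2.2.1]

theorem lev : Lev E' d := by
  refine ⟨⟨_, ss h⟩, fun hd => le_antisymm (rho_le _ _) (le_of_forall_lt fun y hy => ?_)⟩
  have hb : ¬ Suc b := h.los.cst ((h.los.lim le_rfl hd).mono fun th j => by rwa [h.rep.top] at j)
  obtain ⟨a, c, z, h2, h3, h4⟩ := tree h (x := leaf y) (by simpa using hy)
  have h5 : max k z.ht < b := max_lt (k_lt h) (h3.ht_lt (limit_of_not_suc hb (k_lt h).ne_bot))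
  refine lt_trans (h.los.lt_of hy.le (h.los.fr ?_))
    (proj h (((h.ctx.pm.ls b (lt_add_one b)).2 hb).symm ▸ h5))
  filter_upwards [h4, in_r h (k_lt h).le h2, h.ival _ h5.le] with th j1 j2 j3
  rw [j3]
  simpa using ev_lim_in hb (k := max k z.ht) (by
    simp [j2.mono (le_max_left _ _), (in_ht z).mono (le_max_right _ _)]) j1

theorem good : Good E b E' i := by
  refine ⟨⟨mono h, fun a ha => KE.lt1 (h.itop.symm ▸ i_le h (KE.le1 ha)), fun a ha => ?_,
    fun a ha c x hx => ?_⟩, fun a ha => h.itop.symm ▸ proj h ha, fun k' t' h1 h2 h3 a h4 h5 => ?_,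
    fun k' hk m n hm hn H q hq j => ?_⟩
  · rw [Order.succ_injective (ha : Order.succ b = Order.succ a)]
  · have h1 := KE.le1 ha
    have h2 : In (b + 1) x := hx.succ h1
    cases e : ev E a c x with
    | some w =>
      have h3 : In (b + 1) w := (ev_in e).succ h1
      refine h.los.val (i_le h h1) (in_d1 h h2) (in_d1 h h3) (h.los.fr ?_)
      filter_upwards [h.ival a h1, tval h h2, tval h h3] with th j1 j2 j3
      rw [j1, j2, j3, e]
    | none =>
      refine h.los.cst ?_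
      filter_upwards [h.ival a h1, tval h h2, h.los.ev (i_le h h1) c (in_d1 h h2)] with th j1 j2 j3
      rw [j1, j2, e] at j3
      simpa using j3.symm
  · rw [h.itop] at h5
    by_contra hc
    have h6 : rho E' a ≤ d := (rho_le _ _).trans h5.le
    refine h.los.cst (p := False) ?_
    filter_upwards [h.los.rho (Order.add_one_le_iff.2 h5) h6,
      h.los.mono _ _ (not_le.1 hc) (i_le h h1.le), h.los.mono_le h4 h5.le,
      h.los.mono _ _ h5 le_rfl, h.ival k' h1.le, h.ival t' h2.le] with th j1 j2 j3 j4 j5 j6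
    rw [j5] at j2
    rw [j6] at j3
    rw [h.rep.top] at j4
    exact lt_irrefl _ (j1.1 (j2.trans_le (h3 _ j3 j4)))
  · have h1 : k' ≤ b := hk.le.trans (rho_le E b)
    have h2 := hq.mono (i_le h h1)
    refine h.los.cst ?_
    filter_upwards [nmi h hm h2, nmi h hn h2, in_r h h1 hq] with th j1 j2 j3
    exact j2.1 (H _ j3 (j1.2 j))

theorem top : Lev E' d ∧ Comm E (b + 1) E' (d + 1) i := by
  have h1 : LS E' (d + 1) := fun a ha => (KE.le1 ha).eq_or_lt.elim (fun e => e ▸ lev h)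
    (h.los.ls' a)
  have h2 := good_strong (good h) h.ctx.pm.ls (h.itop.symm ▸ h1) (h.itop.symm ▸ par_up h)
    fun z hz => cof h (h.itop ▸ hz)
  exact ⟨lev h, h.itop ▸ h2.commTop⟩

end UTop

instance : UTopSt.{u} := ⟨UTop.top⟩

end Pool.Agent.KM
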