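import Pool.Agent.Lib.MP_5c0be7_lc.L.Los1
import Pool.Agent.Lib.MP_5c0be7_lc.K.Loc

/-!
Project KM, block F5: existence of ultrapowers.
-/

namespace Pool.Agent.KM

open Ordinal Tr
open scoped Classical

universe u

namespace UltI

variable {E E1 E' : Seq.{u}} {b k t v d : Ordinal.{u}} {e i : Ordinal.{u} → Ordinal.{u}}
  {F : Filter (Ordinal.{u} → Ordinal.{u})}
  {r : (Ordinal.{u} → Ordinal.{u}) → Ordinal.{u} → Ordinal.{u}}

variable (U : UD E E1 b k t v e F r d E' i)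
include U

theorem i_le {x} (hx : x ≤ b) : i x ≤ d := by
  rcases hx.eq_or_lt with h | h
  · rw [h, U.itop]
  · exact (U.ilt x h).le

theorem i_lt {x y} (h : x < y) (hy : y ≤ b) : i x < i y :=
  U.los.lt_of (i_le U (h.le.trans hy)) (U.los.fr (by
    filter_upwards [U.ival x (h.le.trans hy), U.ival y hy] with th h1 h2
    rwa [h1, h2]))

theorem i_in {a : Tr.{u}} (ha : In (b + 1) a) : In (d + 1) (a.map i) :=
  KE.in_map fun z hz => KE.lt1 (i_le U (KE.le1 (ha z hz)))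

theorem ival {a : Tr.{u}} (ha : In (b + 1) a) : ∀ᶠ th in F, (a.map i).map (r th) = a := by
  induction a with
  | nil => simp
  | leaf x => simpa using U.ival x (KE.le1 (by simpa using ha))
  | node l s ih1 ih2 =>
    rw [in_node] at ha
    filter_upwards [ih1 ha.1, ih2 ha.2] with th h1 h2
    rw [map_node, map_node, h1, h2]

theorem comm {a} (ha : a ≤ b) : Comm E a E' (i a) i := fun c x hx => by
  have h1 := hx.succ ha
  cases h : ev E a c x with
  | none =>
    obtain ⟨th, ⟨h2, h3⟩, h4⟩ := U.los.ex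
      (((U.los.ev (i_le U ha) c (i_in U h1)).and (ival U h1)).and (U.ival a ha))
    rw [h3, h4, h] at h2
    simpa using h2.symm
  | some y =>
    have h5 := (ev_in h).succ ha
    refine U.los.val (i_le U ha) (i_in U h1) (i_in U h5) (U.los.fr ?_)
    filter_upwards [ival U h1, ival U h5, U.ival a ha] with th h2 h3 h4
    rw [h2, h3, h4, h]

theorem pas (h : Pas E b) : Pas E' d := fun x y hx => by
  obtain ⟨h1, h2, h3⟩ := U.bdd d (KE.lt1 le_rfl) x y hx
  obtain ⟨th, h4⟩ := U.los.ex (U.los.ext_pos le_rfl h3 h1 h2 hx)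
  rw [U.rep.top] at h4
  exact h _ _ h4

variable [UIdSt.{u}]

theorem ik : i k = e k := (UIdSt.map U).1 k U.ctx.ext.lt

theorem kb : k < b := U.ctx.ext.lt.trans_le U.ctx.tb

theorem gen {a : Tr.{u}} (ha : In (e k) a) :
    ∀ᶠ th in F, a.map (r th) = a.map th ∧ In k (a.map th) := by
  induction a with
  | nil => simp
  | leaf x =>
    have hx : x < e k := by simpa using ha
    filter_upwards [UIdSt.gen U x hx, U.uf.dom x hx] with th h1 h2
    simp [h1, h2]
  | node l s ih1 ih2 =>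
    rw [in_node] at ha
    filter_upwards [ih1 ha.1, ih2 ha.2] with th h1 h2
    simp [h1, h2]

theorem ek {a : Tr.{u}} (ha : In (e k) a) : In d a := ha.mono (ik U ▸ i_le U (kb U).le)

theorem inc : UpInc E (b + 1) E' i k := fun n m hn hm h q hq h1 => by
  rw [ik U] at hq
  have h2 := (ek U hq).succ le_rfl
  obtain ⟨th, ⟨⟨⟨h3, h4⟩, h5, h6⟩, h7⟩, h8⟩ := U.los.ex (((((U.los.nm (i_in U hn) h2).and
    (U.los.nm (i_in U hm) h2)).and (gen U hq)).and (ival U hn)).and (ival U hm))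
  rw [h7, h5] at h3
  rw [h8, h5] at h4
  exact h4.1 (h _ h6 (h3.2 h1))

theorem hull {y} (hy : y < i b) :
    ∃ f a, In (b + 1) f ∧ In (i k) a ∧ fv E' (f.map i) a = some (leaf y) := by
  rw [U.itop] at hy
  obtain ⟨a, c, z, h1, h2, h3⟩ := U.rep.rep y hy
  have h4 := h2.succ le_rfl
  refine ⟨node (leaf b) (node c.erase z), a, by simp [h4], ik U ▸ h1, ?_⟩
  have h5 : ev E' d c (node a (z.map i)) = some (leaf y) := by
    refine U.los.val le_rfl ((in_node _ _ _).2 ⟨(ek U h1).succ le_rfl, i_in U h4⟩)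
      (by simpa using hy.le) (U.los.fr ?_)
    filter_upwards [h3, gen U h1, ival U h4] with th h6 h7 h8
    rw [map_node, h7.1, h8, U.rep.top, h6, map_leaf]
  simpa [fv, U.itop] using h5

variable [UTopSt.{u}] [UActSt.{u}] [LosPmSt.{u}] (hc : TopCts E b k t e)
include hc

theorem pm0 : PM0 E' (d + 1) := by
  have h1 : PM0 E' d := LosPmSt.pm0 U.los (fun a ha => U.bdd a (KE.lt1 ha.le))
    (Filter.Eventually.of_forall fun th => by
      rw [U.rep.top]
      exact KE.pm0_mono U.ctx.pm (KE.lt1 le_rfl).le)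
  refine ⟨fun a ha => ?_, fun a ha => ?_⟩
  · rcases (KE.le1 ha).eq_or_lt with h | h
    · exact h ▸ (UTopSt.top U).1
    · exact h1.ls a h
  · rcases (KE.le1 ha).eq_or_lt with h | h
    · rcases U.ctx.pm.act b (KE.lt1 le_rfl) with h2 | ⟨k0, t0, g, h2⟩
      · exact Or.inl (h ▸ pas U h2)
      · obtain ⟨g', h3⟩ := UActSt.act U hc h2
        exact Or.inr ⟨_, _, g', h ▸ h3⟩
    · exact h1.act a h

theorem pm (H : PM E (b + 1)) : PM E' (d + 1) := by
  have h1 : PM E' d := LosPmSt.pm U.los (fun a ha => U.bdd a (KE.lt1 ha.le))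
    (Filter.Eventually.of_forall fun th => by
      rw [U.rep.top]
      exact KE.pm_mono H (KE.lt1 le_rfl).le)
  refine ⟨pm0 U hc, fun a ha k1 t1 g1 h2 => ?_⟩
  rcases (KE.le1 ha).eq_or_lt with h | h
  · subst h
    have h3 := (h2.graph k1 _).2 ⟨h2.lt, rfl⟩
    rcases U.ctx.pm.act b (KE.lt1 le_rfl) with h4 | ⟨k0, t0, g, h4⟩
    · exact absurd h3 (pas U h4 _ _)
    · obtain ⟨g', h5⟩ := UActSt.act U hc h4
      rw [(KL.act_uniq h2 h5).1]
      refine LosPmSt.small U.los (U.bdd a ha _ _ h3).2.2 (h5.lt.trans h5.dom) ?_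
      filter_upwards [U.ival k0 (h4.lt.trans h4.dom).le] with th h6
      rw [h6]
      exact H.small b (KE.lt1 le_rfl) k0 t0 g h4
  · exact h1.small a h k1 t1 g1 h2

theorem ult : IsUlt E b k E' i where
  mono := fun _ _ _ hy h => i_lt U h (KE.le1 hy)
  maps := fun a ha => U.itop ▸ KE.lt1 (i_le U (KE.le1 ha))
  top := fun a ha => by rw [KE.s1inj ha]
  comm := fun a ha => comm U (KE.le1 ha)
  commTop := U.itop ▸ (UTopSt.top U).2
  pm := U.ctx.pm
  pm' := U.itop ▸ pm0 U hc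
  inf := U.ctx.ext.inf
  lt := U.ctx.np b U.ctx.tb (KE.lt1 le_rfl)
  inc := inc U
  gen := fun _ hy => hull U hy

end UltI

instance [UFSt.{u}] [URepSt.{u}] [UPreSt.{u}] [UIdSt.{u}] [UTopSt.{u}] [UActSt.{u}]
    [LosPmSt.{u}] : UltSt.{u} := ⟨fun h1 h2 h3 h4 h5 hc hw => by
  have C : UCtx _ _ _ _ _ _ _ := ⟨h1, h2, h3, h4, h5⟩
  obtain ⟨F, hF⟩ := UFSt.ex C
  obtain ⟨r, d, hr⟩ := URepSt.ex C hF hw
  obtain ⟨E', i, U⟩ := UPreSt.ex C hF hr
  exact ⟨E', i, UltI.ult U hc, (UIdSt.map U).1, (UIdSt.map U).2, UIdSt.agree U,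
    fun H => U.itop ▸ UltI.pm U hc H⟩⟩

end Pool.Agent.KM
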