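import Pool.Agent.Lib.MP_5c0be7_lc.L.St
import Pool.Agent.Lib.MP_5c0be7_lc.K.Loc
import Pool.Agent.Lib.MP_5c0be7_lc.O.FO3

/-!
Project KM, block F5: an extender of a sequence applies to every premouse that agrees up to its
domain.
-/

namespace Pool.Agent.KM

open Ordinal Tr

universe u

namespace UltAct

variable {E E1 : Seq.{u}} {b k t v : Ordinal.{u}} {e : Ordinal.{u} → Ordinal.{u}}

/-- A critical point is not a successor cardinal. -/
theorem not_top (l : LS E1 v) (h : Act E1 v k t e) {m : Ordinal.{u}} (hm : m < k) :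
    ¬ TopC E1 m k := fun h1 => by
  have h2 := ((Df.topC (On.lab IsOp.id) On.top).weak_lim h.weak (l.mono h.dom.le) l
    (KL.ext_lim h.toExt) h.lt le_rfl (z := leaf m) (by simpa using hm)).2 h1
  simp only [map_leaf, lab_leaf, h.fix m hm] at h2
  obtain ⟨a, h3, h4, h5⟩ := h2 k h.move
  rcases lt_or_ge a t with h6 | h6
  · exact absurd ((h.card a h3 h6).trans h5) hm.not_ge
  · exact absurd ((h.next a h6 (h4.trans (h.weak.maps k h.lt))).trans_le h5) hm.not_gt

theorem cts (h1 : PM0 E1 v) (h : Act E1 v k t e) (ha : Agree E E1 t) (hp : t = b → Pas E b) :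
    TopCts E b k t e := by
  intro k0 t0 g h0
  refine ⟨fun ht y hy => ?_, fun hb => absurd (hp hb) (KL.act_not_pas h0)⟩
  rcases ht.eq_or_lt with rfl | ht
  · exact absurd (KL.topC_ag (KL.ag_mono ha h.lt.le) h0.top) (not_top h1.ls h h0.lt)
  · rw [h.fix t0 ht] at hy
    have h2 := not_suc_iff.1 (KL.ext_lim h0.toExt) y hy
    exact ⟨y + 1, h2, by rw [h.fix _ (h2.trans ht)]; exact lt_add_one y⟩

end UltAct

instance : UltActSt.{u} :=
  ⟨fun h _ ha => KL.ext_left (KL.ag_symm ha) h.toExt, fun _ h1 h ha _ hp => UltAct.cts h1 h ha hp⟩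

end Pool.Agent.KM
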