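import Pool.Agent.Lib.MP_5c0be7_lc.L.St
import Pool.Agent.Lib.MP_5c0be7_lc.K.GoodI
import Pool.Agent.Lib.MP_5c0be7_lc.O.F3c

/-!
Project KM, block F5: generation, cofinality and continuity of ultrapower maps.
-/

namespace Pool.Agent.KM

open Ordinal Tr
open scoped Classical

universe u

namespace UltFact

variable {E E' : Seq.{u}} {b k : Ordinal.{u}} {i : Ordinal.{u} → Ordinal.{u}}

theorem nm_iff_fv {t q : Tr.{u}} : Nm E t q ↔ (fv E t q).isSome := by
  unfold fv
  cases h : t.fst <;> simp [NmL, h]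

/-- A name below `b + 1` is read at level `b`, uniformly along increasing maps. -/
theorem norm {t : Tr.{u}} (ht : In (b + 1) t) : ∃ c p, In b p ∧
    ∀ (E : Seq.{u}) (s : Ordinal.{u} → Ordinal.{u}), StrictMonoOn s (Set.Iio (b + 1)) →
      ∀ v, In (s b) v → fv E (t.map s) v = ev E (s b) c (node v (p.map s)) := by
  by_cases h : ∃ a, t.fst = leaf a ∧ In a t.snd.snd
  · obtain ⟨a, h1, h2⟩ := h
    have ha : a < b + 1 := by simpa [h1] using ht.fst
    rcases (KE.le1 ha).eq_or_lt with rfl | hab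
    · exact ⟨t.snd.fst, t.snd.snd, h2, fun E s _ v _ => by simp [fv, h1]⟩
    · obtain ⟨c, H⟩ := F3.ex_call (f := fun x : Tr.{u} =>
        node x.snd.fst (node t.snd.fst.erase (node x.fst x.snd.snd))) (by fun_prop (disch := simp))
      have hp : In b (node (leaf a) t.snd.snd) := by simp [hab, h2.mono hab.le]
      refine ⟨c, _, hp, fun E s hs v hv => ?_⟩
      have h3 : ∀ z < b, s z < s b := fun z hz => hs (hz.trans (lt_add_one b)) (lt_add_one b) hz
      rw [H E _ _ ((in_node _ _ _).2 ⟨hv, KE.in_map fun z hz => h3 z (hp z hz)⟩)]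
      simp [fv, h1, call_leaf (h3 a hab)]
  · refine ⟨tst .tone, .nil, in_nil _, fun E s hs v hv => ?_⟩
    rw [ev_tst _ (by simpa using hv), if_neg (by simp [Op.tone, bop])]
    unfold fv
    split_ifs with h0
    · rw [map_fst, map_eq_leaf] at h0
      obtain ⟨a, h1, -⟩ := h0
      have ha : a < b + 1 := by simpa [h1] using ht.fst
      refine ev_guard (fun h2 => h ⟨a, h1, ?_⟩) _
      have h3 := h2.snd
      simp only [map_fst, h1, map_leaf, lab_leaf, snd_node, map_snd] at h3
      exact (in_map_iff (hs.mono fun z hz => hz.elim (fun e => e ▸ ha) (ht.snd.snd z))).1 h3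
    · rfl

theorem k_lt (h : IsUlt E b k E' i) : k < b := h.lt.trans_le (rho_le E b)

theorem lt_top (h : Weak E (b + 1) E' (i b + 1) i) {x} (hx : x < b) : i x < i b :=
  h.mono (hx.trans (lt_add_one b)) (lt_add_one b) hx

theorem in_top (h : Weak E (b + 1) E' (i b + 1) i) {z : Tr.{u}} (hz : In b z) :
    In (i b) (z.map i) := KE.in_map fun a ha => lt_top h (hz a ha)

theorem tree (h : IsUlt E b k E' i) {x : Tr.{u}} (hx : In (i b) x) :
    ∃ c z a, In b z ∧ In (i k) a ∧ ev E' (i b) c (node a (z.map i)) = some x := by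
  induction x with
  | nil => exact ⟨opc .nil, .nil, .nil, by simp, by simp, ev_opc _ (by simp)⟩
  | leaf y =>
    obtain ⟨f, a, h1, h2, h3⟩ := h.gen y (by simpa using hx)
    obtain ⟨c, p, h4, h5⟩ := norm h1
    exact ⟨c, p, a, h4, h2, (h5 E' i h.mono a (h2.mono (lt_top h.toWeak (k_lt h)).le)).symm.trans h3⟩
  | node l r ihl ihr =>
    obtain ⟨c, z, a, h1, h2, h3⟩ := ihl hx.fst
    obtain ⟨c', z', a', h4, h5, h6⟩ := ihr hx.snd
    have hi : In (i b) (node (node a a') ((node z z').map i)) := by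
      simp [show In (i b) a from (in_of_ev_eq h3).fst, show In (i b) a' from (in_of_ev_eq h6).fst,
        show In (i b) (z.map i) from (in_of_ev_eq h3).snd,
        show In (i b) (z'.map i) from (in_of_ev_eq h6).snd]
    refine ⟨pairc (prec (.pair .ff .fs) c) (prec (.pair .sf .ss) c'), node z z', node a a',
      by simp [h1, h4], by simp [h2, h5], ev_pairc_some ?_ ?_⟩
    · rw [ev_prec _ _ hi]; exact h3
    · rw [ev_prec _ _ hi]; exact h6

theorem cof (h : IsUlt E b k E' i) : Cof E b E' (i b) i := by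
  refine ⟨h.toStrong, fun y hy => by_contra fun hc => ?_⟩
  have hc : ∀ x < rho E b, i x < y := fun x hx => not_le.1 fun e => hc ⟨x, hx, e⟩
  obtain ⟨p, hp⟩ := (h.pm.ls b (lt_add_one b)).1
  refine absurd (F3.gen_rho (x := p.map i) fun t ht => ?_) (not_le.2 hy)
  obtain ⟨c, z, a, h1, h2, h3⟩ := tree h ht
  obtain ⟨c', v, h4, h5⟩ := hp.2.2.2 z h1
  have h6 := h.comm b (lt_add_one b) c' _ (in_of_ev_eq h5)
  rw [h5] at h6
  obtain ⟨o1, o2, H⟩ := F3.ex_sq (f := fun x : Tr.{u} => node x.fst.snd x.snd)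
    (g := fun x : Tr.{u} => node x.snd.fst.fst x.fst) (by fun_prop) (by fun_prop)
  refine ⟨_, node a (v.map i), (in_node _ _ _).2 ⟨h2.mono (hc k h.lt).le,
    KE.in_map fun x hx => hc x (h4 x hx)⟩, (H E' _ c' c _ ?_).trans ?_⟩
  · have h7 := in_of_ev_eq h6
    simp only [map_node, in_node] at h7 ⊢
    exact ⟨⟨(in_of_ev_eq h3).fst, h7.1⟩, h7.2⟩
  · simp only [map_node] at h6
    simp [h6, h3]

theorem cts {a : Ordinal.{u}} (h : IsUlt E b k E' i) (ha : a ≤ b)
    (H : ∀ f, In (b + 1) f → ∃ x < a, ∀ w y, In k w → fv E f w = some (leaf y) → y < a → y < x) :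
    Cts i a := by
  intro y hy
  obtain ⟨f, a0, h1, h2, h3⟩ := h.gen y (hy.trans_le
    ((KE.w_le h.toWeak (KE.lt1 ha) (lt_add_one b)).2 ha))
  obtain ⟨x, h4, h5⟩ := H f h1
  refine ⟨x, h4, by_contra fun hc => ?_⟩
  have I := IsOp.id.{u}
  have hv := (CF.op (I.snd.fst.fst.pair (I.snd.fst.snd.fst.pair
    (I.fst.pair I.snd.fst.snd.snd)))).call.post I.snd
  have hv1 := hv.post I.isleaf
  have hv2 := ((CF.op I.snd.snd.snd.fst).pair hv).post (I.fst.bd I.snd)
  have hv3 := ((CF.op I.snd.snd.snd.snd).pair hv).post (I.fst.bd I.snd)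
  have hA := (CF.op (I.snd.snd.fst.bd I.fst)).and (CF.and hv1 ((CF.not hv2).and hv3))
  have hk := (k_lt h).le
  have hx : In (b + 1) (node f (node (leaf k) (node (leaf x) (leaf a)))) := by
    simp [h1, Order.lt_add_one_iff, hk, ha, h4.le.trans ha]
  have key : ∀ (E : Seq.{u}) d (f w : Tr.{u}), In d f →
      call (ev E) d (node f.fst (node f.snd.fst (node w f.snd.snd))) = opt (fv E f w) := by
    intro E d f w hf
    have h0 := hf.fst
    unfold fv
    cases e : f.fst with
    | leaf a => rw [e, in_leaf] at h0; rw [call_leaf h0, if_pos (by simp)]; rfl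
    | _ => rw [if_neg (by simp), call, if_neg (by simp)]; rfl
  obtain ⟨w, -, g1, ⟨y', g2⟩, g3, g4⟩ := hA.down h.commTop (h.pm.ls b (lt_add_one b)).1
    (h.pm'.ls _ (lt_add_one _)).1 hx (KE.w_in h.toWeak hx) (t' := a0)
    (h2.mono (h.maps k (KE.lt1 hk)).le) (by
      simp only [map_node, map_leaf, fst_node, snd_node]
      rw [key E' _ _ _ (KE.w_in h.toWeak h1), h3]
      simpa [h2, hy] using hc)
  simp only [fst_node, snd_node] at g1 g2 g3 g4
  rw [key E _ _ _ h1] at g2 g3 g4
  rw [g2] at g3 g4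
  cases e : fv E f w with
  | none => simp [e] at g2
  | some r =>
    obtain rfl : r = leaf y' := by simpa [e] using g2
    exact g3 ⟨x, rfl, by simpa using h5 w y' (by simpa using g1) e (by simpa using g4)⟩

end UltFact

instance : UltFactSt.{u} := ⟨fun h => UltFact.tree h, UltFact.cof, UltFact.cts⟩

end Pool.Agent.KM
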